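import Pool.Agent.H11.TW.Stm

/-! TW-CLS (helper61): root classes modulo a prime. -/

set_option autoImplicit false

namespace Pool.Agent.H11.TW

open Polynomial Finset

namespace CLSx

lemma hom_zmod (f : ℤ[X]) (D p : ℕ) [Fact p.Prime] (a b : ℤ) (hD : f.natDegree ≤ D) (hb : ((b : ℤ) : ZMod p) ≠ 0) :
    ((hom f D a b : ℤ) : ZMod p) =
      (b : ZMod p) ^ D * f.eval₂ (Int.castRingHom (ZMod p)) ((a : ZMod p) * (b : ZMod p)⁻¹) := by
  unfold hom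
  rw [Polynomial.eval₂_eq_sum_range, mul_sum]
  push_cast
  refine sum_congr rfl fun i hi => ?_
  have hi' : i ≤ D := by
    have := mem_range.mp hi
    omega
  obtain ⟨k, rfl⟩ := Nat.exists_eq_add_of_le hi'
  rw [Nat.add_sub_cancel_left, mul_pow, pow_add, inv_pow]
  have h1 : (b : ZMod p) ^ i ≠ 0 := pow_ne_zero _ hb
  simp only [eq_intCast]
  field_simp

/-- residue of `a/b` -/
noncomputable def rs (p : ℕ) (v : ℤ × ℤ) : ℕ := ((v.1 : ZMod p) * (v.2 : ZMod p)⁻¹).val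

lemma rs_root (f : ℤ[X]) (D p : ℕ) [Fact p.Prime] (v : ℤ × ℤ) (hD : f.natDegree ≤ D)
    (hb : ¬ (p : ℤ) ∣ v.2) (h : (p : ℤ) ∣ hom f D v.1 v.2) :
    rs p v ∈ (range p).filter (fun a : ℕ => (p : ℤ) ∣ f.eval (a : ℤ)) := by
  have hb' : ((v.2 : ℤ) : ZMod p) ≠ 0 := fun h0 => hb ((ZMod.intCast_zmod_eq_zero_iff_dvd _ _).mp h0)
  rw [mem_filter, mem_range]
  refine ⟨ZMod.val_lt _, ?_⟩
  rw [← ZMod.intCast_zmod_eq_zero_iff_dvd] at h ⊢
  rw [hom_zmod f D p v.1 v.2 hD hb'] at h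
  have h1 := (mul_eq_zero.mp h).resolve_left (pow_ne_zero _ hb')
  have h2 : (Int.castRingHom (ZMod p)) ((rs p v : ℕ) : ℤ) = (v.1 : ZMod p) * (v.2 : ZMod p)⁻¹ := by
    unfold rs
    simp
  rw [← h2, Polynomial.eval₂_hom] at h1
  simpa using h1

end CLSx

open CLSx in
theorem CLS_main (h : S_RTB) : S_CLS := by
  intro f D hf hD
  have hD' : f.natDegree ≤ D := by rcases hD with h | h <;> omega
  obtain ⟨B, hB⟩ := h f hf
  refine ⟨B, fun p hp hBp => ?_⟩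
  haveI : Fact p.Prime := ⟨hp⟩
  obtain ⟨hrt, -⟩ := hB p hp hBp
  classical
  set R := (range p).filter (fun a : ℕ => (p : ℤ) ∣ f.eval (a : ℤ)) with hR
  obtain ⟨emb⟩ : Nonempty (↥R ↪ Fin f.natDegree) :=
    Function.Embedding.nonempty_of_card_le (by rw [Fintype.card_coe, Fintype.card_fin]; exact hrt)
  let κ : ℤ × ℤ → Fin (f.natDegree + 1) := fun v =>
    if h : ¬ (p : ℤ) ∣ v.2 ∧ rs p v ∈ R then (emb ⟨rs p v, h.2⟩).castSucc else Fin.last _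
  refine ⟨κ, fun v w _ _ hv hw hκ => ?_⟩
  by_cases h1 : (p : ℤ) ∣ v.2
  · by_cases h2 : (p : ℤ) ∣ w.2
    · exact dvd_sub (h2.mul_left _) (h1.mul_right _)
    · exfalso
      have e1 : κ v = Fin.last _ := dif_neg (fun h => h.1 h1)
      have e2 : κ w = (emb ⟨rs p w, rs_root f D p w hD' h2 hw⟩).castSucc :=
        dif_pos (⟨h2, rs_root f D p w hD' h2 hw⟩ : ¬ (p : ℤ) ∣ w.2 ∧ rs p w ∈ R)
      rw [e1, e2] at hκ
      exact (Fin.castSucc_lt_last _).ne hκ.symm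
  · have e1 : κ v = (emb ⟨rs p v, rs_root f D p v hD' h1 hv⟩).castSucc :=
      dif_pos (⟨h1, rs_root f D p v hD' h1 hv⟩ : ¬ (p : ℤ) ∣ v.2 ∧ rs p v ∈ R)
    by_cases h2 : (p : ℤ) ∣ w.2
    · exfalso
      have e2 : κ w = Fin.last _ := dif_neg (fun h => h.1 h2)
      rw [e1, e2] at hκ
      exact (Fin.castSucc_lt_last _).ne hκ
    · have e2 : κ w = (emb ⟨rs p w, rs_root f D p w hD' h2 hw⟩).castSucc :=
        dif_pos (⟨h2, rs_root f D p w hD' h2 hw⟩ : ¬ (p : ℤ) ∣ w.2 ∧ rs p w ∈ R)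
      rw [e1, e2] at hκ
      have h3 := Subtype.ext_iff.mp (emb.injective (Fin.castSucc_injective _ hκ))
      have h4 : (v.1 : ZMod p) * (v.2 : ZMod p)⁻¹ = (w.1 : ZMod p) * (w.2 : ZMod p)⁻¹ :=
        ZMod.val_injective p h3
      have hb1 : ((v.2 : ℤ) : ZMod p) ≠ 0 := fun h0 => h1 ((ZMod.intCast_zmod_eq_zero_iff_dvd _ _).mp h0)
      have hb2 : ((w.2 : ℤ) : ZMod p) ≠ 0 := fun h0 => h2 ((ZMod.intCast_zmod_eq_zero_iff_dvd _ _).mp h0)
      rw [← div_eq_mul_inv, ← div_eq_mul_inv, div_eq_div_iff hb1 hb2] at h4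
      rw [← ZMod.intCast_zmod_eq_zero_iff_dvd]
      unfold det
      push_cast
      rw [h4]
      ring

end Pool.Agent.H11.TW
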