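import Pool.Agent.H11.TW.Stm

/-!
# TW-DIS: distinct twists (helper92)
-/

set_option autoImplicit false

namespace Pool.Agent.H11.TW

open Polynomial Finset Filter Topology

namespace DISx

theorem sqf (m : ℤ) (hm : m ≠ 0) : ∃ d z : ℤ, m = d * z ^ 2 ∧ Squarefree d ∧ z ≠ 0 := by
  obtain ⟨a, b, hab, ha⟩ := Nat.sq_mul_squarefree m.natAbs
  refine ⟨m.sign * a, b, ?_, ?_, ?_⟩
  · have h1 : m = m.sign * (m.natAbs : ℤ) := (Int.sign_mul_natAbs m).symm
    conv_lhs => rw [h1]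
    rw [← hab]
    push_cast
    ring
  · rw [← Int.squarefree_natAbs, Int.natAbs_mul, Int.natAbs_natCast]
    have : m.sign.natAbs = 1 := Int.natAbs_sign_of_ne_zero hm
    rw [this, one_mul]
    exact ha
  · intro hb
    have : b = 0 := by exact_mod_cast hb
    subst this
    have : m.natAbs = 0 := by rw [← hab]; ring
    exact hm (Int.natAbs_eq_zero.1 this)

/-- the squarefree part -/
noncomputable def sp (m : ℤ) : ℤ := if h : m ≠ 0 then (sqf m h).choose else 1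

theorem sp_spec {m : ℤ} (h : m ≠ 0) : ∃ z : ℤ, m = sp m * z ^ 2 ∧ Squarefree (sp m) ∧ z ≠ 0 := by
  unfold sp
  rw [dif_pos h]
  exact (sqf m h).choose_spec

/-- the primes of the two ranges -/
noncomputable def rg (T : ℕ) : Finset ℕ :=
  pr ((T : ℝ) ^ (1 / 10000 : ℝ)) ((T : ℝ) ^ (1 - 1 / 10000 : ℝ)) ∪ pr (T : ℝ) ((T : ℝ) ^ (3 / 2 : ℝ))

theorem mem_pr {y z : ℝ} (hz : 0 ≤ z) {p : ℕ} : p ∈ pr y z ↔ p.Prime ∧ y < p ∧ (p : ℝ) ≤ z := by
  unfold pr
  rw [Finset.mem_filter, Finset.mem_range, ← Nat.le_floor_iff hz]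
  constructor
  · rintro ⟨h1, h2, h3⟩
    exact ⟨h2, h3, by omega⟩
  · rintro ⟨h1, h2, h3⟩
    exact ⟨by omega, h1, h2⟩

theorem mem_rg {T p : ℕ} (hT : 2 ≤ T) (hp : p ∈ rg T) :
    p.Prime ∧ (T : ℝ) ^ (1 / 10000 : ℝ) < p ∧ (p : ℝ) ≤ (T : ℝ) ^ (3 / 2 : ℝ) := by
  have hT1 : (1 : ℝ) ≤ T := by exact_mod_cast (by omega : 1 ≤ T)
  unfold rg at hp
  rw [Finset.mem_union, mem_pr (by positivity), mem_pr (by positivity)] at hp
  rcases hp with ⟨h1, h2, h3⟩ | ⟨h1, h2, h3⟩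
  · exact ⟨h1, h2, h3.trans (Real.rpow_le_rpow_of_exponent_le hT1 (by norm_num))⟩
  · refine ⟨h1, lt_of_le_of_lt ?_ h2, h3⟩
    calc (T : ℝ) ^ (1 / 10000 : ℝ) ≤ (T : ℝ) ^ (1 : ℝ) :=
          Real.rpow_le_rpow_of_exponent_le hT1 (by norm_num)
      _ = T := Real.rpow_one _

theorem sum_rg (f : ℤ[X]) (D T : ℕ) (hT : 2 ≤ T) (v : ℤ × ℤ) :
    ∑ p ∈ (rg T).filter (fun p : ℕ => (p : ℤ) ∣ hom f D v.1 v.2), Real.log p =
      wt f D ((T : ℝ) ^ (1 / 10000 : ℝ)) ((T : ℝ) ^ (1 - 1 / 10000 : ℝ)) v +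
      wt f D (T : ℝ) ((T : ℝ) ^ (3 / 2 : ℝ)) v := by
  have hT1 : (1 : ℝ) ≤ T := by exact_mod_cast (by omega : 1 ≤ T)
  unfold rg wt
  rw [Finset.filter_union, Finset.sum_union]
  refine Finset.disjoint_filter_filter ?_
  rw [Finset.disjoint_left]
  intro p h1 h2
  rw [mem_pr (by positivity)] at h1 h2
  have h3 : (T : ℝ) ^ (1 - 1 / 10000 : ℝ) ≤ T := by
    calc (T : ℝ) ^ (1 - 1 / 10000 : ℝ) ≤ (T : ℝ) ^ (1 : ℝ) :=
          Real.rpow_le_rpow_of_exponent_le hT1 (by norm_num)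
      _ = T := Real.rpow_one _
  linarith [h1.2.2, h2.2.1]

end DISx

theorem DIS_main (h1 : S_SQ) (h2 : S_MUL) (h3 : S_PT) (h4 : S_HB) : S_DIS := by
  classical
  intro f c hf hn hc hev
  have hf0 : f ≠ 0 := by
    rintro rfl
    simp at hn
  have hD : dg f = f.natDegree ∨ dg f = f.natDegree + 1 := by unfold dg; omega
  obtain ⟨C, hC1, hC⟩ := h4 f (dg f) (by omega)
  obtain ⟨B, hB⟩ := h2 f (dg f) hf0 hD
  have hSQ := h1 f (dg f) hf hD (1 / 10000) (c / 2) (by norm_num) (by positivity)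
  set D := dg f with hDd
  obtain ⟨K, hK⟩ : ∃ K : ℕ, K = 10000 * (D + 1) := ⟨_, rfl⟩
  refine ⟨c / 2 / ((2 * (f.natDegree + 1) ^ K : ℕ) : ℝ), 2 * C, by positivity, by positivity, ?_⟩
  have hbig1 : ∀ᶠ T : ℕ in atTop, (B : ℝ) < (T : ℝ) ^ (1 / 10000 : ℝ) :=
    ((tendsto_rpow_atTop (by norm_num : (0 : ℝ) < 1 / 10000)).comp
      tendsto_natCast_atTop_atTop).eventually (eventually_gt_atTop (B : ℝ))
  have hbig2 : ∀ᶠ T : ℕ in atTop, (2 : ℝ) < (T : ℝ) ^ (1 / 200 : ℝ) :=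
    ((tendsto_rpow_atTop (by norm_num : (0 : ℝ) < 1 / 200)).comp
      tendsto_natCast_atTop_atTop).eventually (eventually_gt_atTop (2 : ℝ))
  filter_upwards [hev, hSQ, hbig1, hbig2, eventually_ge_atTop 2, eventually_ge_atTop ⌈C⌉₊]
    with T g1 g2 g3 g4 hT gC
  have hT2 : (2 : ℝ) ≤ T := by exact_mod_cast hT
  have hTC : C ≤ T := (Nat.le_ceil C).trans (by exact_mod_cast gC)
  have hL0 : 0 < Real.log (T : ℝ) := Real.log_pos (by linarith)
  set F : ℤ × ℤ → ℤ := fun v => hom f D v.1 v.2 with hF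
  set Bad : Finset (ℤ × ℤ) := (bx T).filter (fun v => gc v = 1 ∧ ∃ p : ℕ, p.Prime ∧
    (T : ℝ) ^ (1 / 10000 : ℝ) < p ∧ (p : ℝ) ≤ (T : ℝ) ^ (3 / 2 : ℝ) ∧ (p : ℤ) ^ 2 ∣ hom f D v.1 v.2) with hBad
  have hBadc : (Bad.card : ℝ) ≤ c / 2 * (T : ℝ) ^ 2 := by
    rw [← Set.ncard_coe_finset]
    refine le_trans (le_of_eq ?_) g2
    congr 2
    ext v
    rw [Finset.mem_coe, hBad, Finset.mem_filter]
    rfl
  set G : Finset (ℤ × ℤ) := ((Hv f D T).filter (fun v => gc v = 1)) \ Bad with hG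
  have hGc : c / 2 * (T : ℝ) ^ 2 ≤ (G.card : ℝ) := by
    have e1 : ((Hv f D T).filter (fun v => gc v = 1)).card ≤ G.card + Bad.card := by
      have := Finset.le_card_sdiff Bad ((Hv f D T).filter (fun v => gc v = 1))
      rw [← hG] at this
      omega
    have e2 : (((Hv f D T).filter (fun v => gc v = 1)).card : ℝ) ≤ G.card + Bad.card := by exact_mod_cast e1
    linarith
  -- facts on the elements of `G`
  have hmem : ∀ v ∈ G, v ∈ bx T ∧ v.2 ≠ 0 ∧ gc v = 1 ∧ F v ≠ 0 ∧ |((F v : ℤ) : ℝ)| ≤ C * (T : ℝ) ^ D ∧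
      (2 + 1 / 200) * Real.log T ≤ ∑ p ∈ (DISx.rg T).filter (fun p : ℕ => (p : ℤ) ∣ F v), Real.log p ∧
      ∀ p ∈ DISx.rg T, ¬ (p : ℤ) ^ 2 ∣ F v := by
    intro v hv
    rw [hG, Finset.mem_sdiff, Finset.mem_filter] at hv
    obtain ⟨⟨v1, v2⟩, v3⟩ := hv
    unfold Hv at v1
    rw [Finset.mem_filter] at v1
    obtain ⟨v4, v5, v6⟩ := v1
    have v7 := v4
    unfold bx at v7
    rw [Finset.mem_filter, Finset.mem_product, Finset.mem_Icc, Finset.mem_Icc] at v7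
    refine ⟨v4, v7.2, v2, v5, hC T v (by omega) (abs_le.2 v7.1.1) (abs_le.2 v7.1.2), ?_, ?_⟩
    · rw [DISx.sum_rg f D T hT v]
      exact v6
    · intro p hp hdvd
      obtain ⟨p1, p2, p3⟩ := DISx.mem_rg hT hp
      exact v3 (by rw [hBad, Finset.mem_filter]; exact ⟨v4, v2, p, p1, p2, p3, hdvd⟩)
  -- the image
  have himg : ((G.image fun v => DISx.sp (F v) : Finset ℤ) : Set ℤ) ⊆ Tw f (2 * C * (T : ℝ) ^ D) := by
    intro d hd
    rw [Finset.mem_coe, Finset.mem_image] at hd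
    obtain ⟨v, hv, rfl⟩ := hd
    obtain ⟨v1, v2, v3, v4, v5, v6, v7⟩ := hmem v hv
    obtain ⟨z, z1, z2, z3⟩ := DISx.sp_spec v4
    refine ⟨z2, ?_, h3 f v.1 v.2 _ z v2 z3 z1⟩
    have e1 : |((DISx.sp (F v) : ℤ) : ℝ)| ≤ |((F v : ℤ) : ℝ)| := by
      have e2 : ((F v : ℤ) : ℝ) = ((DISx.sp (F v) : ℤ) : ℝ) * ((z : ℤ) : ℝ) ^ 2 := by exact_mod_cast z1
      rw [e2, abs_mul]
      refine le_mul_of_one_le_right (abs_nonneg _) ?_
      have e3 : (1 : ℤ) ≤ z ^ 2 := by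
        have := sq_pos_of_ne_zero z3
        omega
      have e4 : (1 : ℝ) ≤ ((z : ℤ) : ℝ) ^ 2 := by exact_mod_cast e3
      exact e4.trans (le_abs_self _)
    have e5 : 0 < C * (T : ℝ) ^ D := by positivity
    have e6 : 2 * C * (T : ℝ) ^ D = 2 * (C * (T : ℝ) ^ D) := by ring
    show |((DISx.sp (F v) : ℤ) : ℝ)| < 2 * C * (T : ℝ) ^ D
    rw [e6]
    linarith
  have hfin : (Tw f (2 * C * (T : ℝ) ^ D)).Finite := by
    refine (Set.finite_Icc (-⌈2 * C * (T : ℝ) ^ D⌉) ⌈2 * C * (T : ℝ) ^ D⌉).subset ?_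
    rintro d ⟨-, hd, -⟩
    have e1 := Int.le_ceil (2 * C * (T : ℝ) ^ D)
    obtain ⟨e2, e3⟩ := abs_lt.1 hd
    rw [Set.mem_Icc]
    constructor
    · have : ((-⌈2 * C * (T : ℝ) ^ D⌉ : ℤ) : ℝ) ≤ d := by
        push_cast
        linarith
      exact_mod_cast this
    · have : (d : ℝ) ≤ (⌈2 * C * (T : ℝ) ^ D⌉ : ℤ) := by linarith
      exact_mod_cast this
  -- the fibres
  have hfib : ∀ d ∈ G.image (fun v => DISx.sp (F v)),
      (G.filter (fun v => DISx.sp (F v) = d)).card ≤ 2 * (f.natDegree + 1) ^ K := by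
    intro d hd
    set P : Finset ℕ := (DISx.rg T).filter (fun p : ℕ => (p : ℤ) ∣ d) with hP
    have hPeq : ∀ v ∈ G, DISx.sp (F v) = d → P = (DISx.rg T).filter (fun p : ℕ => (p : ℤ) ∣ F v) := by
      intro v hv hvd
      obtain ⟨v1, v2, v3, v4, v5, v6, v7⟩ := hmem v hv
      obtain ⟨z, z1, z2, z3⟩ := DISx.sp_spec v4
      rw [hP]
      refine Finset.filter_congr fun p hp => ?_
      rw [← hvd]
      constructor
      · intro h
        rw [z1]
        exact h.mul_right _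
      · intro h
        rw [z1] at h
        have pp : Prime (p : ℤ) := Nat.prime_iff_prime_int.1 (DISx.mem_rg hT hp).1
        rcases pp.dvd_or_dvd h with h5 | h5
        · exact h5
        · exfalso
          refine v7 p hp ?_
          rw [z1]
          exact (pow_dvd_pow_of_dvd (pp.dvd_of_dvd_pow h5) 2).mul_left _
    obtain ⟨v, hv, hvd⟩ := Finset.mem_image.1 hd
    obtain ⟨v1, v2, v3, v4, v5, v6, v7⟩ := hmem v hv
    have hPp : ∀ p ∈ P, p.Prime ∧ (T : ℝ) ^ (1 / 10000 : ℝ) < p := fun p hp =>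
      ⟨(DISx.mem_rg hT (Finset.mem_filter.1 hp).1).1, (DISx.mem_rg hT (Finset.mem_filter.1 hp).1).2.1⟩
    have hlogP : Real.log ((∏ p ∈ P, p : ℕ) : ℝ) = ∑ p ∈ P, Real.log p := by
      push_cast
      rw [Real.log_prod]
      intro p hp
      exact_mod_cast (hPp p hp).1.ne_zero
    have hP0 : (0 : ℝ) < ((∏ p ∈ P, p : ℕ) : ℝ) := by
      exact_mod_cast Finset.prod_pos fun p hp => (hPp p hp).1.pos
    -- the number of the primes
    have hcard : P.card ≤ K := by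
      have e1 : (P.card : ℝ) * (1 / 10000 * Real.log T) ≤ ∑ p ∈ P, Real.log p := by
        rw [← nsmul_eq_mul]
        refine Finset.card_nsmul_le_sum _ _ _ fun p hp => ?_
        rw [← Real.log_rpow (by linarith)]
        exact Real.log_le_log (by positivity) (hPp p hp).2.le
      have e2 : (∏ p ∈ P, p) ∣ (F v).natAbs := by
        refine Finset.prod_primes_dvd _ (fun p hp => Nat.prime_iff.1 (hPp p hp).1) fun p hp => ?_
        rw [hPeq v hv hvd] at hp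
        exact Int.natCast_dvd.1 (Finset.mem_filter.1 hp).2
      have e3 : ((∏ p ∈ P, p : ℕ) : ℝ) ≤ |((F v : ℤ) : ℝ)| := by
        have e4 : (∏ p ∈ P, p) ≤ (F v).natAbs := Nat.le_of_dvd (Int.natAbs_pos.2 v4) e2
        have e5 : (((F v).natAbs : ℕ) : ℝ) = |((F v : ℤ) : ℝ)| := by
          rw [Nat.cast_natAbs, Int.cast_abs]
        rw [← e5]
        exact_mod_cast e4
      have e6 := Real.log_le_log hP0 (e3.trans v5)
      rw [Real.log_mul (by linarith) (by positivity), Real.log_pow, hlogP] at e6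
      have e7 : Real.log C ≤ Real.log T := Real.log_le_log (by linarith) hTC
      have e8 : ((P.card : ℝ) * (1 / 10000)) * Real.log T ≤ (D + 1) * Real.log T := by linarith
      have e9 := le_of_mul_le_mul_right e8 hL0
      have e10 : (P.card : ℝ) ≤ ((K : ℕ) : ℝ) := by
        rw [hK]
        push_cast
        linarith
      exact_mod_cast e10
    have hprod : 2 * T ^ 2 < ∏ p ∈ P, p := by
      have e1 : (2 + 1 / 200) * Real.log T ≤ Real.log ((∏ p ∈ P, p : ℕ) : ℝ) := by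
        rw [hlogP, hPeq v hv hvd]
        exact v6
      rw [← Real.log_rpow (by linarith)] at e1
      have e2 := (Real.log_le_log_iff (by positivity) hP0).1 e1
      rw [Real.rpow_add (by linarith)] at e2
      have e3 : (T : ℝ) ^ (2 : ℝ) = (T : ℝ) ^ 2 := by norm_cast
      rw [e3] at e2
      have e4 : (0 : ℝ) < (T : ℝ) ^ 2 := by positivity
      have e5 : 2 * (T : ℝ) ^ 2 < ((∏ p ∈ P, p : ℕ) : ℝ) := by nlinarith
      exact_mod_cast e5
    refine le_trans (Finset.card_le_card ?_) (hB T K P (fun p hp => ⟨(hPp p hp).1, ?_⟩) hcard hprod)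
    · intro w hw
      rw [Finset.mem_filter] at hw
      obtain ⟨w1, w2, w3, w4, w5, w6, w7⟩ := hmem w hw.1
      rw [Finset.mem_filter]
      refine ⟨w1, w3, fun p hp => ?_⟩
      rw [hPeq w hw.1 hw.2] at hp
      exact (Finset.mem_filter.1 hp).2
    · have := (g3.trans (hPp p hp).2)
      exact_mod_cast this
  have hle := Finset.card_le_mul_card_image G _ hfib
  have hle2 : (G.image fun v => DISx.sp (F v)).card ≤ (Tw f (2 * C * (T : ℝ) ^ D)).ncard := by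
    rw [← Set.ncard_coe_finset]
    exact Set.ncard_le_ncard himg hfin
  have hle3 : (G.card : ℝ) ≤ ((2 * (f.natDegree + 1) ^ K : ℕ) : ℝ) *
      ((Tw f (2 * C * (T : ℝ) ^ D)).ncard : ℝ) := by
    exact_mod_cast hle.trans (Nat.mul_le_mul_left _ hle2)
  have hpos : (0 : ℝ) < ((2 * (f.natDegree + 1) ^ K : ℕ) : ℝ) := by
    have : 0 < 2 * (f.natDegree + 1) ^ K := by positivity
    exact_mod_cast this
  rw [div_mul_eq_mul_div, div_le_iff₀ hpos]
  linarith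

end Pool.Agent.H11.TW
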