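import Pool.Agent.H11.TW.Stm

set_option autoImplicit false

namespace Pool.Agent.H11.TW

open Polynomial Finset

namespace DVDx

theorem hom_eq (f : ℤ[X]) (D : ℕ) (a b : ℤ) (h : f.natDegree ≤ D) :
    hom f D a b = b ^ (D - f.natDegree) * (f.scaleRoots b).eval a := by
  rw [eval_eq_sum_range, natDegree_scaleRoots, Finset.mul_sum]
  unfold hom
  refine sum_congr rfl fun i hi => ?_
  have hi' : i ≤ f.natDegree := Nat.lt_succ_iff.1 (mem_range.1 hi)
  rw [coeff_scaleRoots]
  have e : D - i = (D - f.natDegree) + (f.natDegree - i) := by omega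
  rw [e, pow_add]
  ring

end DVDx

theorem DVD_main : S_DVD := by
  refine ⟨?_, ?_⟩
  · rintro f g D a b ⟨h, rfl⟩ hf hD
    rw [DVDx.hom_eq _ D a b hD, DVDx.hom_eq g g.natDegree a b le_rfl, Nat.sub_self, pow_zero,
      one_mul, mul_scaleRoots_of_noZeroDivisors, eval_mul]
    exact Dvd.dvd.mul_left (Dvd.intro _ rfl) _
  · intro f D k a b hD
    unfold hom
    rw [Finset.mul_sum]
    refine sum_congr rfl fun i hi => ?_
    have hi' : i ≤ f.natDegree := Nat.lt_succ_iff.1 (mem_range.1 hi)
    have e : k ^ D = k ^ i * k ^ (D - i) := by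
      rw [← pow_add]
      congr 1
      omega
    rw [e, mul_pow, mul_pow]
    ring

end Pool.Agent.H11.TW
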