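import Pool.Agent.H11.TW.Stm

/-! TW-FACT (helper5): irreducible factors. -/

set_option autoImplicit false

namespace Pool.Agent.H11.TW.FACTx

open Polynomial Finset UniqueFactorizationMonoid Pool.Agent.H11.TW

lemma map_irr {g : ℤ[X]} (h : Irreducible g) (hd : 0 < g.natDegree) :
    g.IsPrimitive ∧ Irreducible (g.map (Int.castRingHom ℚ)) := by
  have h1 : g.IsPrimitive := h.isPrimitive hd.ne'
  exact ⟨h1, (IsPrimitive.Int.irreducible_iff_irreducible_map_cast h1).1 h⟩

lemma exists_fac (f : ℤ[X]) (hsq : Squarefree (f.map (Int.castRingHom ℚ))) (hf : f ≠ 0) :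
    ∃ s : Finset ℤ[X], Fac f s ∧ ∑ g ∈ s, g.natDegree = f.natDegree := by
  classical
  set N := normalizedFactors f with hN
  set m := N.filter (fun g => 0 < g.natDegree) with hm
  have hmem : ∀ g ∈ m, g ∈ N ∧ 0 < g.natDegree := fun g hg => Multiset.mem_filter.1 hg
  have hnd : m.Nodup := by
    rw [Multiset.nodup_iff_count_le_one]
    intro g
    by_contra hcon
    push Not at hcon
    have h1 : Multiset.replicate 2 g ≤ m := Multiset.le_count_iff_replicate_le.1 hcon
    have hg : g ∈ m := Multiset.count_pos.1 (by omega)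
    have h2 : Multiset.replicate 2 g ≤ N := h1.trans (Multiset.filter_le _ _)
    have h3 : g ^ 2 ∣ f := by
      have h4 := Multiset.prod_dvd_prod_of_le h2
      rw [Multiset.prod_replicate] at h4
      exact h4.trans (prod_normalizedFactors hf).dvd
    have h5 : (g.map (Int.castRingHom ℚ)) * (g.map (Int.castRingHom ℚ)) ∣
        f.map (Int.castRingHom ℚ) := by
      rw [← Polynomial.map_mul, ← sq]
      exact Polynomial.map_dvd _ h3
    have h6 := hsq _ h5
    exact (map_irr (irreducible_of_normalized_factor g (hmem g hg).1) (hmem g hg).2).2.not_isUnit h6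
  refine ⟨m.toFinset, ⟨fun g hg => ?_, fun g hg h hh hne => ?_⟩, ?_⟩
  · rw [Multiset.mem_toFinset] at hg
    exact ⟨irreducible_of_normalized_factor g (hmem g hg).1, (hmem g hg).2,
      dvd_of_mem_normalizedFactors (hmem g hg).1⟩
  · rw [Multiset.mem_toFinset] at hg hh
    obtain ⟨pg, ig⟩ := map_irr (irreducible_of_normalized_factor g (hmem g hg).1) (hmem g hg).2
    obtain ⟨ph, ih⟩ := map_irr (irreducible_of_normalized_factor h (hmem h hh).1) (hmem h hh).2
    by_cases h1 : g.map (Int.castRingHom ℚ) ∣ h.map (Int.castRingHom ℚ)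
    swap
    · exact ig.coprime_iff_not_dvd.2 h1
    · exfalso
      have h2 : g ∣ h := (IsPrimitive.Int.dvd_iff_map_cast_dvd_map_cast g h pg).2 h1
      have h3 : h ∣ g := (IsPrimitive.Int.dvd_iff_map_cast_dvd_map_cast h g ph).2
        ((ig.dvd_symm ih) h1)
      have h4 : Associated g h := associated_of_dvd_dvd h2 h3
      have h5 := normalize_eq_normalize_iff_associated.2 h4
      rw [normalize_normalized_factor g (hmem g hg).1, normalize_normalized_factor h (hmem h hh).1] at h5
      exact hne h5
  · have h1 : ∑ g ∈ m.toFinset, g.natDegree = (m.map natDegree).sum := by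
      rw [Finset.sum_multiset_map_count]
      refine Finset.sum_congr rfl fun g hg => ?_
      rw [Multiset.count_eq_one_of_mem hnd (Multiset.mem_toFinset.1 hg)]
      simp
    have h2 : (N.map natDegree).sum = f.natDegree := by
      rw [← Polynomial.natDegree_multiset_prod N (zero_notMem_normalizedFactors f)]
      exact Polynomial.natDegree_eq_of_degree_eq
        (Polynomial.degree_eq_degree_of_associated (prod_normalizedFactors hf))
    have h3 : (N.map natDegree).sum = (m.map natDegree).sum := by
      have h4 := Multiset.filter_add_not (fun g : ℤ[X] => 0 < g.natDegree) N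
      conv_lhs => rw [← h4]
      rw [Multiset.map_add, Multiset.sum_add]
      have h5 : ((N.filter (fun g : ℤ[X] => ¬ 0 < g.natDegree)).map natDegree).sum = 0 := by
        apply Multiset.sum_eq_zero
        intro x hx
        obtain ⟨g, hg, rfl⟩ := Multiset.mem_map.1 hx
        have := (Multiset.mem_filter.1 hg).2
        omega
      rw [h5, add_zero]
    rw [h1, ← h3, h2]

end Pool.Agent.H11.TW.FACTx

namespace Pool.Agent.H11.TW

open Polynomial Finset

theorem FACT_main : S_FACT := by
  intro f hsq h5 hor
  have hf : f ≠ 0 := by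
    rintro rfl
    simp at h5
  obtain ⟨s, hs, hsum⟩ := FACTx.exists_fac f hsq hf
  have hdg : dg f - f.natDegree = if Odd f.natDegree then 1 else 0 := by
    unfold dg
    split_ifs with h
    · obtain ⟨k, hk⟩ := h
      omega
    · rw [Nat.not_odd_iff_even] at h
      obtain ⟨k, hk⟩ := h
      omega
  -- either some factor has degree at least two or there are at least five factors
  have hA : (∃ g ∈ s, 2 ≤ g.natDegree) ∨ 5 ≤ s.card := by
    by_contra hcon
    push Not at hcon
    have h1 : ∑ g ∈ s, g.natDegree ≤ ∑ g ∈ s, 1 := Finset.sum_le_sum fun g hg => by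
      have := hcon.1 g hg
      omega
    rw [hsum] at h1
    simp only [Finset.sum_const, smul_eq_mul, mul_one] at h1
    have := hcon.2
    omega
  have hne : s.Nonempty := by
    rw [Finset.nonempty_iff_ne_empty]
    rintro rfl
    simp at hsum
    omega
  have h1s : 1 ≤ s.card := hne.card_pos
  refine ⟨s, hs, ?_, hA.imp id (fun h => by omega)⟩
  by_cases ho : Odd f.natDegree
  · rw [hdg, if_pos ho]
    omega
  · have hir := hor.resolve_left ho
    by_contra hcon
    have hc1 : s.card = 1 := by omega
    obtain ⟨g, rfl⟩ := Finset.card_eq_one.1 hc1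
    rw [Finset.sum_singleton] at hsum
    obtain ⟨ig, dg0, h, hh⟩ := hs.1 g (Finset.mem_singleton_self g)
    have hg0 : g ≠ 0 := ig.ne_zero
    have hh0 : h ≠ 0 := by
      rintro rfl
      exact hf (by rw [hh, mul_zero])
    have hdeg : f.natDegree = g.natDegree + h.natDegree := by
      conv_lhs => rw [hh]
      exact Polynomial.natDegree_mul hg0 hh0
    have hh1 : h.natDegree = 0 := by omega
    obtain ⟨c, hc⟩ := Polynomial.natDegree_eq_zero.1 hh1
    have hc0 : c ≠ 0 := by
      rintro rfl
      exact hh0 (by rw [← hc, C_0])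
    apply hir
    have hm : f.map (Int.castRingHom ℚ) = g.map (Int.castRingHom ℚ) * C (c : ℚ) := by
      rw [hh, ← hc, Polynomial.map_mul, Polynomial.map_C]
      rfl
    have hu : IsUnit (C (c : ℚ)) := by
      rw [Polynomial.isUnit_C]
      exact (by exact_mod_cast hc0 : (c : ℚ) ≠ 0).isUnit
    have hass : Associated (g.map (Int.castRingHom ℚ)) (f.map (Int.castRingHom ℚ)) := by
      rw [hm]
      exact (associated_mul_unit_right _ _ hu)
    exact hass.irreducible (FACTx.map_irr ig dg0).2

end Pool.Agent.H11.TW
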