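import Pool.Agent.H11.TW.Stm

/-! # Project TW: from `T` to `B` (FIN) -/

set_option autoImplicit false

namespace Pool.Agent.H11.TW

open Polynomial Finset Filter Topology

namespace FINx

theorem tw_finite (f : ℤ[X]) (B : ℝ) : (Tw f B).Finite := by
  refine Set.Finite.subset (Set.finite_Icc (-⌈B⌉) ⌈B⌉) ?_
  rintro d ⟨_, h, _⟩
  rw [abs_lt] at h
  have h1 : B ≤ (⌈B⌉ : ℝ) := Int.le_ceil B
  constructor
  · have : ((-⌈B⌉ : ℤ) : ℝ) ≤ (d : ℝ) := by push_cast; linarith [h.1]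
    exact_mod_cast this
  · have : (d : ℝ) ≤ ((⌈B⌉ : ℤ) : ℝ) := by linarith [h.2]
    exact_mod_cast this

theorem tw_mono (f : ℤ[X]) {A B : ℝ} (h : A ≤ B) : ((Tw f A).ncard : ℝ) ≤ ((Tw f B).ncard : ℝ) := by
  have : (Tw f A).ncard ≤ (Tw f B).ncard := by
    refine Set.ncard_le_ncard ?_ (tw_finite f B)
    rintro d ⟨h1, h2, h3⟩
    exact ⟨h1, lt_of_lt_of_le h2 h, h3⟩
  exact_mod_cast this

end FINx

open FINx in
theorem FIN_main : S_FIN := by
  intro f c' C hn hc' hC h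
  set e : ℝ := (1 : ℝ) / (((f.natDegree - 1) / 2 : ℕ) + 1) with he
  have hm : (0 : ℝ) < ((((f.natDegree - 1) / 2 : ℕ) : ℝ) + 1) := by positivity
  have he0 : 0 < e := by positivity
  have hD : ((dg f : ℕ) : ℝ) = 2 * ((((f.natDegree - 1) / 2 : ℕ) : ℝ) + 1) := by
    have : dg f = 2 * ((f.natDegree - 1) / 2 + 1) := by
      unfold dg
      omega
    rw [this]
    push_cast
    ring
  have heD : e / 2 * ((dg f : ℕ) : ℝ) = 1 := by
    rw [hD, he]
    field_simp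
  have hα : Tendsto (fun B : ℝ => (B / C) ^ (e / 2)) atTop atTop :=
    (tendsto_rpow_atTop (by positivity)).comp (tendsto_id.atTop_div_const hC)
  have hT : Tendsto (fun B : ℝ => ⌊(B / C) ^ (e / 2)⌋₊) atTop atTop := tendsto_nat_floor_atTop.comp hα
  have hCe : 0 < C ^ e := Real.rpow_pos_of_pos hC _
  refine ⟨c' / 4 / C ^ e, by positivity, ?_⟩
  filter_upwards [hT.eventually h, hα.eventually_ge_atTop 2, eventually_gt_atTop (0 : ℝ)] with B h1 h2 hB
  have hBC : 0 < B / C := by positivity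
  set α : ℝ := (B / C) ^ (e / 2) with hαd
  set T : ℕ := ⌊α⌋₊ with hTd
  have hα0 : 0 < α := Real.rpow_pos_of_pos hBC _
  have hT1 : (T : ℝ) ≤ α := Nat.floor_le hα0.le
  have hT2 : α < T + 1 := Nat.lt_floor_add_one α
  have hpow : α ^ (dg f) = B / C := by
    rw [hαd, ← Real.rpow_natCast, ← Real.rpow_mul hBC.le, heD, Real.rpow_one]
  have h3 : C * (T : ℝ) ^ (dg f) ≤ B := by
    have : (T : ℝ) ^ (dg f) ≤ B / C := by
      rw [← hpow]
      exact pow_le_pow_left₀ (Nat.cast_nonneg _) hT1 _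
    rw [le_div_iff₀ hC] at this
    linarith
  have h4 : α ^ 2 = B ^ e / C ^ e := by
    rw [hαd, ← Real.rpow_natCast, ← Real.rpow_mul hBC.le]
    have : e / 2 * ((2 : ℕ) : ℝ) = e := by push_cast; ring
    rw [this, Real.div_rpow hB.le hC.le]
  have h5 : α / 2 ≤ T := by linarith
  have h6 : (α / 2) ^ 2 ≤ (T : ℝ) ^ 2 := pow_le_pow_left₀ (by positivity) h5 2
  calc c' / 4 / C ^ e * B ^ e = c' * (α / 2) ^ 2 := by
        rw [div_pow, h4]
        field_simp
        norm_num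
    _ ≤ c' * (T : ℝ) ^ 2 := by gcongr
    _ ≤ ((Tw f (C * (T : ℝ) ^ (dg f))).ncard : ℝ) := h1
    _ ≤ ((Tw f B).ncard : ℝ) := tw_mono f h3

end Pool.Agent.H11.TW
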