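import Pool.Agent.H11.TW.Stm

set_option autoImplicit false

/-! # TW-FM: the first moment (helper83) -/

namespace Pool.Agent.H11.TW

open Polynomial Finset Filter Topology

namespace FMx

/-- exchange of the sums -/
lemma swap (f : ℤ[X]) (D : ℕ) (y z : ℝ) (s : Finset (ℤ × ℤ)) :
    ∑ v ∈ s, wt f D y z v = ∑ p ∈ pr y z,
      Real.log p * ((s.filter (fun v => (p : ℤ) ∣ hom f D v.1 v.2)).card : ℝ) := by
  unfold wt
  simp only [Finset.sum_filter]
  rw [Finset.sum_comm]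
  refine Finset.sum_congr rfl fun p _ => ?_
  rw [← Finset.sum_filter, Finset.sum_const, nsmul_eq_mul, mul_comm]

lemma mem_pr {y z : ℝ} {p : ℕ} (hz : 0 ≤ z) :
    p ∈ pr y z ↔ p.Prime ∧ y < p ∧ (p : ℝ) ≤ z := by
  unfold pr
  rw [Finset.mem_filter, Finset.mem_range, Nat.lt_succ_iff, Nat.le_floor_iff hz]
  tauto

lemma rt_X {p : ℕ} (hp : p.Prime) : rt X p = 1 := by
  unfold rt
  rw [Finset.card_eq_one]
  refine ⟨0, ?_⟩
  ext a
  simp only [Finset.mem_filter, Finset.mem_range, Finset.mem_singleton, eval_X]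
  constructor
  · rintro ⟨h1, h2⟩
    have := Int.natCast_dvd_natCast.1 h2
    exact Nat.eq_zero_of_dvd_of_lt this h1
  · rintro rfl
    exact ⟨hp.pos, by simp⟩

end FMx

open FMx in
theorem FM_main (h1 : S_LOC) (h2 : S_MERV) (h3 : S_RHO) : S_FM := by
  intro f s D hf hs hD ε hε hε1
  obtain ⟨B, hB⟩ := h3 f s hs
  have hM : ∀ g ∈ s, ∀ᶠ T : ℕ in atTop,
      |∑ p ∈ pr ((T : ℝ) ^ ε) ((T : ℝ) ^ (1 - ε)), (rt g p : ℝ) * Real.log p / p -
        ((1 - ε) - ε) * Real.log T| ≤ ε / 2 * Real.log T :=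
    fun g hg => h2 g (hs.1 g hg).1 (hs.1 g hg).2.1 ε (1 - ε) (ε / 2) hε (by linarith) (by linarith)
  have hMs : ∀ᶠ T : ℕ in atTop, ∀ g ∈ s,
      |∑ p ∈ pr ((T : ℝ) ^ ε) ((T : ℝ) ^ (1 - ε)), (rt g p : ℝ) * Real.log p / p -
        ((1 - ε) - ε) * Real.log T| ≤ ε / 2 * Real.log T := (Filter.eventually_all_finset s).2 hM
  have hX := h2 X prime_X.irreducible (by simp) ε (1 - ε) (ε / 2) hε (by linarith) (by linarith)
  have hlim : Tendsto (fun T : ℕ => (T : ℝ) ^ ε) atTop atTop :=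
    (tendsto_rpow_atTop hε).comp tendsto_natCast_atTop_atTop
  filter_upwards [hMs, hX, hlim.eventually_gt_atTop (max (B : ℝ) (4 / ε)), eventually_ge_atTop 1]
    with T hTs hTX hTB hT1
  have hTR : (1 : ℝ) ≤ T := by exact_mod_cast hT1
  have hT0 : (0 : ℝ) < T := by linarith
  obtain ⟨w, hw⟩ : ∃ w, w = (T : ℝ) ^ ε := ⟨_, rfl⟩
  have hTw : (T : ℝ) ^ (1 - ε) = T / w := by rw [Real.rpow_sub hT0, Real.rpow_one, hw]
  rw [← hw, hTw] at hTX
  simp only [← hw, hTw] at hTs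
  rw [← hw] at hTB
  rw [← hw, hTw, swap]
  have hwB : (B : ℝ) < w := (le_max_left _ _).trans_lt hTB
  have hwε : 4 / ε < w := (le_max_right _ _).trans_lt hTB
  have hw0 : 0 < w := lt_trans (by positivity) hwε
  have hwε' : 4 < w * ε := by rwa [div_lt_iff₀ hε] at hwε
  have hw40 : 40 ≤ w := by nlinarith
  obtain ⟨P, hP⟩ : ∃ P, P = pr w ((T : ℝ) / w) := ⟨_, rfl⟩
  rw [← hP] at hTX ⊢
  simp only [← hP] at hTs
  have hmem : ∀ p ∈ P, p.Prime ∧ w < p ∧ (p : ℝ) ≤ T / w := by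
    intro p hp
    rw [hP, mem_pr (by positivity)] at hp
    exact hp
  have hlogT : 0 ≤ Real.log T := Real.log_nonneg hTR
  obtain ⟨e, he⟩ : ∃ e : ℝ, e = (D : ℝ) - f.natDegree := ⟨_, rfl⟩
  have he0 : 0 ≤ e := by
    rw [he]
    rcases hD with h | h
    · rw [h]; simp
    · rw [h]; push_cast; linarith
  have h2w : 2 / w ≤ ε / 2 := by
    rw [div_le_div_iff₀ hw0 (by norm_num)]
    linarith
  have h2w0 : 0 ≤ 1 - 2 / w := by linarith
  have hterm : ∀ p ∈ P, (1 - 2 / w) * (4 * (T : ℝ) ^ 2) *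
      (((∑ g ∈ s, (rt g p : ℝ)) + e) * (Real.log p / p)) ≤
      Real.log p * (((bx T).filter (fun v => (p : ℤ) ∣ hom f D v.1 v.2)).card : ℝ) := by
    intro p hp
    obtain ⟨hpp, hp1, hp2⟩ := hmem p hp
    have hp0 : (0 : ℝ) < p := by exact_mod_cast hpp.pos
    have hpT : (p : ℝ) ≤ T := by
      refine hp2.trans ?_
      rw [div_le_iff₀ hw0]
      nlinarith
    have hloc := h1 f D p T hpp (by exact_mod_cast hpT) hD
    rw [← he] at hloc
    have hrho := hB p hpp (by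
      have : (B : ℝ) < p := hwB.trans hp1
      exact_mod_cast this)
    have hrho' : ∑ g ∈ s, (rt g p : ℝ) ≤ rt f p := by exact_mod_cast hrho
    have hlp : 0 ≤ Real.log p := Real.log_nonneg (by exact_mod_cast hpp.one_lt.le)
    have h5 : 1 - 2 / w ≤ 1 - 1 / p - p / T := by
      have h6 : 1 / (p : ℝ) ≤ 1 / w := one_div_le_one_div_of_le hw0 hp1.le
      have h7 : (p : ℝ) / T ≤ 1 / w := by
        rw [div_le_div_iff₀ hT0 hw0]
        rw [le_div_iff₀ hw0] at hp2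
        linarith
      have h8 : 2 / w = 1 / w + 1 / w := by ring
      linarith
    have hs0 : 0 ≤ ∑ g ∈ s, (rt g p : ℝ) := Finset.sum_nonneg fun _ _ => by positivity
    calc (1 - 2 / w) * (4 * (T : ℝ) ^ 2) * (((∑ g ∈ s, (rt g p : ℝ)) + e) * (Real.log p / p))
        = Real.log p * ((((∑ g ∈ s, (rt g p : ℝ)) + e) * (4 * (T : ℝ) ^ 2 / p)) * (1 - 2 / w)) := by
          ring
      _ ≤ Real.log p * ((((rt f p : ℝ) + e) * (4 * (T : ℝ) ^ 2 / p)) * (1 - 1 / p - p / T)) := by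
          apply mul_le_mul_of_nonneg_left _ hlp
          apply mul_le_mul _ h5 h2w0 (by positivity)
          apply mul_le_mul_of_nonneg_right _ (by positivity)
          linarith
      _ ≤ _ := mul_le_mul_of_nonneg_left hloc hlp
  have hsum : (1 - 2 / w) * (4 * (T : ℝ) ^ 2) *
      ∑ p ∈ P, (((∑ g ∈ s, (rt g p : ℝ)) + e) * (Real.log p / p)) ≤
      ∑ p ∈ P, Real.log p *
        (((bx T).filter (fun v => (p : ℤ) ∣ hom f D v.1 v.2)).card : ℝ) := by
    rw [Finset.mul_sum]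
    exact Finset.sum_le_sum hterm
  have hsplit : ∑ p ∈ P, (((∑ g ∈ s, (rt g p : ℝ)) + e) * (Real.log p / p)) =
      ∑ g ∈ s, (∑ p ∈ P, (rt g p : ℝ) * Real.log p / p) +
        e * ∑ p ∈ P, (rt X p : ℝ) * Real.log p / p := by
    rw [Finset.sum_comm, Finset.mul_sum, ← Finset.sum_add_distrib]
    refine Finset.sum_congr rfl fun p hp => ?_
    rw [rt_X (hmem p hp).1, add_mul, Finset.sum_mul]
    push_cast
    congr 1
    · exact Finset.sum_congr rfl fun g _ => by ring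
    · ring
  have hg : ∀ g ∈ s, (1 - 5 / 2 * ε) * Real.log T ≤ ∑ p ∈ P, (rt g p : ℝ) * Real.log p / p := by
    intro g hg
    have := (abs_le.1 (hTs g hg)).1
    linarith
  have hgX : (1 - 5 / 2 * ε) * Real.log T ≤ ∑ p ∈ P, (rt X p : ℝ) * Real.log p / p := by
    have := (abs_le.1 hTX).1
    linarith
  have hlow : ((s.card : ℝ) + e) * ((1 - 5 / 2 * ε) * Real.log T) ≤
      ∑ p ∈ P, (((∑ g ∈ s, (rt g p : ℝ)) + e) * (Real.log p / p)) := by
    rw [hsplit, add_mul]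
    refine add_le_add ?_ (mul_le_mul_of_nonneg_left hgX he0)
    rw [← nsmul_eq_mul]
    exact Finset.card_nsmul_le_sum _ _ _ hg
  refine le_trans ?_ ((mul_le_mul_of_nonneg_left hlow (by positivity)).trans hsum)
  rw [← he]
  have hc0 : 0 ≤ (s.card : ℝ) + e := by positivity
  have hfin : 1 - 3 * ε ≤ (1 - 2 / w) * (1 - 5 / 2 * ε) := by
    have h5 : 0 ≤ 1 - 5 / 2 * ε := by linarith
    have h6 := mul_le_mul_of_nonneg_right h2w h5
    nlinarith
  calc 4 * (T : ℝ) ^ 2 * Real.log T * (((s.card : ℝ) + e) * (1 - 3 * ε))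
      = (4 * (T : ℝ) ^ 2 * Real.log T * ((s.card : ℝ) + e)) * (1 - 3 * ε) := by ring
    _ ≤ (4 * (T : ℝ) ^ 2 * Real.log T * ((s.card : ℝ) + e)) * ((1 - 2 / w) * (1 - 5 / 2 * ε)) :=
        mul_le_mul_of_nonneg_left hfin (by positivity)
    _ = (1 - 2 / w) * (4 * (T : ℝ) ^ 2) * (((s.card : ℝ) + e) * ((1 - 5 / 2 * ε) * Real.log T)) := by
        ring

end Pool.Agent.H11.TW
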