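import Pool.Agent.H11.TW.Stm

/-! # TW-GCD -/

set_option autoImplicit false

open Polynomial Finset Filter Topology

namespace Pool.Agent.H11.TW.GCDx

/-- multiples of `k` in the interval -/
noncomputable def mu (k T : ℕ) : Finset ℤ := (Icc (-(T : ℤ)) T).filter (fun a => (k : ℤ) ∣ a)

lemma mu_card {k T : ℕ} (hk : 0 < k) (hkT : k ≤ T) : ((mu k T).card : ℝ) ≤ 3 * T / k := by
  have h1 : mu k T ⊆ (Icc (-((T / k : ℕ) : ℤ)) ((T / k : ℕ) : ℤ)).image (fun m => (k : ℤ) * m) := by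
    intro a ha
    unfold mu at ha
    rw [Finset.mem_filter, Finset.mem_Icc] at ha
    obtain ⟨⟨ha1, ha2⟩, c, rfl⟩ := ha
    rw [Finset.mem_image]
    refine ⟨c, ?_, rfl⟩
    rw [Finset.mem_Icc]
    have hk' : (0 : ℤ) < k := by exact_mod_cast hk
    push_cast
    constructor
    · have h2 : -c ≤ (T : ℤ) / k := Int.le_ediv_of_mul_le hk' (by linarith)
      linarith
    · exact Int.le_ediv_of_mul_le hk' (by linarith)
  have h2 : (mu k T).card ≤ 2 * (T / k) + 1 := by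
    refine (Finset.card_le_card h1).trans (Finset.card_image_le.trans ?_)
    rw [Int.card_Icc]
    omega
  have h3 : ((mu k T).card : ℝ) ≤ 2 * ((T / k : ℕ) : ℝ) + 1 := by exact_mod_cast h2
  have h4 : ((T / k : ℕ) : ℝ) ≤ (T : ℝ) / k := Nat.cast_div_le
  have hk0 : (0 : ℝ) < k := by exact_mod_cast hk
  have h5 : 1 ≤ (T : ℝ) / k := by
    rw [le_div_iff₀ hk0, one_mul]
    exact_mod_cast hkT
  have h6 : 3 * (T : ℝ) / k = 3 * ((T : ℝ) / k) := by ring
  rw [h6]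
  linarith

end Pool.Agent.H11.TW.GCDx

namespace Pool.Agent.H11.TW

open GCDx in
theorem GCD_main : S_GCD := by
  classical
  intro E T hE
  have hE0 : (0 : ℝ) < E := by exact_mod_cast hE
  have hsub : (bx T).filter (fun v => E < gc v) ⊆ (Finset.Ioc E T).biUnion (fun k => mu k T ×ˢ mu k T) := by
    rintro ⟨a, b⟩ hv
    unfold bx at hv
    simp only [Finset.mem_filter, Finset.mem_product, Finset.mem_Icc] at hv
    obtain ⟨⟨⟨⟨a1, a2⟩, ⟨b1, b2⟩⟩, hb⟩, hg⟩ := hv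
    have h1 : (gc (a, b) : ℤ) ∣ a := Int.gcd_dvd_left ..
    have h2 : (gc (a, b) : ℤ) ∣ b := Int.gcd_dvd_right ..
    have h3 : gc (a, b) ≤ T := by
      have h4 := Int.natAbs_dvd_natAbs.2 h2
      rw [Int.natAbs_natCast] at h4
      have h5 := Nat.le_of_dvd (Int.natAbs_pos.2 hb) h4
      omega
    rw [Finset.mem_biUnion]
    refine ⟨gc (a, b), Finset.mem_Ioc.2 ⟨hg, h3⟩, ?_⟩
    unfold mu
    simp only [Finset.mem_product, Finset.mem_filter, Finset.mem_Icc]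
    exact ⟨⟨⟨a1, a2⟩, h1⟩, ⟨⟨b1, b2⟩, h2⟩⟩
  have h1 : ((((bx T).filter (fun v => E < gc v)).card : ℕ) : ℝ) ≤
      ∑ k ∈ Finset.Ioc E T, (9 * (T : ℝ) ^ 2) * (((k : ℝ) ^ 2)⁻¹) := by
    have h2 := (Finset.card_le_card hsub).trans Finset.card_biUnion_le
    have h3 : ((((bx T).filter (fun v => E < gc v)).card : ℕ) : ℝ) ≤
        ∑ k ∈ Finset.Ioc E T, (((mu k T ×ˢ mu k T).card : ℕ) : ℝ) := by exact_mod_cast h2
    refine h3.trans (Finset.sum_le_sum fun k hk => ?_)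
    rw [Finset.mem_Ioc] at hk
    have hk0 : 0 < k := by omega
    have hk1 : (0 : ℝ) < k := by exact_mod_cast hk0
    rw [Finset.card_product]
    push_cast
    have h4 := mu_card hk0 hk.2
    have h5 : (0 : ℝ) ≤ ((mu k T).card : ℝ) := Nat.cast_nonneg _
    calc ((mu k T).card : ℝ) * ((mu k T).card : ℝ) ≤ (3 * T / k) * (3 * T / k) :=
          mul_le_mul h4 h4 h5 (h5.trans h4)
      _ = 9 * (T : ℝ) ^ 2 * ((k : ℝ) ^ 2)⁻¹ := by
          field_simp
          ring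
  refine h1.trans ?_
  rw [← Finset.mul_sum, mul_div_assoc]
  rcases Nat.le_total E T with h | h
  · have h2 := sum_Ioc_inv_sq_le_sub (α := ℝ) (k := E) (n := T) (by omega) h
    have h3 : ∑ k ∈ Finset.Ioc E T, ((k : ℝ) ^ 2)⁻¹ ≤ (E : ℝ)⁻¹ := by
      have : (0 : ℝ) ≤ (T : ℝ)⁻¹ := by positivity
      linarith
    calc 9 * (T : ℝ) ^ 2 * ∑ k ∈ Finset.Ioc E T, ((k : ℝ) ^ 2)⁻¹ ≤ 9 * (T : ℝ) ^ 2 * (E : ℝ)⁻¹ :=
          mul_le_mul_of_nonneg_left h3 (by positivity)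
      _ = 9 * ((T : ℝ) ^ 2 / E) := by ring
  · rw [Finset.Ioc_eq_empty (by omega), Finset.sum_empty, mul_zero]
    positivity

end Pool.Agent.H11.TW
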