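import Pool.Agent.H11.TW.Stm

/-! TW-HB: the size of the form. -/

set_option autoImplicit false

namespace Pool.Agent.H11.TW

open Polynomial Finset Filter Topology

theorem HB_main : S_HB := by
  intro f D hD
  refine ⟨1 + ∑ i ∈ range (f.natDegree + 1), |(f.coeff i : ℝ)|, ?_, ?_⟩
  · have : 0 ≤ ∑ i ∈ range (f.natDegree + 1), |(f.coeff i : ℝ)| := Finset.sum_nonneg fun _ _ => abs_nonneg _
    linarith
  · intro T v hT h1 h2
    have hT' : (1 : ℝ) ≤ T := by exact_mod_cast hT
    have g1 : |(v.1 : ℝ)| ≤ T := by exact_mod_cast h1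
    have g2 : |(v.2 : ℝ)| ≤ T := by exact_mod_cast h2
    unfold hom
    push_cast
    refine (Finset.abs_sum_le_sum_abs _ _).trans ?_
    have h3 : ∑ i ∈ range (f.natDegree + 1), |(f.coeff i : ℝ) * (v.1 : ℝ) ^ i * (v.2 : ℝ) ^ (D - i)| ≤
        ∑ i ∈ range (f.natDegree + 1), |(f.coeff i : ℝ)| * (T : ℝ) ^ D := by
      refine Finset.sum_le_sum fun i hi => ?_
      rw [Finset.mem_range] at hi
      rw [abs_mul, abs_mul, abs_pow, abs_pow, mul_assoc]
      refine mul_le_mul_of_nonneg_left ?_ (abs_nonneg _)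
      have e : (T : ℝ) ^ D = (T : ℝ) ^ i * (T : ℝ) ^ (D - i) := by rw [← pow_add]; congr 1; omega
      rw [e]
      exact mul_le_mul (pow_le_pow_left₀ (abs_nonneg _) g1 _) (pow_le_pow_left₀ (abs_nonneg _) g2 _)
        (by positivity) (by positivity)
    rw [← Finset.sum_mul] at h3
    have h4 : (0 : ℝ) ≤ (T : ℝ) ^ D := by positivity
    nlinarith

end Pool.Agent.H11.TW
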