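import Pool.Agent.H11.TW.Stm

set_option autoImplicit false

open Polynomial Finset Filter Topology

namespace Pool.Agent.H11.TW.HENx

/-- Bezout over `ℚ` with denominators cleared. -/
theorem bezout (f : ℤ[X]) (hf : Squarefree (f.map (Int.castRingHom ℚ))) :
    ∃ (u w : ℤ[X]) (N : ℤ), N ≠ 0 ∧ u * f + w * derivative f = C N := by
  have hsep : (f.map (Int.castRingHom ℚ)).Separable := PerfectField.separable_iff_squarefree.2 hf
  obtain ⟨u', w', huw⟩ := hsep
  obtain ⟨b, hb⟩ := IsLocalization.integerNormalization_map_to_map (nonZeroDivisors ℤ) u'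
  obtain ⟨c, hc⟩ := IsLocalization.integerNormalization_map_to_map (nonZeroDivisors ℤ) w'
  set U := IsLocalization.integerNormalization (nonZeroDivisors ℤ) u' with hU
  set W := IsLocalization.integerNormalization (nonZeroDivisors ℤ) w' with hW
  have hbne : (b : ℤ) ≠ 0 := nonZeroDivisors.ne_zero b.2
  have hcne : (c : ℤ) ≠ 0 := nonZeroDivisors.ne_zero c.2
  refine ⟨C (c : ℤ) * U, C (b : ℤ) * W, (b : ℤ) * (c : ℤ), mul_ne_zero hbne hcne, ?_⟩
  have hinj : Function.Injective (Polynomial.map (Int.castRingHom ℚ)) :=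
    Polynomial.map_injective _ (Int.cast_injective)
  apply hinj
  have hb' : U.map (Int.castRingHom ℚ) = C ((b : ℤ) : ℚ) * u' := by
    have := hb
    rw [show (algebraMap ℤ ℚ) = Int.castRingHom ℚ from rfl] at this
    rw [this]
    ext i
    simp
  have hc' : W.map (Int.castRingHom ℚ) = C ((c : ℤ) : ℚ) * w' := by
    have := hc
    rw [show (algebraMap ℤ ℚ) = Int.castRingHom ℚ from rfl] at this
    rw [this]
    ext i
    simp
  rw [Polynomial.map_add, Polynomial.map_mul, Polynomial.map_mul, Polynomial.map_mul,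
    Polynomial.map_mul, hb', hc', Polynomial.map_C, Polynomial.map_C, Polynomial.map_C,
    ← Polynomial.derivative_map]
  rw [derivative_map] at huw
  simp only [eq_intCast, map_mul]
  rw [derivative_map]
  linear_combination (C ((b : ℤ) : ℚ) * C ((c : ℤ) : ℚ)) * huw

theorem hom_eq (f : ℤ[X]) (D : ℕ) (hD : f.natDegree ≤ D) {R : Type*} [CommRing R] (a b : ℤ) (β : R)
    (hβ : (b : R) * β = 1) :
    ((hom f D a b : ℤ) : R) = (b : R) ^ D * (f.map (Int.castRingHom R)).eval ((a : R) * β) := by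
  unfold hom
  push_cast
  rw [eval_map, eval₂_eq_sum_range, mul_sum]
  apply Finset.sum_congr rfl
  intro i hi
  have hi' : i ≤ D := by
    have := mem_range.1 hi
    omega
  have h1 : (b : R) ^ D = (b : R) ^ (D - i) * (b : R) ^ i := by
    rw [← pow_add]; congr 1; omega
  have h2 : (b : R) ^ i * β ^ i = 1 := by rw [← mul_pow, hβ, one_pow]
  rw [h1, mul_pow, eq_intCast]
  linear_combination (-(f.coeff i : R) * (a : R) ^ i * (b : R) ^ (D - i)) * h2

/-- Case `p ∤ b`, `p ∤ b'`. -/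
theorem caseA (f : ℤ[X]) (D : ℕ) (hD : f.natDegree ≤ D) (u w : ℤ[X]) (N : ℤ)
    (hN : u * f + w * derivative f = C N) (p : ℕ) (hp : p.Prime) (hpN : ¬ (p : ℤ) ∣ N)
    (a b a' b' : ℤ) (hb : ¬ (p : ℤ) ∣ b) (hb' : ¬ (p : ℤ) ∣ b')
    (h1 : (p : ℤ) ^ 2 ∣ hom f D a b) (h2 : (p : ℤ) ^ 2 ∣ hom f D a' b')
    (hd : (p : ℤ) ∣ a * b' - b * a') : (p : ℤ) ^ 2 ∣ a * b' - b * a' := by
  set m : ℕ := p ^ 2 with hm
  have hdvd : ∀ z : ℤ, (p : ℤ) ^ 2 ∣ z ↔ ((z : ℤ) : ZMod m) = 0 := by
    intro z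
    rw [ZMod.intCast_zmod_eq_zero_iff_dvd]
    simp [hm]
  have hunit : ∀ z : ℤ, ¬ (p : ℤ) ∣ z → IsUnit ((z : ℤ) : ZMod m) := by
    intro z hz
    have hpp : Prime (p : ℤ) := Nat.prime_iff_prime_int.1 hp
    have hc : IsCoprime ((p : ℤ) ^ 2) z :=
      ((Prime.coprime_iff_not_dvd hpp).2 hz).pow_left
    obtain ⟨s, t, hst⟩ := hc
    refine IsUnit.of_mul_eq_one ((t : ℤ) : ZMod m) ?_
    have h0 : (((p : ℤ) ^ 2 : ℤ) : ZMod m) = 0 := (hdvd _).1 dvd_rfl
    have h3 : ((s * (p : ℤ) ^ 2 + t * z : ℤ) : ZMod m) = 1 := by rw [hst]; simp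
    rw [Int.cast_add, Int.cast_mul, h0, mul_zero, zero_add, Int.cast_mul] at h3
    rw [mul_comm]; exact h3
  obtain ⟨β, hβ⟩ := (hunit b hb).exists_right_inv
  obtain ⟨β', hβ'⟩ := (hunit b' hb').exists_right_inv
  set F := f.map (Int.castRingHom (ZMod m)) with hF
  set x : ZMod m := (a : ZMod m) * β with hx
  set x' : ZMod m := (a' : ZMod m) * β' with hx'
  have e1 : F.eval x = 0 := by
    have := (hdvd _).1 h1
    rw [hom_eq f D hD a b β hβ] at this
    exact ((hunit b hb).pow D).mul_right_eq_zero.1 this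
  have e2 : F.eval x' = 0 := by
    have := (hdvd _).1 h2
    rw [hom_eq f D hD a' b' β' hβ'] at this
    exact ((hunit b' hb').pow D).mul_right_eq_zero.1 this
  obtain ⟨t, ht⟩ := hd
  have hy : (x - x') ^ 2 = 0 := by
    have h3 : x - x' = ((a * b' - b * a' : ℤ) : ZMod m) * (β * β') := by
      push_cast
      rw [hx, hx']
      linear_combination (-(a : ZMod m) * β) * hβ' + ((a' : ZMod m) * β') * hβ
    have h0 : (((p : ℤ) ^ 2 : ℤ) : ZMod m) = 0 := (hdvd _).1 dvd_rfl
    rw [h3, ht]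
    push_cast
    push_cast at h0
    linear_combination ((t : ZMod m) * (β * β')) ^ 2 * h0
  obtain ⟨k, hk⟩ := Polynomial.binomExpansion F x' (x - x')
  rw [add_sub_cancel, e1, e2, hy, mul_zero, zero_add, add_zero] at hk
  have hbez : (u.map (Int.castRingHom (ZMod m))).eval x' * F.eval x' +
      (w.map (Int.castRingHom (ZMod m))).eval x' * F.derivative.eval x' = (N : ZMod m) := by
    have h4 := congrArg (fun P : ℤ[X] => (P.map (Int.castRingHom (ZMod m))).eval x') hN
    simp only [Polynomial.map_add, Polynomial.map_mul, Polynomial.map_C, eval_add, eval_mul,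
      eval_C, ← derivative_map] at h4
    exact h4
  rw [e2, mul_zero, zero_add] at hbez
  have hNy : (N : ZMod m) * (x - x') = 0 := by
    rw [← hbez]
    linear_combination (-(w.map (Int.castRingHom (ZMod m))).eval x') * hk
  have hxx : x - x' = 0 := (hunit N hpN).mul_right_eq_zero.1 hNy
  rw [hdvd]
  push_cast
  have h5 : (a : ZMod m) * b' - b * a' = (b : ZMod m) * b' * (x - x') := by
    rw [hx, hx']
    linear_combination (-(a : ZMod m) * b') * hβ + ((a' : ZMod m) * b) * hβ'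
  rw [h5, hxx, mul_zero]

/-- Case `p ∣ b`: then `p² ∣ b`. -/
theorem caseB (f : ℤ[X]) (D : ℕ) (hD : D = f.natDegree ∨ D = f.natDegree + 1) (p : ℕ)
    (hp : p.Prime) (hl : ¬ (p : ℤ) ∣ f.leadingCoeff) (a b : ℤ) (hb : (p : ℤ) ∣ b)
    (ha : ¬ (p : ℤ) ∣ a) (h1 : (p : ℤ) ^ 2 ∣ hom f D a b) : (p : ℤ) ^ 2 ∣ b := by
  have hpp : Prime (p : ℤ) := Nat.prime_iff_prime_int.1 hp
  -- `G = ∑ c_i a^i b^(n-i)` is not divisible by `p`
  have hG : ¬ (p : ℤ) ∣ hom f f.natDegree a b := by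
    intro h
    unfold hom at h
    rw [Finset.sum_range_succ] at h
    have h2 : (p : ℤ) ∣ ∑ i ∈ range f.natDegree, f.coeff i * a ^ i * b ^ (f.natDegree - i) := by
      apply Finset.dvd_sum
      intro i hi
      have hi' : f.natDegree - i ≠ 0 := by
        have := mem_range.1 hi
        omega
      exact Dvd.dvd.mul_left (dvd_pow hb hi') _
    have h3 := (dvd_add_right h2).1 h
    rw [Nat.sub_self, pow_zero, mul_one] at h3
    rcases hpp.dvd_or_dvd h3 with h4 | h4
    · exact hl h4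
    · exact ha (hpp.dvd_of_dvd_pow h4)
  rcases hD with hD | hD
  · exfalso
    apply hG
    rw [← hD]
    exact (dvd_pow_self _ two_ne_zero).trans h1
  · have h2 : hom f D a b = b * hom f f.natDegree a b := by
      unfold hom
      rw [mul_sum]
      apply Finset.sum_congr rfl
      intro i hi
      have hi' : D - i = (f.natDegree - i) + 1 := by
        have := mem_range.1 hi
        omega
      rw [hi', pow_succ]; ring
    rw [h2] at h1
    have hc : IsCoprime ((p : ℤ) ^ 2) (hom f f.natDegree a b) :=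
      ((Prime.coprime_iff_not_dvd hpp).2 hG).pow_left
    exact hc.dvd_of_dvd_mul_right h1

end Pool.Agent.H11.TW.HENx

open Pool.Agent.H11.TW.HENx in
theorem Pool.Agent.H11.TW.HEN_main (h : Pool.Agent.H11.TW.S_RTB) : Pool.Agent.H11.TW.S_HEN := by
  intro f D hf hD
  have hf0 : f ≠ 0 := by
    rintro rfl
    rw [Polynomial.map_zero] at hf
    exact not_squarefree_zero hf
  obtain ⟨u, w, N, hN0, hN⟩ := bezout f hf
  obtain ⟨B, hB⟩ := h f hf0
  refine ⟨max B N.natAbs, ?_⟩
  intro p hp hpB v v' hv hv' h1 h2 hd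
  have hpp : Prime (p : ℤ) := Nat.prime_iff_prime_int.1 hp
  have hl := (hB p hp (lt_of_le_of_lt (le_max_left _ _) hpB)).2
  have hpN : ¬ (p : ℤ) ∣ N := by
    intro hdv
    have := Int.natAbs_dvd_natAbs.2 hdv
    rw [Int.natAbs_natCast] at this
    have h3 := Nat.le_of_dvd (Int.natAbs_pos.2 hN0) this
    have h4 := lt_of_le_of_lt (le_max_right _ _) hpB
    omega
  have hcop : ∀ v : ℤ × ℤ, gc v = 1 → ¬ ((p : ℤ) ∣ v.1 ∧ (p : ℤ) ∣ v.2) := by
    intro v hv hh
    have h5 : (p : ℤ) ∣ (Int.gcd v.1 v.2 : ℤ) := Int.dvd_coe_gcd hh.1 hh.2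
    have h6 : Int.gcd v.1 v.2 = 1 := hv
    rw [h6] at h5
    exact hpp.not_unit (isUnit_of_dvd_one (by simpa using h5))
  unfold det at hd ⊢
  by_cases hb : (p : ℤ) ∣ v.2
  · have ha : ¬ (p : ℤ) ∣ v.1 := fun h => hcop v hv ⟨h, hb⟩
    have hb' : (p : ℤ) ∣ v'.2 := by
      have h3 : (p : ℤ) ∣ v.1 * v'.2 := by
        have := dvd_add hd (hb.mul_right v'.1)
        rwa [sub_add_cancel] at this
      exact (hpp.dvd_or_dvd h3).resolve_left ha
    have ha' : ¬ (p : ℤ) ∣ v'.1 := fun h => hcop v' hv' ⟨h, hb'⟩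
    have g1 := caseB f D hD p hp hl v.1 v.2 hb ha h1
    have g2 := caseB f D hD p hp hl v'.1 v'.2 hb' ha' h2
    exact dvd_sub (g2.mul_left _) (g1.mul_right _)
  · have hb' : ¬ (p : ℤ) ∣ v'.2 := by
      intro hb'
      have h3 : (p : ℤ) ∣ v.2 * v'.1 := by
        have := dvd_sub (hb'.mul_left v.1) hd
        rwa [sub_sub_cancel] at this
      have h4 := (hpp.dvd_or_dvd h3).resolve_left hb
      exact hcop v' hv' ⟨h4, hb'⟩
    have hDle : f.natDegree ≤ D := by omega
    exact caseA f D hDle u w N hN p hp hpN v.1 v.2 v'.1 v'.2 hb hb' h1 h2 hd
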