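import Pool.Agent.H11.TW.Stm

/-!
# Primitive points of a lattice in a box
-/

set_option autoImplicit false

namespace Pool.Agent.H11.TW

namespace LATx

open Finset

lemma mult {a b x y : ℤ} (h : Int.gcd a b = 1) (e : a * y - b * x = 0) : ∃ s : ℤ, x = s * a ∧ y = s * b := by
  have hc : IsCoprime a b := Int.isCoprime_iff_gcd_eq_one.2 h
  obtain ⟨u, w, huw⟩ := hc
  refine ⟨u * x + w * y, ?_, ?_⟩
  · linear_combination (-x) * huw + (-w) * e
  · linear_combination (-y) * huw + (u) * e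

end LATx

open LATx in
theorem LAT_main : S_LAT := by
  intro q T R hq hR hdet
  classical
  rcases R.eq_empty_or_nonempty with rfl | hne
  · simp only [Finset.card_empty, Nat.cast_zero]; positivity
  obtain ⟨v₁, hv₁, hmax⟩ := Finset.exists_max_image R (fun v => max v.1.natAbs v.2.natAbs) hne
  obtain ⟨M, hM⟩ : ∃ M, M = max v₁.1.natAbs v₁.2.natAbs := ⟨_, rfl⟩
  obtain ⟨g1, b1, b2⟩ := hR v₁ hv₁
  have hMT : M ≤ T := by
    rw [hM]
    rw [Int.abs_eq_natAbs] at b1 b2
    exact max_le (by exact_mod_cast b1) (by exact_mod_cast b2)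
  have hb : ∀ v ∈ R, |v.1| ≤ (M : ℤ) ∧ |v.2| ≤ (M : ℤ) := by
    intro v hv
    have h : max v.1.natAbs v.2.natAbs ≤ M := by
      rw [hM]; exact hmax v hv
    have h1 : v.1.natAbs ≤ M := (le_max_left _ _).trans h
    have h2 : v.2.natAbs ≤ M := (le_max_right _ _).trans h
    rw [Int.abs_eq_natAbs, Int.abs_eq_natAbs]
    exact ⟨by exact_mod_cast h1, by exact_mod_cast h2⟩
  have hM1 : 1 ≤ M := by
    by_contra hcon
    have hM0 : M = 0 := by omega
    have h := hb v₁ hv₁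
    rw [hM0] at h
    have e1 : v₁.1 = 0 := by
      have := h.1; simpa using this
    have e2 : v₁.2 = 0 := by
      have := h.2; simpa using this
    have : gc v₁ = 0 := by simp [gc, e1, e2]
    omega
  have hdv : ∀ v ∈ R, (q : ℤ) * (det v₁ v / q) = det v₁ v := fun v hv =>
    Int.mul_ediv_cancel' (hdet v₁ hv₁ v hv)
  have hdb : ∀ v ∈ R, |det v₁ v| ≤ 2 * (T : ℤ) ^ 2 := by
    intro v hv
    obtain ⟨h1, h2⟩ := hb v hv
    obtain ⟨h3, h4⟩ := hb v₁ hv₁
    have hMT' : (M : ℤ) ≤ T := by exact_mod_cast hMT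
    have hM0 : (0 : ℤ) ≤ M := by positivity
    have e : |det v₁ v| ≤ |v₁.1| * |v.2| + |v₁.2| * |v.1| := by
      unfold det
      calc |v₁.1 * v.2 - v₁.2 * v.1| ≤ |v₁.1 * v.2| + |v₁.2 * v.1| := abs_sub _ _
        _ = _ := by rw [abs_mul, abs_mul]
    have e1 : |v₁.1| * |v.2| ≤ (M : ℤ) * M := mul_le_mul h3 h2 (abs_nonneg _) hM0
    have e2 : |v₁.2| * |v.1| ≤ (M : ℤ) * M := mul_le_mul h4 h1 (abs_nonneg _) hM0
    have e3 : (M : ℤ) * M ≤ (T : ℤ) * T := mul_le_mul hMT' hMT' hM0 (hM0.trans hMT')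
    nlinarith
  obtain ⟨K, hK⟩ : ∃ K, K = 2 * T ^ 2 / q := ⟨_, rfl⟩
  have hmaps : ∀ v ∈ R, det v₁ v / q ∈ Finset.Icc (-(K : ℤ)) K := by
    intro v hv
    have h1 := hdv v hv
    have h2 := hdb v hv
    have h3 : (q : ℤ) * |det v₁ v / q| ≤ 2 * (T : ℤ) ^ 2 := by
      have : |(q : ℤ) * (det v₁ v / q)| = (q : ℤ) * |det v₁ v / q| := by
        rw [abs_mul]; simp
      rw [← this, h1]; exact h2
    have h4 : (det v₁ v / q).natAbs * q ≤ 2 * T ^ 2 := by
      have : (((det v₁ v / q).natAbs : ℕ) : ℤ) * q ≤ 2 * (T : ℤ) ^ 2 := by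
        rw [Int.natCast_natAbs]; linarith [mul_comm (q : ℤ) |det v₁ v / q|]
      exact_mod_cast this
    have h5 : (det v₁ v / q).natAbs ≤ K := by
      rw [hK]; exact (Nat.le_div_iff_mul_le hq).2 h4
    rw [Finset.mem_Icc]
    omega
  have hfib : ∀ t ∈ Finset.Icc (-(K : ℤ)) K, (R.filter (fun v => det v₁ v / q = t)).card ≤ 5 := by
    intro t _
    rcases (R.filter (fun v => det v₁ v / q = t)).eq_empty_or_nonempty with h0 | ⟨v₀, hv₀⟩
    · rw [h0]; simp
    obtain ⟨hv₀R, hv₀t⟩ := Finset.mem_filter.1 hv₀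
    have hsub : R.filter (fun v => det v₁ v / q = t) ⊆
        (Finset.Icc (-2 : ℤ) 2).image (fun s : ℤ => (v₀.1 + s * v₁.1, v₀.2 + s * v₁.2)) := by
      intro v hv
      obtain ⟨hvR, hvt⟩ := Finset.mem_filter.1 hv
      have e1 : det v₁ v = det v₁ v₀ := by
        rw [← hdv v hvR, ← hdv v₀ hv₀R, hvt, hv₀t]
      have e2 : v₁.1 * (v.2 - v₀.2) - v₁.2 * (v.1 - v₀.1) = 0 := by
        unfold det at e1; linear_combination e1
      obtain ⟨s, hs1, hs2⟩ := mult g1 e2
      refine Finset.mem_image.2 ⟨s, ?_, ?_⟩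
      · obtain ⟨c1, c2⟩ := hb v hvR
        obtain ⟨c3, c4⟩ := hb v₀ hv₀R
        have f1 : |s * v₁.1| ≤ 2 * (M : ℤ) := by
          rw [← hs1]; exact (abs_sub _ _).trans (by linarith)
        have f2 : |s * v₁.2| ≤ 2 * (M : ℤ) := by
          rw [← hs2]; exact (abs_sub _ _).trans (by linarith)
        rw [abs_mul] at f1 f2
        have hmx : |v₁.1| = (M : ℤ) ∨ |v₁.2| = (M : ℤ) := by
          rcases max_choice v₁.1.natAbs v₁.2.natAbs with h | h
          · left; rw [Int.abs_eq_natAbs]; rw [h] at hM; exact_mod_cast hM.symm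
          · right; rw [Int.abs_eq_natAbs]; rw [h] at hM; exact_mod_cast hM.symm
        have hMp : (0 : ℤ) < M := by exact_mod_cast hM1
        have f3 : |s| ≤ 2 := by
          rcases hmx with h | h
          · rw [h] at f1; exact le_of_mul_le_mul_right f1 hMp
          · rw [h] at f2; exact le_of_mul_le_mul_right f2 hMp
        rw [Finset.mem_Icc]
        exact ⟨by linarith [(abs_le.1 f3).1], (abs_le.1 f3).2⟩
      · refine Prod.ext ?_ ?_
        · simp only []; linarith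
        · simp only []; linarith
    refine (Finset.card_le_card hsub).trans (Finset.card_image_le.trans ?_)
    decide
  have hcard := Finset.card_le_mul_card_image_of_maps_to hmaps 5 hfib
  have hI : (Finset.Icc (-(K : ℤ)) K).card = 2 * K + 1 := by
    rw [Int.card_Icc]; omega
  rw [hI] at hcard
  have hKr : (K : ℝ) ≤ 2 * (T : ℝ) ^ 2 / q := by
    rw [hK]
    refine Nat.cast_div_le.trans ?_
    push_cast
    exact le_refl _
  have : (R.card : ℝ) ≤ 5 * (2 * K + 1) := by exact_mod_cast hcard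
  calc (R.card : ℝ) ≤ 5 * (2 * K + 1) := this
    _ ≤ 5 * (2 * (2 * (T : ℝ) ^ 2 / q) + 1) := by linarith
    _ = 20 * (T : ℝ) ^ 2 / q + 5 := by ring

end Pool.Agent.H11.TW
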