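import Pool.Agent.H11.TW.Stm

set_option autoImplicit false

/-! # TW-LG: large primes (helper83) -/

namespace Pool.Agent.H11.TW

open Polynomial Finset Filter Topology

namespace LGx

/-- exchange of the sums -/
lemma swap (f : ℤ[X]) (D : ℕ) (y z : ℝ) (s : Finset (ℤ × ℤ)) :
    ∑ v ∈ s, wt f D y z v = ∑ p ∈ pr y z,
      Real.log p * ((s.filter (fun v => (p : ℤ) ∣ hom f D v.1 v.2)).card : ℝ) := by
  unfold wt
  simp only [Finset.sum_filter]
  rw [Finset.sum_comm]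
  refine Finset.sum_congr rfl fun p _ => ?_
  rw [← Finset.sum_filter, Finset.sum_const, nsmul_eq_mul, mul_comm]

lemma mem_pr {y z : ℝ} {p : ℕ} (hz : 0 ≤ z) :
    p ∈ pr y z ↔ p.Prime ∧ y < p ∧ (p : ℝ) ≤ z := by
  unfold pr
  rw [Finset.mem_filter, Finset.mem_range, Nat.lt_succ_iff, Nat.le_floor_iff hz]
  tauto

lemma card_pr {y z : ℝ} (hz : 1 ≤ z) : ((pr y z).card : ℝ) ≤ 2 * z := by
  have h1 : (pr y z).card ≤ ⌊z⌋₊ + 1 := by
    unfold pr
    refine (Finset.card_filter_le _ _).trans ?_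
    rw [Finset.card_range]
  have h2 : ((pr y z).card : ℝ) ≤ (⌊z⌋₊ : ℝ) + 1 := by exact_mod_cast h1
  have h3 := Nat.floor_le (by linarith : 0 ≤ z)
  linarith

lemma mem_bx {T : ℕ} {v : ℤ × ℤ} (h : v ∈ bx T) :
    |v.1| ≤ (T : ℤ) ∧ |v.2| ≤ (T : ℤ) ∧ v.2 ≠ 0 := by
  unfold bx at h
  rw [Finset.mem_filter, Finset.mem_product, Finset.mem_Icc, Finset.mem_Icc] at h
  exact ⟨abs_le.2 h.1.1, abs_le.2 h.1.2, h.2⟩

end LGx

open LGx in
theorem LG_main (h1 : S_MERV) (h2 : S_PIG) (h3 : S_GCD) (h4 : S_WB) (h5 : S_HB) (h6 : S_ZER)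
    (h7 : S_RTB) : S_LG := by
  intro g hg hn
  have hg0 : g ≠ 0 := hg.ne_zero
  obtain ⟨B, hB⟩ := h7 g hg0
  obtain ⟨C, hC1, hC⟩ := h5 g g.natDegree le_rfl
  have hmer := h1 g hg (by omega) 1 (3 / 2) (1 / 8) (by norm_num) (by norm_num) (by norm_num)
  have hZ := h6.2 g hg hn
  have hPIG := h2 g
  have hWB := h4 g g.natDegree
  obtain ⟨n, hn'⟩ : ∃ n, n = g.natDegree := ⟨_, rfl⟩
  rw [← hn'] at hn hC hZ hPIG hWB
  rw [← hn']
  have hB' : ∀ p : ℕ, p.Prime → B < p → rt g p ≤ n := fun p hp hBp => by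
    rw [hn']; exact (hB p hp hBp).1
  refine ⟨72 * (n + 1), by positivity, ?_⟩
  have hn1 : (2 : ℝ) ≤ n := by exact_mod_cast hn
  filter_upwards [hmer, eventually_ge_atTop (B + 1),
    tendsto_natCast_atTop_atTop.eventually_ge_atTop (max C ((24 * (n : ℝ)) ^ 2))] with T hTm hTB hTC
  have hTC1 : C ≤ T := (le_max_left _ _).trans hTC
  have hTn : (24 * (n : ℝ)) ^ 2 ≤ T := (le_max_right _ _).trans hTC
  have hTR : (1 : ℝ) ≤ T := hC1.trans hTC1
  have hT0 : (0 : ℝ) < T := by linarith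
  have hT1 : 1 ≤ T := by exact_mod_cast hTR
  have hlogT : 0 ≤ Real.log T := Real.log_nonneg hTR
  rw [Real.rpow_one] at hTm
  have hsq : 24 * (n : ℝ) ≤ Real.sqrt T := Real.le_sqrt_of_sq_le hTn
  obtain ⟨z, hz⟩ : ∃ z : ℝ, z = (T : ℝ) ^ (3 / 2 : ℝ) := ⟨_, rfl⟩
  have hlogz : Real.log z = 3 / 2 * Real.log T := by rw [hz, Real.log_rpow hT0]
  have hz1 : 1 ≤ z := by rw [hz]; exact Real.one_le_rpow hTR (by norm_num)
  have hzT : z * Real.sqrt T = (T : ℝ) ^ 2 := by
    rw [hz, Real.sqrt_eq_rpow, ← Real.rpow_add hT0, ← Real.rpow_natCast]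
    norm_num
  rw [← hz] at hTm ⊢
  obtain ⟨P, hP⟩ : ∃ P, P = pr (T : ℝ) z := ⟨_, rfl⟩
  rw [← hP] at hTm
  have hmem : ∀ p ∈ P, p.Prime ∧ (T : ℝ) < p ∧ (p : ℝ) ≤ z := by
    intro p hp
    rw [hP, mem_pr (by linarith)] at hp
    exact hp
  -- the total
  have htot : (T : ℝ) ^ 2 * (3 / 8 * Real.log T) - 3 * n * z * Real.log T ≤
      ∑ v ∈ bx T, wt g n T z v := by
    rw [swap, ← hP]
    have ht : ∀ p ∈ P, (T : ℝ) ^ 2 * ((rt g p : ℝ) * Real.log p / p) - n * (3 / 2 * Real.log T) ≤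
        Real.log p * (((bx T).filter (fun v => (p : ℤ) ∣ hom g n v.1 v.2)).card : ℝ) := by
      intro p hp
      obtain ⟨hpp, hp1, hp2⟩ := hmem p hp
      have hTp : T < p := by exact_mod_cast hp1
      have hlp : 0 ≤ Real.log p := Real.log_nonneg (by exact_mod_cast hpp.one_lt.le)
      have h8 := hPIG p T hpp (by omega) hTp
      have h9 := mul_le_mul_of_nonneg_left h8 hlp
      have h10 : (rt g p : ℝ) ≤ n := by exact_mod_cast hB' p hpp (by omega)
      have h11 : Real.log p ≤ 3 / 2 * Real.log T := by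
        rw [← hlogz]
        exact Real.log_le_log (by exact_mod_cast hpp.pos) hp2
      have h12 : (rt g p : ℝ) * Real.log p ≤ n * (3 / 2 * Real.log T) :=
        mul_le_mul h10 h11 hlp (by positivity)
      refine le_trans ?_ h9
      have e : Real.log p * ((rt g p : ℝ) * ((T : ℝ) ^ 2 / p - 1)) =
          (T : ℝ) ^ 2 * ((rt g p : ℝ) * Real.log p / p) - (rt g p : ℝ) * Real.log p := by ring
      rw [e]
      linarith
    refine le_trans ?_ (Finset.sum_le_sum ht)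
    rw [Finset.sum_sub_distrib, ← Finset.mul_sum, Finset.sum_const, nsmul_eq_mul]
    have h8 : 3 / 8 * Real.log T ≤ ∑ p ∈ P, (rt g p : ℝ) * Real.log p / p := by
      have := (abs_le.1 hTm).1
      linarith
    have h9 := mul_le_mul_of_nonneg_left h8 (sq_nonneg (T : ℝ))
    have h10 : (P.card : ℝ) ≤ 2 * z := by rw [hP]; exact card_pr hz1
    have h11 : (P.card : ℝ) * (n * (3 / 2 * Real.log T)) ≤ 2 * z * (n * (3 / 2 * Real.log T)) :=
      mul_le_mul_of_nonneg_right h10 (by positivity)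
    linarith
  -- the pairs with a large greatest common divisor
  have hbad : ∑ v ∈ (bx T).filter (fun v => ¬ gc v ≤ 72 * (n + 1)), wt g n T z v ≤
      1 / 8 * (T : ℝ) ^ 2 * Real.log T := by
    have hb : ∀ v ∈ (bx T).filter (fun v => ¬ gc v ≤ 72 * (n + 1)), wt g n T z v ≤
        ((n : ℝ) + 1) * Real.log T := by
      intro v hv
      rw [Finset.mem_filter] at hv
      obtain ⟨ha, hb, hb0⟩ := mem_bx hv.1
      have h8 := hZ v.1 v.2 hb0
      refine (hWB T z v h8).trans ?_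
      have h9 := hC T v hT1 ha hb
      have h10 : (0 : ℝ) < |((hom g n v.1 v.2 : ℤ) : ℝ)| := abs_pos.2 (by exact_mod_cast h8)
      refine (Real.log_le_log h10 h9).trans ?_
      rw [Real.log_mul (by linarith) (by positivity), Real.log_pow]
      have h11 := Real.log_le_log (by linarith) hTC1
      linarith
    refine (Finset.sum_le_card_nsmul _ _ _ hb).trans ?_
    rw [nsmul_eq_mul]
    have h8 := h3 (72 * (n + 1)) T (by positivity)
    have e : (bx T).filter (fun v => ¬ gc v ≤ 72 * (n + 1)) =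
        (bx T).filter (fun v => 72 * (n + 1) < gc v) := by
      refine Finset.filter_congr fun v _ => ?_
      rw [not_le]
    rw [e]
    refine (mul_le_mul_of_nonneg_right h8 (by positivity)).trans (le_of_eq ?_)
    push_cast
    field_simp
    ring
  have hsplit := Finset.sum_filter_add_sum_filter_not (bx T) (fun v => gc v ≤ 72 * (n + 1))
    (fun v => wt g n T z v)
  have hz2 : 3 * n * z ≤ 1 / 8 * (T : ℝ) ^ 2 := by
    rw [← hzT]
    have := mul_le_mul_of_nonneg_left hsq (by linarith : 0 ≤ z)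
    linarith
  have hz3 := mul_le_mul_of_nonneg_right hz2 hlogT
  linarith

end Pool.Agent.H11.TW
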