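import Pool.Agent.H11.TW.Stm

/-! TW-LOC: local lower bound for the number of pairs. -/

set_option autoImplicit false

namespace Pool.Agent.H11.TW

open Polynomial Finset Filter Topology

namespace LOCx

theorem hom_mul (f : ℤ[X]) (D : ℕ) (hD : f.natDegree ≤ D) (r b : ℤ) : hom f D (r * b) b = b ^ D * f.eval r := by
  unfold hom
  rw [Polynomial.eval_eq_sum_range, Finset.mul_sum]
  refine Finset.sum_congr rfl fun i hi => ?_
  rw [Finset.mem_range] at hi
  have e : b ^ D = b ^ i * b ^ (D - i) := by rw [← pow_add]; congr 1; omega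
  rw [e, mul_pow]; ring

theorem hom_sub (f : ℤ[X]) (D : ℕ) (a a' b : ℤ) : a - a' ∣ hom f D a b - hom f D a' b := by
  unfold hom
  rw [← Finset.sum_sub_distrib]
  refine Finset.dvd_sum fun i _ => ?_
  have e : f.coeff i * a ^ i * b ^ (D - i) - f.coeff i * a' ^ i * b ^ (D - i) =
      (a ^ i - a' ^ i) * (f.coeff i * b ^ (D - i)) := by ring
  rw [e]
  exact (sub_dvd_pow_sub_pow a a' i).mul_right _

theorem dvd_hom1 {f : ℤ[X]} {D : ℕ} (hD : f.natDegree ≤ D) {p : ℕ} {a b r : ℤ} (hr : (p : ℤ) ∣ f.eval r)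
    (hab : (p : ℤ) ∣ a - r * b) : (p : ℤ) ∣ hom f D a b := by
  have h1 := hab.trans (hom_sub f D a (r * b) b)
  rw [hom_mul f D hD] at h1
  have h2 : (p : ℤ) ∣ b ^ D * f.eval r := hr.mul_left _
  have h3 := dvd_add h1 h2
  rwa [sub_add_cancel] at h3

theorem dvd_hom2 {f : ℤ[X]} {D : ℕ} (hD : D = f.natDegree + 1) {a b : ℤ} : b ∣ hom f D a b := by
  unfold hom
  refine Finset.dvd_sum fun i hi => ?_
  rw [Finset.mem_range] at hi
  exact (dvd_pow_self b (by omega)).mul_left _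

/-- numbers of the interval in a residue class -/
theorem cls (T p : ℕ) (hp : 0 < p) (c : ℤ) :
    2 * (T : ℝ) / p - 1 ≤ (((Icc (-(T : ℤ)) T).filter (fun a => (p : ℤ) ∣ a - c)).card : ℝ) := by
  have hp' : (0 : ℤ) < (p : ℤ) := by exact_mod_cast hp
  have e1 : (Icc (-(T : ℤ)) T).filter (fun a => (p : ℤ) ∣ a - c) =
      (Ioc (-(T : ℤ) - 1) T).filter (fun a => a ≡ c [ZMOD (p : ℤ)]) := by
    ext a
    simp only [Finset.mem_filter, Finset.mem_Icc, Finset.mem_Ioc]
    rw [Int.modEq_comm, Int.modEq_iff_dvd]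
    constructor
    · rintro ⟨⟨h1, h2⟩, h3⟩
      exact ⟨⟨by omega, h2⟩, h3⟩
    · rintro ⟨⟨h1, h2⟩, h3⟩
      exact ⟨⟨by omega, h2⟩, h3⟩
  rw [e1]
  have h1 := Int.Ioc_filter_modEq_card (-(T : ℤ) - 1) T hp' c
  have h2 : ((⌊(((T : ℤ) : ℚ) - c) / ((p : ℤ) : ℚ)⌋ - ⌊(((-(T : ℤ) - 1 : ℤ) : ℚ) - c) / ((p : ℤ) : ℚ)⌋ : ℤ) : ℚ) ≤
      (((Ioc (-(T : ℤ) - 1) T).filter (fun a => a ≡ c [ZMOD (p : ℤ)])).card : ℚ) := by
    have h3 : (⌊(((T : ℤ) : ℚ) - c) / ((p : ℤ) : ℚ)⌋ - ⌊(((-(T : ℤ) - 1 : ℤ) : ℚ) - c) / ((p : ℤ) : ℚ)⌋ : ℤ) ≤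
        (((Ioc (-(T : ℤ) - 1) T).filter (fun a => a ≡ c [ZMOD (p : ℤ)])).card : ℤ) := by
      rw [h1]
      exact le_max_left _ _
    exact_mod_cast h3
  have h4 := Int.lt_floor_add_one ((((T : ℤ) : ℚ) - c) / ((p : ℤ) : ℚ))
  have h5 := Int.floor_le ((((-(T : ℤ) - 1 : ℤ) : ℚ) - c) / ((p : ℤ) : ℚ))
  have hpq : (0 : ℚ) < ((p : ℤ) : ℚ) := by exact_mod_cast hp
  have h6 : 2 * (T : ℚ) / p - 1 ≤ (((Ioc (-(T : ℤ) - 1) T).filter (fun a => a ≡ c [ZMOD (p : ℤ)])).card : ℚ) := by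
    refine le_trans ?_ h2
    push_cast at h4 h5 ⊢
    have e2 : 2 * (T : ℚ) / p ≤ ((T : ℚ) - c) / p - (-(T : ℚ) - 1 - c) / p := by
      rw [← sub_div]
      refine div_le_div_of_nonneg_right ?_ (by positivity)
      linarith
    linarith
  have h7 : ((2 * (T : ℚ) / p - 1 : ℚ) : ℝ) ≤
      ((((Ioc (-(T : ℤ) - 1) T).filter (fun a => a ≡ c [ZMOD (p : ℤ)])).card : ℚ) : ℝ) := Rat.cast_le.2 h6
  push_cast at h7
  exact h7

/-- the numbers `± k`, `k ∈ K` -/
noncomputable def pm (K : Finset ℕ) : Finset ℤ := K.image (fun k : ℕ => (k : ℤ)) ∪ K.image (fun k : ℕ => -(k : ℤ))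

theorem pm_card (K : Finset ℕ) (hK : ∀ k ∈ K, 0 < k) : (pm K).card = 2 * K.card := by
  unfold pm
  rw [Finset.card_union_of_disjoint, Finset.card_image_of_injective, Finset.card_image_of_injective]
  · ring
  · intro a b h
    simp only at h
    omega
  · intro a b h
    simp only at h
    omega
  · rw [Finset.disjoint_left]
    intro x h1 h2
    rw [Finset.mem_image] at h1 h2
    obtain ⟨a, ha, rfl⟩ := h1
    obtain ⟨b, hb, h⟩ := h2
    have := hK a ha
    omega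

theorem pm_mem {K : Finset ℕ} {b : ℤ} (h : b ∈ pm K) : b.natAbs ∈ K := by
  unfold pm at h
  rw [Finset.mem_union, Finset.mem_image, Finset.mem_image] at h
  rcases h with ⟨k, hk, rfl⟩ | ⟨k, hk, rfl⟩
  · simpa using hk
  · simpa using hk

end LOCx

open LOCx

theorem LOC_main : S_LOC := by
  classical
  intro f D p T hp hpT hD
  have hDn : f.natDegree ≤ D := by omega
  have hp0 := hp.pos
  have hpR : (0 : ℝ) < p := by exact_mod_cast hp0
  have hpT' : (p : ℝ) ≤ T := by exact_mod_cast hpT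
  have hT0 : (0 : ℝ) < T := by linarith
  set R := (Finset.range p).filter (fun a : ℕ => (p : ℤ) ∣ f.eval (a : ℤ)) with hR
  have hRc : (R.card : ℝ) = rt f p := rfl
  set S := (bx T).filter (fun v => (p : ℤ) ∣ hom f D v.1 v.2) with hS
  set K1 := (Ioc 0 T).filter (fun k => ¬ p ∣ k) with hK1
  set K2 := (Ioc 0 T).filter (fun k => p ∣ k) with hK2
  have c2 : K2.card = T / p := Nat.Ioc_filter_dvd_card_eq_div T p
  have c12 : K2.card + K1.card = T := by
    rw [hK1, hK2, Finset.card_filter_add_card_filter_not]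
    simp
  have p1 : ∀ k ∈ K1, 0 < k := fun k hk => (Finset.mem_Ioc.1 (Finset.mem_filter.1 hk).1).1
  have p2 : ∀ k ∈ K2, 0 < k := fun k hk => (Finset.mem_Ioc.1 (Finset.mem_filter.1 hk).1).1
  have hdiv : ((T / p : ℕ) : ℝ) ≤ (T : ℝ) / p := Nat.cast_div_le
  have hdiv2 : (T : ℝ) / p - 1 ≤ ((T / p : ℕ) : ℝ) := by
    have h1 : T < p * (T / p) + p := Nat.lt_mul_div_succ T hp0 |>.trans_eq (by ring)
    have h2 : (T : ℝ) < p * ((T / p : ℕ) : ℝ) + p := by exact_mod_cast h1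
    rw [sub_le_iff_le_add, div_le_iff₀ hpR]
    linarith
  have c1r : (T : ℝ) * (1 - 1 / p) ≤ K1.card := by
    have h1 : ((K2.card : ℝ)) + K1.card = T := by exact_mod_cast c12
    rw [c2] at h1
    have h2 : (T : ℝ) * (1 - 1 / p) = T - T / p := by ring
    rw [h2]; linarith
  -- first family
  have f1 : (2 * (K1.card : ℝ)) * (R.card : ℝ) * (2 * (T : ℝ) / p - 1) ≤
      ((S.filter (fun v => ¬ (p : ℤ) ∣ v.2)).card : ℝ) := by
    set A := (pm K1 ×ˢ R).sigma (fun br : ℤ × ℕ => (Icc (-(T : ℤ)) T).filter (fun a => (p : ℤ) ∣ a - (br.2 : ℤ) * br.1)) with hA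
    have hcard : (2 * (K1.card : ℝ)) * (R.card : ℝ) * (2 * (T : ℝ) / p - 1) ≤ (A.card : ℝ) := by
      rw [hA, Finset.card_sigma]
      push_cast
      have h1 : ∑ _br ∈ pm K1 ×ˢ R, (2 * (T : ℝ) / p - 1) ≤ ∑ br ∈ pm K1 ×ˢ R,
          ((((Icc (-(T : ℤ)) T).filter (fun a => (p : ℤ) ∣ a - (br.2 : ℤ) * br.1)).card : ℕ) : ℝ) :=
        Finset.sum_le_sum fun br _ => cls T p hp0 _
      refine le_trans (le_of_eq ?_) h1
      rw [Finset.sum_const, Finset.card_product, pm_card K1 p1, nsmul_eq_mul]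
      push_cast
      ring
    refine hcard.trans ?_
    have hle : A.card ≤ (S.filter (fun v => ¬ (p : ℤ) ∣ v.2)).card := by
      refine Finset.card_le_card_of_injOn (fun x => (x.2, x.1.1)) ?_ ?_
      · rintro ⟨⟨b, r⟩, a⟩ hx
        rw [Finset.mem_coe, hA, Finset.mem_sigma] at hx
        simp only [Finset.mem_product, Finset.mem_filter, Finset.mem_Icc] at hx
        obtain ⟨⟨hb, hr⟩, ⟨ha1, ha2⟩, ha3⟩ := hx
        have hb1 := pm_mem hb
        rw [hK1, Finset.mem_filter, Finset.mem_Ioc] at hb1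
        rw [hR, Finset.mem_filter] at hr
        have hbp : ¬ (p : ℤ) ∣ b := fun h => hb1.2 (Int.natCast_dvd.1 h)
        rw [Finset.mem_coe, Finset.mem_filter, hS, Finset.mem_filter, bx, Finset.mem_filter, Finset.mem_product,
          Finset.mem_Icc, Finset.mem_Icc]
        refine ⟨⟨⟨⟨⟨ha1, ha2⟩, ?_, ?_⟩, ?_⟩, dvd_hom1 hDn hr.2 ha3⟩, hbp⟩
        · show -(T : ℤ) ≤ b
          omega
        · show b ≤ (T : ℤ)
          omega
        · show b ≠ 0
          omega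
      · rintro ⟨⟨b, r⟩, a⟩ hx ⟨⟨b', r'⟩, a'⟩ hx' h
        simp only [Prod.mk.injEq] at h
        obtain ⟨rfl, rfl⟩ := h
        rw [Finset.mem_coe, hA, Finset.mem_sigma] at hx hx'
        simp only [Finset.mem_product, Finset.mem_filter, Finset.mem_Icc] at hx hx'
        have hb1 := pm_mem hx.1.1
        rw [hK1, Finset.mem_filter, Finset.mem_Ioc] at hb1
        have hbp : ¬ (p : ℤ) ∣ b := fun h => hb1.2 (Int.natCast_dvd.1 h)
        have h1 := hx.2.2
        have h2 := hx'.2.2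
        have h3 : (p : ℤ) ∣ ((r : ℤ) - r') * b := by
          have := dvd_sub h2 h1
          have e : a - (r' : ℤ) * b - (a - (r : ℤ) * b) = ((r : ℤ) - r') * b := by ring
          rwa [e] at this
        have h4 : (p : ℤ) ∣ (r : ℤ) - r' := ((Nat.prime_iff_prime_int.1 hp).dvd_or_dvd h3).resolve_right hbp
        have hr := (Finset.mem_filter.1 (hR ▸ hx.1.2)).1
        have hr' := (Finset.mem_filter.1 (hR ▸ hx'.1.2)).1
        rw [Finset.mem_range] at hr hr'
        have h5 : (r : ℤ) - r' = 0 := by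
          refine Int.eq_zero_of_abs_lt_dvd h4 ?_
          rw [abs_lt]
          constructor <;> omega
        have h6 : r = r' := by omega
        subst h6
        rfl
    exact_mod_cast hle
  -- second family
  have f2 : ((D : ℝ) - f.natDegree) * ((2 * (K2.card : ℝ)) * (2 * T + 1)) ≤
      ((S.filter (fun v => ¬ ¬ (p : ℤ) ∣ v.2)).card : ℝ) := by
    rcases hD with h | h
    · rw [h, sub_self, zero_mul]
      positivity
    · have e : (D : ℝ) - f.natDegree = 1 := by rw [h]; push_cast; ring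
      rw [e, one_mul]
      have hle : (Icc (-(T : ℤ)) T ×ˢ pm K2).card ≤ (S.filter (fun v => ¬ ¬ (p : ℤ) ∣ v.2)).card := by
        refine Finset.card_le_card ?_
        rintro ⟨a, b⟩ hx
        rw [Finset.mem_product, Finset.mem_Icc] at hx
        obtain ⟨⟨ha1, ha2⟩, hb⟩ := hx
        have hb1 := pm_mem hb
        rw [hK2, Finset.mem_filter, Finset.mem_Ioc] at hb1
        have hbp : (p : ℤ) ∣ b := Int.natCast_dvd.2 hb1.2
        rw [Finset.mem_filter, hS, Finset.mem_filter, bx, Finset.mem_filter, Finset.mem_product,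
          Finset.mem_Icc, Finset.mem_Icc]
        refine ⟨⟨⟨⟨⟨ha1, ha2⟩, ?_, ?_⟩, ?_⟩, hbp.trans (dvd_hom2 h)⟩, not_not.2 hbp⟩
        · show -(T : ℤ) ≤ b
          omega
        · show b ≤ (T : ℤ)
          omega
        · show b ≠ 0
          omega
      rw [Finset.card_product, Int.card_Icc, pm_card K2 p2] at hle
      have e2 : ((T : ℤ) + 1 - -(T : ℤ)).toNat = 2 * T + 1 := by omega
      rw [e2] at hle
      have h3 : (((2 * T + 1) * (2 * K2.card) : ℕ) : ℝ) ≤ ((S.filter (fun v => ¬ ¬ (p : ℤ) ∣ v.2)).card : ℝ) := by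
        exact_mod_cast hle
      push_cast at h3
      linarith
  have hsum : (S.card : ℝ) = ((S.filter (fun v => ¬ (p : ℤ) ∣ v.2)).card : ℝ) +
      ((S.filter (fun v => ¬ ¬ (p : ℤ) ∣ v.2)).card : ℝ) := by
    have := Finset.card_filter_add_card_filter_not (s := S) (fun v => ¬ (p : ℤ) ∣ v.2)
    exact_mod_cast this.symm
  rw [hsum]
  refine le_trans ?_ (add_le_add f1 f2)
  rw [add_mul, add_mul, ← hRc]
  have hRn : (0 : ℝ) ≤ R.card := Nat.cast_nonneg _
  have hp1 : (1 : ℝ) ≤ p := by exact_mod_cast hp0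
  have hq : 0 ≤ 1 - 1 / (p : ℝ) := by
    rw [sub_nonneg, div_le_one hpR]; exact hp1
  have hTp : 1 ≤ (T : ℝ) / p := by
    rw [le_div_iff₀ hpR]; linarith
  refine add_le_add ?_ ?_
  · have g1 : (4 * (T : ℝ) ^ 2 / p) * (1 - 1 / p - p / T) ≤ 2 * (T * (1 - 1 / p)) * (2 * (T : ℝ) / p - 1) := by
      have e1 : 2 * ((T : ℝ) * (1 - 1 / p)) * (2 * (T : ℝ) / p - 1) - (4 * (T : ℝ) ^ 2 / p) * (1 - 1 / p - p / T) =
          2 * T + 2 * (T / p) := by
        field_simp
        ring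
      have : 0 ≤ 2 * (T : ℝ) + 2 * (T / p) := by positivity
      linarith
    calc (R.card : ℝ) * (4 * (T : ℝ) ^ 2 / p) * (1 - 1 / p - p / T)
        = (R.card : ℝ) * ((4 * (T : ℝ) ^ 2 / p) * (1 - 1 / p - p / T)) := by ring
      _ ≤ (R.card : ℝ) * (2 * (T * (1 - 1 / p)) * (2 * (T : ℝ) / p - 1)) := mul_le_mul_of_nonneg_left g1 hRn
      _ ≤ (R.card : ℝ) * (2 * K1.card * (2 * (T : ℝ) / p - 1)) := by
          refine mul_le_mul_of_nonneg_left ?_ hRn
          refine mul_le_mul_of_nonneg_right (by linarith) ?_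
          have : 2 * (T : ℝ) / p = 2 * (T / p) := by ring
          rw [this]; linarith
      _ = _ := by ring
  · have ht : 0 ≤ (D : ℝ) - f.natDegree := by
      have : (f.natDegree : ℝ) ≤ D := by exact_mod_cast hDn
      linarith
    rw [mul_assoc]
    refine mul_le_mul_of_nonneg_left ?_ ht
    have g1 : (4 * (T : ℝ) ^ 2 / p) * (1 - 1 / p - p / T) ≤ 2 * (T / p - 1) * (2 * T + 1) := by
      have e1 : 2 * ((T : ℝ) / p - 1) * (2 * T + 1) - (4 * (T : ℝ) ^ 2 / p) * (1 - 1 / p - p / T) =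
          2 * (T / p - 1) + 4 * (T / p) ^ 2 := by
        field_simp
        ring
      have : 0 ≤ 4 * ((T : ℝ) / p) ^ 2 := by positivity
      linarith
    refine g1.trans ?_
    rw [c2]
    refine mul_le_mul_of_nonneg_right (by linarith) (by positivity)

end Pool.Agent.H11.TW
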