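import Pool.Agent.H11.TW.Stm
import Pool.Agent.H11.V.R_seed8_Erdos456_Mertens

/-!
# Stub TW-MERT: the weighted prime ideal theorem for the roots of an irreducible polynomial
-/

set_option autoImplicit false

namespace Pool.Agent.H11.TW.MERTx

open Polynomial Finset Filter Topology Asymptotics

/-- the coefficients -/
noncomputable def c (f : ℤ[X]) (n : ℕ) : ℝ := if n.Prime then (rt f n : ℝ) - 1 else 0

/-- their sums -/
noncomputable def A (f : ℤ[X]) (N : ℕ) : ℝ := ∑ n ∈ range (N + 1), c f n

/-- the weights -/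
noncomputable def w (n : ℕ) : ℝ := Real.log n / n

theorem abel (f : ℤ[X]) (N : ℕ) : ∑ n ∈ range (N + 1), c f n * w n =
    A f N * w N + ∑ n ∈ range N, A f n * (w n - w (n + 1)) := by
  induction N with
  | zero => simp [A]
  | succ N ih =>
    rw [Finset.sum_range_succ, ih, Finset.sum_range_succ (fun n => A f n * (w n - w (n + 1)))]
    have h : A f (N + 1) = A f N + c f (N + 1) := by
      unfold A
      rw [Finset.sum_range_succ]
    rw [h]
    ring

theorem w_diff {n : ℕ} (hn : 3 ≤ n) : |w n - w (n + 1)| ≤ Real.log n / (n * (n + 1)) := by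
  have hn0 : (0 : ℝ) < n := by
    have : 0 < n := by omega
    exact_mod_cast this
  have hlog : 1 ≤ Real.log n := by
    rw [Real.le_log_iff_exp_le hn0]
    have h1 := Real.exp_one_lt_d9
    have h2 : (3 : ℝ) ≤ n := by exact_mod_cast hn
    linarith
  have h1 : Real.log ((n + 1 : ℕ) : ℝ) - Real.log n ≤ 1 / n := by
    have h2 : ((n + 1 : ℕ) : ℝ) = n * (1 + 1 / n) := by
      push_cast
      field_simp
    rw [h2, Real.log_mul hn0.ne' (by positivity)]
    have h3 := Real.log_le_sub_one_of_pos (show (0 : ℝ) < 1 + 1 / n by positivity)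
    linarith
  have h2 : 0 ≤ Real.log ((n + 1 : ℕ) : ℝ) - Real.log n := by
    rw [sub_nonneg]
    apply Real.log_le_log hn0
    push_cast
    linarith
  have h3 : w n - w (n + 1) = (Real.log n - n * (Real.log ((n + 1 : ℕ) : ℝ) - Real.log n)) / (n * (n + 1)) := by
    unfold w
    push_cast
    field_simp
    ring
  have h4 : (n : ℝ) * (Real.log ((n + 1 : ℕ) : ℝ) - Real.log n) ≤ 1 := by
    have h5 := mul_le_mul_of_nonneg_left h1 hn0.le
    rwa [mul_one_div_cancel hn0.ne'] at h5
  have h6 : 0 ≤ (n : ℝ) * (Real.log ((n + 1 : ℕ) : ℝ) - Real.log n) := mul_nonneg hn0.le h2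
  rw [h3, abs_div, abs_of_pos (show (0 : ℝ) < n * (n + 1) by positivity)]
  gcongr
  rw [abs_le]
  constructor <;> linarith

theorem pi_eq (N : ℕ) : (Nat.primeCounting N : ℝ) = ∑ _n ∈ (range (N + 1)).filter Nat.Prime, (1 : ℝ) := by
  rw [Finset.sum_const, nsmul_eq_mul, mul_one]
  congr 1
  unfold Nat.primeCounting Nat.primeCounting'
  rw [Nat.count_eq_card_filter_range]

theorem A_eq (f : ℤ[X]) (N : ℕ) : A f N =
    ∑ p ∈ (range (N + 1)).filter Nat.Prime, (rt f p : ℝ) - Nat.primeCounting N := by
  rw [pi_eq, ← Finset.sum_sub_distrib, Finset.sum_filter]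
  rfl

theorem pi_bigO : (fun N : ℕ => (Nat.primeCounting N : ℝ)) =O[atTop] (fun N : ℕ => (N : ℝ) / Real.log N) := by
  have h1 := Chebyshev.eventually_primeCounting_le one_pos
  have h2 := tendsto_natCast_atTop_atTop (R := ℝ) |>.eventually h1
  refine IsBigO.of_bound (Real.log 4 + 1) ?_
  filter_upwards [h2, eventually_ge_atTop 2] with N hN hN2
  rw [Nat.floor_natCast] at hN
  have hlog : 0 ≤ Real.log N := Real.log_natCast_nonneg N
  rw [Real.norm_of_nonneg (Nat.cast_nonneg _), Real.norm_of_nonneg (by positivity)]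
  calc (Nat.primeCounting N : ℝ) ≤ (Real.log 4 + 1) * N / Real.log N := hN
    _ = (Real.log 4 + 1) * (N / Real.log N) := by ring

theorem A_little {f : ℤ[X]} (h : Tendsto (fun N : ℕ => (∑ p ∈ (range (N + 1)).filter Nat.Prime, (rt f p : ℝ)) /
    (Nat.primeCounting N : ℝ)) atTop (𝓝 1)) :
    (A f) =o[atTop] (fun N : ℕ => (N : ℝ) / Real.log N) := by
  refine IsLittleO.trans_isBigO ?_ pi_bigO
  have hpos : ∀ᶠ N : ℕ in atTop, (Nat.primeCounting N : ℝ) ≠ 0 := by
    filter_upwards [eventually_ge_atTop 2] with N hN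
    have h1 : Nat.primeCounting 2 ≤ Nat.primeCounting N := Nat.monotone_primeCounting hN
    have h2 : 0 < Nat.primeCounting 2 := by decide
    have : 0 < Nat.primeCounting N := by omega
    exact_mod_cast this.ne'
  rw [isLittleO_iff_tendsto' (hpos.mono fun N hN h0 => absurd h0 hN)]
  have h1 := h.sub_const 1
  rw [sub_self] at h1
  refine h1.congr' ?_
  filter_upwards [hpos] with N hN
  rw [A_eq, sub_div, div_self hN]

theorem E_little {f : ℤ[X]} (h : (A f) =o[atTop] (fun N : ℕ => (N : ℝ) / Real.log N)) :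
    (fun N : ℕ => ∑ n ∈ range (N + 1), c f n * w n) =o[atTop] (fun N : ℕ => Real.log N) := by
  have hlogpos : ∀ᶠ N : ℕ in atTop, 1 ≤ Real.log N := by
    have := (Real.tendsto_log_atTop.comp (tendsto_natCast_atTop_atTop (R := ℝ))).eventually_ge_atTop 1
    exact this
  have hone : (fun _ : ℕ => (1 : ℝ)) =O[atTop] (fun N : ℕ => Real.log N) := by
    refine IsBigO.of_bound 1 ?_
    filter_upwards [hlogpos] with N hN
    rw [norm_one, Real.norm_of_nonneg (by linarith), one_mul]
    exact hN
  simp only [abel]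
  refine IsLittleO.add ?_ ?_
  · have h1 : (fun N : ℕ => A f N * w N) =o[atTop] (fun N : ℕ => (N : ℝ) / Real.log N * w N) :=
      h.mul_isBigO (isBigO_refl _ _)
    refine IsLittleO.trans_isBigO h1 (IsBigO.trans (IsBigO.of_bound 1 ?_) hone)
    filter_upwards [hlogpos, eventually_ge_atTop 1] with N hN hN1
    have hN0 : (N : ℝ) ≠ 0 := by
      have : N ≠ 0 := by omega
      exact_mod_cast this
    have : (N : ℝ) / Real.log N * w N = 1 := by
      unfold w
      have : Real.log N ≠ 0 := by linarith
      field_simp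
    rw [this, norm_one, one_mul]
  · have h1 : (fun n : ℕ => w n - w (n + 1)) =O[atTop] (fun n : ℕ => Real.log n / (n * (n + 1))) := by
      refine IsBigO.of_bound 1 ?_
      filter_upwards [eventually_ge_atTop 3] with n hn
      rw [Real.norm_eq_abs, one_mul]
      exact (w_diff hn).trans (le_abs_self _)
    have h2 : (fun n : ℕ => A f n * (w n - w (n + 1))) =o[atTop] (fun n : ℕ => 1 / ((n : ℝ) + 1)) := by
      refine (h.mul_isBigO h1).congr' (EventuallyEq.refl _ _) ?_
      filter_upwards [hlogpos, eventually_ge_atTop 1] with n hn hn1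
      have hn0 : (n : ℝ) ≠ 0 := by
        have : n ≠ 0 := by omega
        exact_mod_cast this
      have h3 : Real.log n ≠ 0 := by linarith
      have h4 : (n : ℝ) + 1 ≠ 0 := by positivity
      field_simp
    have h3 := h2.sum_range (fun n => by positivity) Real.tendsto_sum_range_one_div_nat_succ_atTop
    refine h3.trans_isBigO (IsBigO.of_bound 2 ?_)
    filter_upwards [hlogpos] with N hN
    have h4 : ∑ i ∈ range N, 1 / ((i : ℝ) + 1) = ((harmonic N : ℚ) : ℝ) := by
      unfold harmonic
      push_cast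
      exact Finset.sum_congr rfl fun i _ => by rw [one_div]
    have h5 := harmonic_le_one_add_log N
    rw [Real.norm_of_nonneg (Finset.sum_nonneg fun i _ => by positivity), Real.norm_of_nonneg (by linarith), h4]
    linarith

end Pool.Agent.H11.TW.MERTx

namespace Pool.Agent.H11.TW

open Polynomial Finset Filter Topology Asymptotics MERTx

theorem MERT_main (h : S_PI) : S_MERT := by
  intro f hf hdeg
  have h1 := E_little (A_little (h f hf hdeg))
  obtain ⟨C, hC⟩ := Pool.Agent.Erdos456.Mert.mertens_log
  have hlog : Tendsto (fun N : ℕ => Real.log N) atTop atTop :=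
    Real.tendsto_log_atTop.comp (tendsto_natCast_atTop_atTop (R := ℝ))
  have hlogpos : ∀ᶠ N : ℕ in atTop, 0 < Real.log N := hlog.eventually_gt_atTop 0
  -- Mertens
  have hM : Tendsto (fun N : ℕ => (∑ p ∈ (range (N + 1)).filter Nat.Prime, Real.log p / p) / Real.log N)
      atTop (𝓝 1) := by
    have h2 : Tendsto (fun N : ℕ => (∑ p ∈ (range (N + 1)).filter Nat.Prime, Real.log p / p - Real.log N) /
        Real.log N) atTop (𝓝 0) := by
      apply squeeze_zero_norm' (a := fun N : ℕ => C / Real.log N)
      · filter_upwards [hlogpos, eventually_ge_atTop 1] with N hN hN1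
        rw [norm_div, Real.norm_eq_abs, Real.norm_of_nonneg hN.le]
        gcongr
        have h3 := hC N hN1
        have h4 : (Finset.Icc 1 N).filter Nat.Prime = (range (N + 1)).filter Nat.Prime := by
          ext p
          simp only [Finset.mem_filter, Finset.mem_Icc, Finset.mem_range]
          constructor
          · rintro ⟨⟨_, h5⟩, h6⟩
            exact ⟨by omega, h6⟩
          · rintro ⟨h5, h6⟩
            exact ⟨⟨h6.one_le, by omega⟩, h6⟩
        rwa [h4] at h3
      · exact hlog.const_div_atTop C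
    have h3 := h2.add_const 1
    rw [zero_add] at h3
    refine h3.congr' ?_
    filter_upwards [hlogpos] with N hN
    rw [sub_div, div_self hN.ne', sub_add_cancel]
  have h2 : Tendsto (fun N : ℕ => (∑ n ∈ range (N + 1), c f n * w n) / Real.log N) atTop (𝓝 0) :=
    h1.tendsto_div_nhds_zero
  have h3 := h2.add hM
  rw [zero_add] at h3
  refine h3.congr fun N => ?_
  rw [← add_div]
  congr 1
  rw [Finset.sum_filter, Finset.sum_filter, ← Finset.sum_add_distrib]
  refine Finset.sum_congr rfl fun p _ => ?_
  unfold c w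
  split_ifs with hp
  · ring
  · ring

end Pool.Agent.H11.TW
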