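import Pool.Agent.H11.TW.Stm

/-! # Project TW, stub MERV: Mertens for the ranges `(T^α, T^β]` -/

set_option autoImplicit false

namespace Pool.Agent.H11.TW

open Polynomial Finset Filter Topology

namespace MERVx

theorem rpow_top {γ : ℝ} (hγ : 0 < γ) : Tendsto (fun T : ℕ => (T : ℝ) ^ γ) atTop atTop :=
  (tendsto_rpow_atTop hγ).comp tendsto_natCast_atTop_atTop

theorem log_top : Tendsto (fun T : ℕ => Real.log (T : ℝ)) atTop atTop :=
  Real.tendsto_log_atTop.comp tendsto_natCast_atTop_atTop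

theorem log_floor {γ : ℝ} (hγ : 0 < γ) :
    Tendsto (fun T : ℕ => Real.log (⌊(T : ℝ) ^ γ⌋₊ : ℝ) / Real.log T) atTop (𝓝 γ) := by
  have h1 : Tendsto (fun T : ℕ => γ - Real.log 2 / Real.log T) atTop (𝓝 γ) := by
    have h := (tendsto_const_nhds (x := γ) (f := (atTop : Filter ℕ))).sub (log_top.const_div_atTop (Real.log 2))
    rwa [sub_zero] at h
  refine tendsto_of_tendsto_of_tendsto_of_le_of_le' h1 tendsto_const_nhds ?_ ?_
  · filter_upwards [(rpow_top hγ).eventually_ge_atTop 2, eventually_ge_atTop 2] with T hT hT2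
    have hT1 : (1 : ℝ) < T := by exact_mod_cast (show 1 < T by omega)
    have hl : 0 < Real.log T := Real.log_pos hT1
    have hf := Nat.lt_floor_add_one ((T : ℝ) ^ γ)
    have h3 : (T : ℝ) ^ γ / 2 ≤ (⌊(T : ℝ) ^ γ⌋₊ : ℝ) := by linarith
    have h4 : Real.log ((T : ℝ) ^ γ / 2) ≤ Real.log (⌊(T : ℝ) ^ γ⌋₊ : ℝ) := Real.log_le_log (by linarith) h3
    rw [Real.log_div (by positivity) (by norm_num), Real.log_rpow (by linarith)] at h4
    rw [le_div_iff₀ hl, sub_mul, div_mul_cancel₀ _ hl.ne']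
    exact h4
  · filter_upwards [(rpow_top hγ).eventually_ge_atTop 2, eventually_ge_atTop 2] with T hT hT2
    have hT1 : (1 : ℝ) < T := by exact_mod_cast (show 1 < T by omega)
    have hl : 0 < Real.log T := Real.log_pos hT1
    have h3 : (⌊(T : ℝ) ^ γ⌋₊ : ℝ) ≤ (T : ℝ) ^ γ := Nat.floor_le (by linarith)
    have h0 : (0 : ℝ) < (⌊(T : ℝ) ^ γ⌋₊ : ℝ) := by
      have hf := Nat.lt_floor_add_one ((T : ℝ) ^ γ)
      linarith
    have h4 := Real.log_le_log h0 h3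
    rw [Real.log_rpow (by linarith)] at h4
    rw [div_le_iff₀ hl]
    exact h4

/-- the sum over the primes `≤ N` -/
noncomputable def M (f : ℤ[X]) (N : ℕ) : ℝ := ∑ p ∈ (range (N + 1)).filter Nat.Prime, (rt f p : ℝ) * Real.log p / p

theorem split (f : ℤ[X]) {y z : ℝ} (hy : 0 ≤ y) (hyz : y ≤ z) :
    ∑ p ∈ pr y z, (rt f p : ℝ) * Real.log p / p = M f ⌊z⌋₊ - M f ⌊y⌋₊ := by
  have h1 : ⌊y⌋₊ ≤ ⌊z⌋₊ := Nat.floor_le_floor hyz
  have h2 : (range (⌊y⌋₊ + 1)).filter Nat.Prime ⊆ (range (⌊z⌋₊ + 1)).filter Nat.Prime :=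
    filter_subset_filter _ (range_subset_range.2 (by omega))
  unfold M
  rw [← sum_sdiff h2, add_sub_cancel_right]
  refine sum_congr ?_ fun _ _ => rfl
  ext p
  rw [pr, mem_filter, mem_sdiff (a := p), mem_filter, mem_filter, mem_range, mem_range]
  constructor
  · rintro ⟨h3, h4, h5⟩
    refine ⟨⟨h3, h4⟩, fun h6 => ?_⟩
    have := (Nat.floor_lt hy).2 h5
    omega
  · rintro ⟨⟨h3, h4⟩, h5⟩
    refine ⟨h3, h4, ?_⟩
    rw [← Nat.floor_lt hy]
    by_contra h6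
    exact h5 ⟨by omega, h4⟩

end MERVx

open MERVx in
theorem MERV_main (h : S_MERT) : S_MERV := by
  intro f hf hd α β η hα hαβ hη
  have hβ : 0 < β := hα.trans hαβ
  have key : ∀ γ : ℝ, 0 < γ → Tendsto (fun T : ℕ => M f ⌊(T : ℝ) ^ γ⌋₊ / Real.log T) atTop (𝓝 γ) := by
    intro γ hγ
    have h1 : Tendsto (fun T : ℕ => ⌊(T : ℝ) ^ γ⌋₊) atTop atTop := tendsto_nat_floor_atTop.comp (rpow_top hγ)
    have h2 := ((h f hf hd).comp h1).mul (log_floor hγ)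
    rw [one_mul] at h2
    refine h2.congr' ?_
    filter_upwards [(rpow_top hγ).eventually_ge_atTop 3, eventually_ge_atTop 2] with T hT hT2
    have h0 : (1 : ℝ) < (⌊(T : ℝ) ^ γ⌋₊ : ℝ) := by
      have hf := Nat.lt_floor_add_one ((T : ℝ) ^ γ)
      linarith
    have h3 : Real.log (⌊(T : ℝ) ^ γ⌋₊ : ℝ) ≠ 0 := (Real.log_pos h0).ne'
    show (M f ⌊(T : ℝ) ^ γ⌋₊) / Real.log (⌊(T : ℝ) ^ γ⌋₊ : ℝ) * (Real.log (⌊(T : ℝ) ^ γ⌋₊ : ℝ) / Real.log T) = _
    rw [div_mul_div_cancel₀ h3]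
  have h1 := (key β hβ).sub (key α hα)
  have h2 : ∀ᶠ T : ℕ in atTop, |M f ⌊(T : ℝ) ^ β⌋₊ / Real.log T - M f ⌊(T : ℝ) ^ α⌋₊ / Real.log T - (β - α)| < η := by
    have := (Metric.tendsto_nhds.1 h1) η hη
    filter_upwards [this] with T hT
    rwa [Real.dist_eq] at hT
  filter_upwards [h2, eventually_ge_atTop 2] with T hT hT2
  have hT1 : (1 : ℝ) < T := by exact_mod_cast (show 1 < T by omega)
  have hl : 0 < Real.log T := Real.log_pos hT1
  rw [split f (by positivity) (Real.rpow_le_rpow_of_exponent_le hT1.le hαβ.le)]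
  have h3 : M f ⌊(T : ℝ) ^ β⌋₊ - M f ⌊(T : ℝ) ^ α⌋₊ - (β - α) * Real.log T =
      (M f ⌊(T : ℝ) ^ β⌋₊ / Real.log T - M f ⌊(T : ℝ) ^ α⌋₊ / Real.log T - (β - α)) * Real.log T := by
    field_simp
  rw [h3, abs_mul, abs_of_pos hl]
  exact mul_le_mul_of_nonneg_right hT.le hl.le

end Pool.Agent.H11.TW
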