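import Pool.Agent.H11.TW.Stm

set_option autoImplicit false

namespace Pool.Agent.H11.TW

open Polynomial Finset Filter Topology

namespace MULx

theorem pm {a b c d : ℤ} (h1 : Int.gcd a b = 1) (h2 : Int.gcd c d = 1) (hb : b ≠ 0)
    (h : a * d - b * c = 0) : (c = a ∧ d = b) ∨ (c = -a ∧ d = -b) := by
  have e : a * d = b * c := by linarith
  have c1 : IsCoprime a b := Int.isCoprime_iff_gcd_eq_one.mpr h1
  have c2 : IsCoprime c d := Int.isCoprime_iff_gcd_eq_one.mpr h2
  have d1 : a ∣ c := c1.dvd_of_dvd_mul_left ⟨d, by rw [← e]⟩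
  have d2 : c ∣ a := c2.dvd_of_dvd_mul_right ⟨b, by rw [e]; ring⟩
  have d3 : b ∣ d := c1.symm.dvd_of_dvd_mul_left ⟨c, by rw [← e]⟩
  have d4 : d ∣ b := c2.symm.dvd_of_dvd_mul_right ⟨a, by rw [← e]; ring⟩
  have n1 : a.natAbs = c.natAbs := Nat.dvd_antisymm (Int.natAbs_dvd_natAbs.mpr d1)
    (Int.natAbs_dvd_natAbs.mpr d2)
  have n2 : b.natAbs = d.natAbs := Nat.dvd_antisymm (Int.natAbs_dvd_natAbs.mpr d3)
    (Int.natAbs_dvd_natAbs.mpr d4)
  rcases Int.natAbs_eq_natAbs_iff.mp n1 with r1 | r1 <;>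
  rcases Int.natAbs_eq_natAbs_iff.mp n2 with r2 | r2
  · left; exact ⟨r1.symm, r2.symm⟩
  · -- c = a, d = -b
    have hd : d = -b := by linarith
    have : a * b = 0 := by
      rw [hd, ← r1] at e
      linarith
    rcases mul_eq_zero.mp this with z | z
    · right
      refine ⟨by rw [← r1, z]; simp, hd⟩
    · exact absurd z hb
  · have hc : c = -a := by linarith
    have : a * b = 0 := by
      rw [hc, ← r2] at e
      linarith
    rcases mul_eq_zero.mp this with z | z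
    · left
      refine ⟨by rw [hc, z]; simp, r2.symm⟩
    · exact absurd z hb
  · right; exact ⟨by linarith, by linarith⟩

theorem detb {T : ℕ} {v w : ℤ × ℤ} (hv : v ∈ bx T) (hw : w ∈ bx T) : (det v w).natAbs ≤ 2 * T ^ 2 := by
  unfold bx at hv hw
  simp only [mem_filter, mem_product, mem_Icc] at hv hw
  obtain ⟨⟨⟨a1, a2⟩, a3, a4⟩, -⟩ := hv
  obtain ⟨⟨⟨b1, b2⟩, b3, b4⟩, -⟩ := hw
  have h1 : |v.1 * w.2| ≤ (T : ℤ) * T := by
    rw [abs_mul]
    exact mul_le_mul (abs_le.mpr ⟨a1, a2⟩) (abs_le.mpr ⟨b3, b4⟩) (abs_nonneg _) (by positivity)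
  have h2 : |v.2 * w.1| ≤ (T : ℤ) * T := by
    rw [abs_mul]
    exact mul_le_mul (abs_le.mpr ⟨a3, a4⟩) (abs_le.mpr ⟨b1, b2⟩) (abs_nonneg _) (by positivity)
  have h3 : |det v w| ≤ 2 * (T : ℤ) ^ 2 := by
    unfold det
    have := abs_sub (v.1 * w.2) (v.2 * w.1)
    nlinarith
  have : ((det v w).natAbs : ℤ) ≤ ((2 * T ^ 2 : ℕ) : ℤ) := by
    rw [Int.natCast_natAbs]; push_cast; exact h3
  exact_mod_cast this

end MULx

open MULx in
theorem MUL_main (h : S_CLS) : S_MUL := by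
  classical
  intro f D hf hD
  obtain ⟨B, hB⟩ := h f D hf hD
  refine ⟨B, ?_⟩
  intro T K P hP hK hprod
  have key : ∀ p : ℕ, ∃ κ : ℤ × ℤ → Fin (f.natDegree + 1), p ∈ P → ∀ v w : ℤ × ℤ,
      gc v = 1 → gc w = 1 → (p : ℤ) ∣ hom f D v.1 v.2 → (p : ℤ) ∣ hom f D w.1 w.2 → κ v = κ w →
      (p : ℤ) ∣ det v w := by
    intro p
    by_cases hp : p ∈ P
    · obtain ⟨κ, hκ⟩ := hB p (hP p hp).1 (hP p hp).2
      exact ⟨κ, fun _ => hκ⟩
    · exact ⟨fun _ => 0, fun h => absurd h hp⟩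
  choose κ hκ using key
  set S := (bx T).filter (fun v => gc v = 1 ∧ ∀ p ∈ P, (p : ℤ) ∣ hom f D v.1 v.2) with hS
  let Φ : ℤ × ℤ → (P → Fin (f.natDegree + 1)) := fun v p => κ p v
  have fib : ∀ a ∈ S.image Φ, (S.filter fun x => Φ x = a).card ≤ 2 := by
    intro a ha
    obtain ⟨v, hv, rfl⟩ := Finset.mem_image.mp ha
    have sub : (S.filter fun x => Φ x = Φ v) ⊆ {v, (-v.1, -v.2)} := by
      intro w hw
      rw [mem_filter] at hw
      obtain ⟨hw, he⟩ := hw
      rw [hS, mem_filter] at hv hw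
      have hd : ∀ p ∈ P, p ∣ (det v w).natAbs := by
        intro p hp
        have := hκ p hp v w hv.2.1 hw.2.1 (hv.2.2 p hp) (hw.2.2 p hp)
          (by have := congrFun he ⟨p, hp⟩; exact this.symm)
        exact Int.natCast_dvd.mp this
      have hpd : ∏ p ∈ P, p ∣ (det v w).natAbs :=
        Finset.prod_primes_dvd _ (fun p hp => (hP p hp).1.prime) hd
      have h0 : (det v w).natAbs = 0 := by
        by_contra hne
        have := Nat.le_of_dvd (Nat.pos_of_ne_zero hne) hpd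
        have := detb hv.1 hw.1
        omega
      have h0' : det v w = 0 := Int.natAbs_eq_zero.mp h0
      have hb : v.2 ≠ 0 := by
        have := hv.1
        unfold bx at this
        exact (mem_filter.mp this).2
      unfold det at h0'
      rcases pm hv.2.1 hw.2.1 hb h0' with r | r
      · rw [Finset.mem_insert]; left
        exact Prod.ext r.1 r.2
      · rw [Finset.mem_insert, Finset.mem_singleton]; right
        exact Prod.ext r.1 r.2
    exact (Finset.card_le_card sub).trans Finset.card_le_two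
  have h1 := Finset.card_le_mul_card_image S 2 fib
  have h2 : (S.image Φ).card ≤ (f.natDegree + 1) ^ P.card := by
    refine (Finset.card_le_univ _).trans ?_
    rw [Fintype.card_fun, Fintype.card_fin, Fintype.card_coe]
  have h3 : (f.natDegree + 1) ^ P.card ≤ (f.natDegree + 1) ^ K :=
    Nat.pow_le_pow_right (Nat.succ_pos _) hK
  calc S.card ≤ 2 * (S.image Φ).card := h1
    _ ≤ 2 * (f.natDegree + 1) ^ K := Nat.mul_le_mul_left _ (h2.trans h3)

end Pool.Agent.H11.TW
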