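import Pool.Agent.H11.TW.Stm
import Pool.Agent.H11.V.R_seed8_H484R2_Pit
import Pool.Agent.H11.V.R_seed8_H474R2_GE_RhoHoms
import Pool.Agent.H11.V.R_seed8_H474R2_PG_HomsRho

set_option autoImplicit false

namespace Pool.Agent.H11.TW

open Polynomial Finset Filter Topology NumberField

namespace PIx

lemma split (u v : ℕ → ℕ) (B : ℕ) (h : ∀ p : ℕ, p.Prime → B < p → u p ≤ v p) (N : ℕ) :
    (∑ p ∈ (range (N + 1)).filter Nat.Prime, (u p : ℝ)) ≤
      (∑ p ∈ (range (N + 1)).filter Nat.Prime, (v p : ℝ)) + ∑ p ∈ range (B + 1), (u p : ℝ) := by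
  have h1 : (∑ p ∈ (range (N + 1)).filter Nat.Prime, (u p : ℝ)) ≤
      ∑ p ∈ (range (N + 1)).filter Nat.Prime, ((v p : ℝ) + if p ∈ range (B + 1) then (u p : ℝ) else 0) := by
    refine sum_le_sum fun p hp => ?_
    have hpp := (mem_filter.1 hp).2
    by_cases hB : p ∈ range (B + 1)
    · rw [if_pos hB]
      have : (0 : ℝ) ≤ v p := Nat.cast_nonneg _
      linarith
    · rw [if_neg hB, add_zero]
      exact_mod_cast h p hpp (by simpa using hB)
  refine h1.trans ?_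
  rw [sum_add_distrib]
  refine add_le_add_right ?_ _ |>.trans_eq rfl
  rw [← sum_filter]
  refine sum_le_sum_of_subset_of_nonneg ?_ fun p _ _ => Nat.cast_nonneg _
  intro p hp
  exact (mem_filter.1 hp).2

end PIx

theorem PI_main : S_PI := by
  intro f hf hd
  obtain ⟨K1, iF1, iN1, B1, hB1⟩ := Pool.Agent.H474R2.GE.rho_le_homs f hf hd
  obtain ⟨K2, iF2, iN2, B2, hB2⟩ := Pool.Agent.H474R2.PG.homs_le_rho f hf hd
  have t1 := @Pool.Agent.H484R2.pit K1 iF1 iN1
  have t2 := @Pool.Agent.H484R2.pit K2 iF2 iN2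
  have hpi : Tendsto (fun N : ℕ => (Nat.primeCounting N : ℝ)) atTop atTop :=
    tendsto_natCast_atTop_atTop.comp Nat.tendsto_primeCounting
  have c1 : Tendsto (fun N : ℕ => (∑ p ∈ range (B1 + 1), (rt f p : ℝ)) / (Nat.primeCounting N : ℝ)) atTop (𝓝 0) :=
    tendsto_const_nhds.div_atTop hpi
  have c2 : Tendsto (fun N : ℕ => (∑ p ∈ range (B2 + 1), (Nat.card (𝓞 K2 →+* ZMod p) : ℝ)) /
      (Nat.primeCounting N : ℝ)) atTop (𝓝 0) :=
    tendsto_const_nhds.div_atTop hpi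
  have u1 := t1.add c1
  have u2 := t2.sub c2
  rw [add_zero] at u1
  rw [sub_zero] at u2
  refine tendsto_of_tendsto_of_tendsto_of_le_of_le u2 u1 (fun N => ?_) (fun N => ?_)
  · have h := PIx.split (fun p => Nat.card (𝓞 K2 →+* ZMod p)) (rt f) B2 (fun p hp hB => hB2 p hp hB) N
    show _ / _ - _ / _ ≤ _ / _
    rw [← sub_div]
    exact div_le_div_of_nonneg_right (by linarith) (Nat.cast_nonneg _)
  · have h := PIx.split (rt f) (fun p => Nat.card (𝓞 K1 →+* ZMod p)) B1 (fun p hp hB => hB1 p hp hB) N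
    show _ / _ ≤ _ / _ + _ / _
    rw [← add_div]
    exact div_le_div_of_nonneg_right (by linarith) (Nat.cast_nonneg _)

end Pool.Agent.H11.TW
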