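import Pool.Agent.H11.TW.Stm

/-!
# Many zeros of a form modulo a large prime in a box
-/

set_option autoImplicit false

namespace Pool.Agent.H11.TW

namespace PIGx

open Finset Polynomial

lemma hom_dvd (g : ℤ[X]) {p : ℕ} {r a b : ℤ} (hr : (p : ℤ) ∣ g.eval r) (h : (p : ℤ) ∣ a - r * b) :
    (p : ℤ) ∣ hom g g.natDegree a b := by
  have h1 : hom g g.natDegree (r * b) b = b ^ g.natDegree * g.eval r := by
    unfold hom
    rw [Polynomial.eval_eq_sum_range, Finset.mul_sum]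
    refine Finset.sum_congr rfl fun i hi => ?_
    have hi' : i ≤ g.natDegree := by
      have := Finset.mem_range.1 hi; omega
    obtain ⟨k, hk⟩ := Nat.exists_eq_add_of_le hi'
    rw [hk, Nat.add_sub_cancel_left, mul_pow, pow_add]
    ring
  have h2 : hom g g.natDegree a b ≡ hom g g.natDegree (r * b) b [ZMOD p] := by
    unfold hom
    have hab : a ≡ r * b [ZMOD p] := (Int.modEq_iff_dvd.2 (by
      have : r * b - a = -(a - r * b) := by ring
      rw [this]; exact (dvd_neg).2 h))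
    refine Int.ModEq.sum fun i _ => ?_
    exact Int.ModEq.mul_right _ (Int.ModEq.mul_left _ (hab.pow i))
  rw [h1] at h2
  have h3 : b ^ g.natDegree * g.eval r ≡ 0 [ZMOD p] :=
    Int.modEq_zero_iff_dvd.2 (Dvd.dvd.mul_left hr _)
  exact Int.modEq_zero_iff_dvd.1 (h2.trans h3)

lemma vectors {p T : ℕ} (hp : p.Prime) (hT : T < p) (r : ℤ) :
    ∃ V : Finset (ℤ × ℤ), V ⊆ bx T ∧ (∀ v ∈ V, (p : ℤ) ∣ v.1 - r * v.2) ∧
      (T : ℝ) ^ 2 / p - 1 ≤ (V.card : ℝ) := by
  classical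
  have : Fact p.Prime := ⟨hp⟩
  have : NeZero p := ⟨hp.ne_zero⟩
  let S : Finset (ℤ × ℤ) := Finset.Icc (0 : ℤ) T ×ˢ Finset.Icc (0 : ℤ) T
  have hS : S.card = (T + 1) ^ 2 := by
    simp only [S, Finset.card_product, Int.card_Icc]
    have : ((T : ℤ) + 1 - 0).toNat = T + 1 := by omega
    rw [this]; ring
  have hp0 : (0 : ℝ) < p := by exact_mod_cast hp.pos
  obtain ⟨y, -, hy⟩ := Finset.exists_le_card_fiber_of_nsmul_le_card_of_maps_to
    (s := S) (t := (Finset.univ : Finset (ZMod p))) (b := ((T : ℝ) + 1) ^ 2 / p)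
    (f := fun v => ((v.1 - r * v.2 : ℤ) : ZMod p)) (fun _ _ => Finset.mem_univ _) Finset.univ_nonempty
    (by
      rw [Finset.card_univ, ZMod.card, nsmul_eq_mul, hS]
      push_cast
      rw [mul_div_cancel₀ _ hp0.ne'])
  obtain ⟨Q, hQ⟩ : ∃ Q, Q = S.filter (fun v => ((v.1 - r * v.2 : ℤ) : ZMod p) = y) := ⟨_, rfl⟩
  rw [← hQ] at hy
  have hQne : Q.Nonempty := by
    rw [← Finset.card_pos]
    have : (0 : ℝ) < (Q.card : ℝ) := lt_of_lt_of_le (by positivity) hy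
    exact_mod_cast this
  obtain ⟨v₀, hv₀⟩ := hQne
  have hinj : Function.Injective (fun v : ℤ × ℤ => v - v₀) := fun a b h => sub_left_injective h
  refine ⟨(Q.erase v₀).map ⟨_, hinj⟩, ?_, ?_, ?_⟩
  · intro w hw
    obtain ⟨v, hv, rfl⟩ := Finset.mem_map.1 hw
    obtain ⟨hne, hvQ⟩ := Finset.mem_erase.1 hv
    rw [hQ] at hvQ hv₀
    obtain ⟨hvS, hvy⟩ := Finset.mem_filter.1 hvQ
    obtain ⟨hvS', hvy'⟩ := Finset.mem_filter.1 hv₀
    simp only [S, Finset.mem_product, Finset.mem_Icc] at hvS hvS'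
    simp only [Function.Embedding.coeFn_mk, bx, Finset.mem_filter, Finset.mem_product, Finset.mem_Icc,
      Prod.fst_sub, Prod.snd_sub]
    refine ⟨⟨⟨by omega, by omega⟩, ⟨by omega, by omega⟩⟩, ?_⟩
    intro hb
    have h1 : ((v.1 - r * v.2 : ℤ) : ZMod p) = ((v₀.1 - r * v₀.2 : ℤ) : ZMod p) := hvy.trans hvy'.symm
    rw [ZMod.intCast_eq_intCast_iff_dvd_sub] at h1
    have h2 : v.2 = v₀.2 := by omega
    rw [h2] at h1
    have h3 : (p : ℤ) ∣ v₀.1 - v.1 := by
      have : v₀.1 - r * v₀.2 - (v.1 - r * v₀.2) = v₀.1 - v.1 := by ring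
      rwa [this] at h1
    have h4 : v₀.1 - v.1 = 0 := by
      refine Int.eq_zero_of_abs_lt_dvd h3 ?_
      rw [abs_lt]
      constructor <;> omega
    exact hne (Prod.ext (by omega) h2)
  · intro w hw
    obtain ⟨v, hv, rfl⟩ := Finset.mem_map.1 hw
    obtain ⟨hne, hvQ⟩ := Finset.mem_erase.1 hv
    rw [hQ] at hvQ hv₀
    obtain ⟨hvS, hvy⟩ := Finset.mem_filter.1 hvQ
    obtain ⟨hvS', hvy'⟩ := Finset.mem_filter.1 hv₀
    have h1 : ((v₀.1 - r * v₀.2 : ℤ) : ZMod p) = ((v.1 - r * v.2 : ℤ) : ZMod p) := hvy'.trans hvy.symm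
    rw [ZMod.intCast_eq_intCast_iff_dvd_sub] at h1
    simp only [Function.Embedding.coeFn_mk, Prod.fst_sub, Prod.snd_sub]
    have : v.1 - v₀.1 - r * (v.2 - v₀.2) = v.1 - r * v.2 - (v₀.1 - r * v₀.2) := by ring
    rw [this]; exact h1
  · rw [Finset.card_map, Finset.card_erase_of_mem hv₀]
    have h1 : 1 ≤ Q.card := Finset.card_pos.2 ⟨v₀, hv₀⟩
    rw [Nat.cast_sub h1]
    have h2 : (T : ℝ) ^ 2 / p ≤ ((T : ℝ) + 1) ^ 2 / p := by
      have : (0 : ℝ) ≤ T := by positivity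
      gcongr
      linarith
    push_cast
    linarith

end PIGx

open PIGx in
theorem PIG_main : S_PIG := by
  intro g p T hp hT0 hT
  classical
  choose V hV1 hV2 hV3 using fun r : ℤ => vectors hp hT r
  obtain ⟨rs, hrs⟩ : ∃ rs, rs = (Finset.range p).filter (fun a : ℕ => (p : ℤ) ∣ g.eval (a : ℤ)) := ⟨_, rfl⟩
  have hdisj : (rs : Set ℕ).PairwiseDisjoint (fun r : ℕ => V (r : ℤ)) := by
    intro r hr r' hr' hne
    refine Finset.disjoint_left.2 fun v hv hv' => ?_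
    have h1 := hV2 r v hv
    have h2 := hV2 r' v hv'
    have hb := hV1 r hv
    simp only [bx, Finset.mem_filter, Finset.mem_product, Finset.mem_Icc] at hb
    have h3 : (p : ℤ) ∣ ((r : ℤ) - r') * v.2 := by
      have : ((r : ℤ) - r') * v.2 = (v.1 - r' * v.2) - (v.1 - r * v.2) := by ring
      rw [this]; exact dvd_sub h2 h1
    have hpp : Prime (p : ℤ) := Nat.prime_iff_prime_int.1 hp
    rw [hrs] at hr hr'
    have hr1 : r < p := Finset.mem_range.1 (Finset.mem_filter.1 (Finset.mem_coe.1 hr)).1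
    have hr2 : r' < p := Finset.mem_range.1 (Finset.mem_filter.1 (Finset.mem_coe.1 hr')).1
    rcases hpp.dvd_or_dvd h3 with h | h
    · have : (r : ℤ) - r' = 0 := by
        refine Int.eq_zero_of_abs_lt_dvd h ?_
        rw [abs_lt]; constructor <;> omega
      omega
    · have : v.2 = 0 := by
        refine Int.eq_zero_of_abs_lt_dvd h ?_
        rw [abs_lt]; constructor <;> omega
      exact hb.2 this
  have hsub : rs.biUnion (fun r : ℕ => V (r : ℤ)) ⊆
      (bx T).filter (fun v => (p : ℤ) ∣ hom g g.natDegree v.1 v.2) := by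
    intro v hv
    obtain ⟨r, hr, hvr⟩ := Finset.mem_biUnion.1 hv
    rw [hrs] at hr
    exact Finset.mem_filter.2 ⟨hV1 r hvr, hom_dvd g (Finset.mem_filter.1 hr).2 (hV2 r v hvr)⟩
  have hcard : ∑ r ∈ rs, (V (r : ℤ)).card ≤
      ((bx T).filter (fun v => (p : ℤ) ∣ hom g g.natDegree v.1 v.2)).card := by
    rw [← Finset.card_biUnion hdisj]
    exact Finset.card_le_card hsub
  have hrt : rt g p = rs.card := by rw [hrs]; rfl
  calc (rt g p : ℝ) * ((T : ℝ) ^ 2 / p - 1) = ∑ r ∈ rs, ((T : ℝ) ^ 2 / p - 1) := by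
        rw [Finset.sum_const, nsmul_eq_mul, hrt]
    _ ≤ ∑ r ∈ rs, ((V (r : ℤ)).card : ℝ) := Finset.sum_le_sum fun r _ => hV3 r
    _ ≤ _ := by exact_mod_cast hcard

end Pool.Agent.H11.TW
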