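import Pool.Agent.H11.TW.Stm

set_option autoImplicit false

namespace Pool.Agent.H11.TW.PRIx

open Polynomial Finset Filter Topology

theorem bx_iff {T : ℕ} {v : ℤ × ℤ} : v ∈ bx T ↔ (|v.1| ≤ T ∧ |v.2| ≤ T) ∧ v.2 ≠ 0 := by
  unfold bx
  rw [mem_filter, mem_product, mem_Icc, mem_Icc, abs_le, abs_le]

theorem abs_red {g x w : ℤ} (hg : 1 ≤ g) (h : x = g * w) : |w| ≤ |x| := by
  rw [h, abs_mul, abs_of_nonneg (by omega : (0 : ℤ) ≤ g)]
  nlinarith [abs_nonneg w]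

theorem wt_eq (f : ℤ[X]) (D : ℕ) (y z : ℝ) (v w : ℤ × ℤ) (g : ℕ) (hg : 0 < g) (hgy : (g : ℝ) < y)
    (hh : hom f D v.1 v.2 = (g : ℤ) ^ D * hom f D w.1 w.2) : wt f D y z v = wt f D y z w := by
  unfold wt
  congr 1
  refine filter_congr fun p hp => ?_
  unfold pr at hp
  rw [mem_filter] at hp
  obtain ⟨-, h1, h2⟩ := hp
  have hp1 : Prime (p : ℤ) := Nat.prime_iff_prime_int.1 h1
  rw [hh]
  constructor
  · intro h
    rcases hp1.dvd_or_dvd h with h3 | h3
    · exfalso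
      have h4 := hp1.dvd_of_dvd_pow h3
      have h5 : p ∣ g := by exact_mod_cast h4
      have h6 := Nat.le_of_dvd hg h5
      have h7 : (g : ℝ) < p := hgy.trans h2
      have h8 : (g : ℕ) < p := by exact_mod_cast h7
      omega
    · exact h3
  · exact fun h => h.mul_left _

end PRIx

open Polynomial Finset Filter Topology in
theorem PRI_main (h : S_DVD) : S_PRI := by
  classical
  intro f D E c hf hD hc hE hev
  have l1 : Tendsto (fun T : ℕ => (T : ℝ) ^ (1 / 10000 : ℝ)) atTop atTop :=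
    (tendsto_rpow_atTop (by norm_num)).comp tendsto_natCast_atTop_atTop
  filter_upwards [hev, l1.eventually_gt_atTop (E : ℝ), eventually_ge_atTop 1] with T e1 e2 e3
  have hT : (1 : ℝ) ≤ T := by exact_mod_cast e3
  have e4 : (T : ℝ) ^ (1 / 10000 : ℝ) ≤ T := by
    calc (T : ℝ) ^ (1 / 10000 : ℝ) ≤ (T : ℝ) ^ (1 : ℝ) :=
          Real.rpow_le_rpow_of_exponent_le hT (by norm_num)
      _ = T := Real.rpow_one _
  set A := (Hv f D T).filter (fun v => gc v ≤ E) with hA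
  set B := (Hv f D T).filter (fun v => gc v = 1) with hB
  have hcard : A.card ≤ (Icc 1 E ×ˢ B).card := by
    refine card_le_card_of_injOn (fun v => (gc v, (v.1 / gc v, v.2 / gc v))) ?_ ?_
    · intro v hv
      rw [mem_coe, hA, mem_filter] at hv
      obtain ⟨hv1, hv2⟩ := hv
      unfold Hv at hv1
      rw [mem_filter, PRIx.bx_iff] at hv1
      obtain ⟨⟨⟨b1, b2⟩, b3⟩, b4, b5⟩ := hv1
      have hg : 0 < gc v := Int.gcd_pos_of_ne_zero_right _ b3
      have hg1 : (1 : ℤ) ≤ gc v := by exact_mod_cast hg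
      have d1 : v.1 = (gc v : ℤ) * (v.1 / gc v) :=
        (Int.mul_ediv_cancel' (Int.gcd_dvd_left v.1 v.2)).symm
      have d2 : v.2 = (gc v : ℤ) * (v.2 / gc v) :=
        (Int.mul_ediv_cancel' (Int.gcd_dvd_right v.1 v.2)).symm
      have d3 : gc (v.1 / gc v, v.2 / gc v) = 1 := Int.gcd_ediv_gcd_ediv_gcd hg
      have d4 : hom f D v.1 v.2 = (gc v : ℤ) ^ D * hom f D (v.1 / gc v) (v.2 / gc v) := by
        rw [← h.2 f D (gc v) (v.1 / gc v) (v.2 / gc v) hD, ← d1, ← d2]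
      have d5 : hom f D (v.1 / gc v) (v.2 / gc v) ≠ 0 := by
        intro h0
        rw [h0, mul_zero] at d4
        exact b4 d4
      have d6 : v.2 / (gc v : ℤ) ≠ 0 := by
        intro h0
        rw [h0, mul_zero] at d2
        exact b3 d2
      have hgE : (gc v : ℝ) ≤ E := by exact_mod_cast hv2
      rw [mem_coe, mem_product, mem_Icc]
      refine ⟨⟨hg, hv2⟩, ?_⟩
      rw [hB, mem_filter]
      refine ⟨?_, d3⟩
      unfold Hv
      rw [mem_filter, PRIx.bx_iff]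
      refine ⟨⟨⟨(PRIx.abs_red hg1 d1).trans b1, (PRIx.abs_red hg1 d2).trans b2⟩, d6⟩, d5, ?_⟩
      rw [← PRIx.wt_eq f D ((T : ℝ) ^ (1 / 10000 : ℝ)) ((T : ℝ) ^ (1 - 1 / 10000 : ℝ)) v
        (v.1 / gc v, v.2 / gc v) (gc v) hg (lt_of_le_of_lt hgE e2) d4,
        ← PRIx.wt_eq f D (T : ℝ) ((T : ℝ) ^ (3 / 2 : ℝ)) v
        (v.1 / gc v, v.2 / gc v) (gc v) hg (lt_of_le_of_lt hgE (lt_of_lt_of_le e2 e4)) d4]
      exact b5
    · intro v hv w hw hvw
      simp only [Prod.mk.injEq] at hvw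
      obtain ⟨m1, m2, m3⟩ := hvw
      have d1 : v.1 = (gc v : ℤ) * (v.1 / gc v) :=
        (Int.mul_ediv_cancel' (Int.gcd_dvd_left v.1 v.2)).symm
      have d2 : v.2 = (gc v : ℤ) * (v.2 / gc v) :=
        (Int.mul_ediv_cancel' (Int.gcd_dvd_right v.1 v.2)).symm
      have d3 : w.1 = (gc w : ℤ) * (w.1 / gc w) :=
        (Int.mul_ediv_cancel' (Int.gcd_dvd_left w.1 w.2)).symm
      have d4 : w.2 = (gc w : ℤ) * (w.2 / gc w) :=
        (Int.mul_ediv_cancel' (Int.gcd_dvd_right w.1 w.2)).symm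
      refine Prod.ext ?_ ?_
      · rw [d1, d3, m2, m1]
      · rw [d2, d4, m3, m1]
  rw [card_product, Nat.card_Icc, Nat.add_sub_cancel] at hcard
  have h1 : (A.card : ℝ) ≤ E * B.card := by exact_mod_cast hcard
  have hE0 : (0 : ℝ) < E := by exact_mod_cast hE
  rw [div_mul_eq_mul_div, div_le_iff₀ hE0]
  linarith

end Pool.Agent.H11.TW
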