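import Pool.Agent.H11.TW.Stm

/-! # Project TW: the point of a twist -/

set_option autoImplicit false

namespace Pool.Agent.H11.TW

open Polynomial Finset Filter Topology

/-- a solution of `F(a,b) = d z²` gives a point of the twist -/
theorem PT_main : S_PT := by
  intro f a b d z hb hz h
  have hbq : (b : ℚ) ≠ 0 := by exact_mod_cast hb
  have hzq : (z : ℚ) ≠ 0 := by exact_mod_cast hz
  set k := (f.natDegree + 1) / 2 with hk
  refine ⟨(a : ℚ) / b, (z : ℚ) / (b : ℚ) ^ k, div_ne_zero hzq (pow_ne_zero _ hbq), ?_⟩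
  have hD : dg f = 2 * k := rfl
  have hle : f.natDegree ≤ dg f := by rw [hD]; omega
  have h1 : ((hom f (dg f) a b : ℤ) : ℚ) = (d : ℚ) * (z : ℚ) ^ 2 := by
    rw [h]; push_cast; ring
  have h2 : ((hom f (dg f) a b : ℤ) : ℚ) = (b : ℚ) ^ (dg f) * aeval ((a : ℚ) / b) f := by
    unfold hom
    rw [aeval_eq_sum_range, Finset.mul_sum]
    push_cast
    refine Finset.sum_congr rfl fun i hi => ?_
    have hi' : i ≤ dg f := (Nat.lt_succ_iff.1 (Finset.mem_range.1 hi)).trans hle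
    have h3 : (b : ℚ) ^ (dg f) = (b : ℚ) ^ (dg f - i) * (b : ℚ) ^ i := by
      rw [← pow_add, Nat.sub_add_cancel hi']
    rw [h3, zsmul_eq_mul, div_pow]
    field_simp
  have h4 : ((b : ℚ) ^ k) ^ 2 = (b : ℚ) ^ (dg f) := by
    rw [← pow_mul, hD, mul_comm]
  rw [div_pow, h4, mul_div_assoc', ← h1, h2, mul_div_assoc, mul_comm, div_mul_cancel₀]
  exact pow_ne_zero _ hbq

end Pool.Agent.H11.TW
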