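import Pool.Agent.H11.TW.Stm

/-! # TW-RHO -/

set_option autoImplicit false

open Polynomial Finset Filter Topology

namespace Pool.Agent.H11.TW.RHOx

lemma clear (q : ℚ[X]) : ∃ (d : ℤ) (u : ℤ[X]), d ≠ 0 ∧ u.map (Int.castRingHom ℚ) = C (d : ℚ) * q := by
  obtain ⟨b, hb⟩ := IsLocalization.integerNormalization_map_to_map (nonZeroDivisors ℤ) q
  refine ⟨(b : ℤ), IsLocalization.integerNormalization (nonZeroDivisors ℤ) q,
    nonZeroDivisors.coe_ne_zero b, ?_⟩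
  have h1 : (Int.castRingHom ℚ) = algebraMap ℤ ℚ := rfl
  rw [h1, hb]
  rw [← smul_eq_C_mul]
  exact (Int.cast_smul_eq_zsmul ℚ (b : ℤ) q).symm

lemma bezout {g h : ℤ[X]} (hc : IsCoprime (g.map (Int.castRingHom ℚ)) (h.map (Int.castRingHom ℚ))) :
    ∃ (N : ℤ) (u w : ℤ[X]), N ≠ 0 ∧ u * g + w * h = C N := by
  obtain ⟨a, b, hab⟩ := hc
  obtain ⟨d, u, hd, hu⟩ := clear a
  obtain ⟨e, w, he, hw⟩ := clear b
  refine ⟨d * e, C e * u, C d * w, mul_ne_zero hd he, ?_⟩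
  apply Polynomial.map_injective (Int.castRingHom ℚ) Int.cast_injective
  simp only [Polynomial.map_add, Polynomial.map_mul, map_C, Int.coe_castRingHom, hu, hw, Int.cast_mul, C_mul]
  linear_combination (C (d : ℚ) * C (e : ℚ)) * hab

end Pool.Agent.H11.TW.RHOx

namespace Pool.Agent.H11.TW

open RHOx in
theorem RHO_main : S_RHO := by
  classical
  intro f s hs
  obtain ⟨hs1, hs2⟩ := hs
  have h1 : ∀ g h : ℤ[X], ∃ N : ℤ, g ∈ s → h ∈ s → g ≠ h → N ≠ 0 ∧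
      ∀ (p : ℕ) (a : ℤ), (p : ℤ) ∣ g.eval a → (p : ℤ) ∣ h.eval a → (p : ℤ) ∣ N := by
    intro g h
    by_cases hgh : g ∈ s ∧ h ∈ s ∧ g ≠ h
    · obtain ⟨N, u, w, hN, e⟩ := bezout (hs2 g hgh.1 h hgh.2.1 hgh.2.2)
      refine ⟨N, fun _ _ _ => ⟨hN, fun p a hg hh => ?_⟩⟩
      have h2 := congrArg (Polynomial.eval a) e
      rw [eval_add, eval_mul, eval_mul, eval_C] at h2
      rw [← h2]
      exact dvd_add (hg.mul_left _) (hh.mul_left _)
    · exact ⟨0, fun h2 h3 h4 => absurd ⟨h2, h3, h4⟩ hgh⟩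
  choose N hN using h1
  refine ⟨∑ g ∈ s, ∑ h ∈ s, (N g h).natAbs, fun p hp hB => ?_⟩
  have hdis : ∀ g ∈ s, ∀ h ∈ s, g ≠ h →
      Disjoint ((Finset.range p).filter (fun a : ℕ => (p : ℤ) ∣ g.eval (a : ℤ)))
        ((Finset.range p).filter (fun a : ℕ => (p : ℤ) ∣ h.eval (a : ℤ))) := by
    intro g hg h hh hgh
    rw [Finset.disjoint_left]
    intro a ha hb
    rw [Finset.mem_filter] at ha hb
    obtain ⟨h2, h3⟩ := hN g h hg hh hgh
    have h4 := h3 p a ha.2 hb.2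
    have h5 := Int.natAbs_dvd_natAbs.2 h4
    rw [Int.natAbs_natCast] at h5
    have h6 := Nat.le_of_dvd (Int.natAbs_pos.2 h2) h5
    have h7 : (N g h).natAbs ≤ ∑ h ∈ s, (N g h).natAbs :=
      Finset.single_le_sum (f := fun h => (N g h).natAbs) (fun _ _ => Nat.zero_le _) hh
    have h8 : ∑ h ∈ s, (N g h).natAbs ≤ ∑ g ∈ s, ∑ h ∈ s, (N g h).natAbs :=
      Finset.single_le_sum (f := fun g => ∑ h ∈ s, (N g h).natAbs) (fun _ _ => Nat.zero_le _) hg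
    omega
  unfold rt
  rw [← Finset.card_biUnion hdis]
  refine Finset.card_le_card fun a ha => ?_
  rw [Finset.mem_biUnion] at ha
  obtain ⟨g, hg, ha⟩ := ha
  rw [Finset.mem_filter] at ha ⊢
  exact ⟨ha.1, ha.2.trans (eval_dvd (hs1 g hg).2.2)⟩

end Pool.Agent.H11.TW
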