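import Pool.Agent.H11.TW.Stm

/-! # TW-RTB -/

set_option autoImplicit false

open Polynomial Finset Filter Topology

namespace Pool.Agent.H11.TW.RTBx

lemma eval_map (f : ℤ[X]) (p a : ℕ) :
    (f.map (Int.castRingHom (ZMod p))).eval (a : ZMod p) = ((f.eval (a : ℤ) : ℤ) : ZMod p) := by
  have h := Polynomial.eval_intCast_map (Int.castRingHom (ZMod p)) f (a : ℤ)
  simpa using h

end Pool.Agent.H11.TW.RTBx

namespace Pool.Agent.H11.TW

open RTBx in
theorem RTB_main : S_RTB := by
  classical
  intro f hf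
  have hlc : f.leadingCoeff ≠ 0 := leadingCoeff_ne_zero.2 hf
  refine ⟨f.leadingCoeff.natAbs, fun p hp hB => ?_⟩
  have hnd : ¬ (p : ℤ) ∣ f.leadingCoeff := by
    intro h
    have h1 := Int.natAbs_dvd_natAbs.2 h
    rw [Int.natAbs_natCast] at h1
    have h2 := Nat.le_of_dvd (Int.natAbs_pos.2 hlc) h1
    omega
  refine ⟨?_, hnd⟩
  have : Fact p.Prime := ⟨hp⟩
  have hm : f.map (Int.castRingHom (ZMod p)) ≠ 0 := by
    intro h
    have h1 := congrArg (fun q : (ZMod p)[X] => q.coeff f.natDegree) h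
    simp only [coeff_map, coeff_zero, eq_intCast, coeff_natDegree] at h1
    exact hnd ((ZMod.intCast_zmod_eq_zero_iff_dvd _ _).1 h1)
  unfold rt
  have h1 : ((Finset.range p).filter (fun a : ℕ => (p : ℤ) ∣ f.eval (a : ℤ))).card ≤
      (f.map (Int.castRingHom (ZMod p))).roots.toFinset.card := by
    refine Finset.card_le_card_of_injOn (fun a : ℕ => (a : ZMod p)) ?_ ?_
    · intro a ha
      rw [Finset.mem_coe, Finset.mem_filter] at ha
      rw [Finset.mem_coe, Multiset.mem_toFinset, mem_roots hm, IsRoot.def, eval_map]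
      exact (ZMod.intCast_zmod_eq_zero_iff_dvd _ _).2 ha.2
    · intro a ha b hb hab
      rw [Finset.mem_coe, Finset.mem_filter, Finset.mem_range] at ha hb
      have h2 := (ZMod.natCast_eq_natCast_iff' a b p).1 hab
      rwa [Nat.mod_eq_of_lt ha.1, Nat.mod_eq_of_lt hb.1] at h2
  refine h1.trans ((Multiset.toFinset_card_le _).trans ((card_roots' _).trans ?_))
  exact natDegree_map_le

end Pool.Agent.H11.TW
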