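import Pool.Agent.H11.TW.Stm

set_option autoImplicit false

namespace Pool.Agent.H11.TW.SQx

open Polynomial Finset Filter Topology

theorem mem_bx {T : ℕ} {v : ℤ × ℤ} (h : v ∈ bx T) : |v.1| ≤ T ∧ |v.2| ≤ T := by
  unfold bx at h
  rw [mem_filter, mem_product, mem_Icc, mem_Icc] at h
  exact ⟨abs_le.2 h.1.1, abs_le.2 h.1.2⟩

theorem sum_inv (y : ℝ) (hy : 1 ≤ y) (N : ℕ) (P : Finset ℕ) (hP : ∀ p ∈ P, y < p ∧ p ≤ N) :
    ∑ p ∈ P, (1 : ℝ) / (p : ℝ) ^ 2 ≤ 2 / y := by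
  have h1 : P ⊆ Ioo ⌊y⌋₊ (N + 1) := by
    intro p hp
    obtain ⟨h2, h3⟩ := hP p hp
    rw [mem_Ioo]
    exact ⟨(Nat.floor_lt (by linarith)).2 h2, by omega⟩
  calc ∑ p ∈ P, (1 : ℝ) / (p : ℝ) ^ 2 ≤ ∑ p ∈ Ioo ⌊y⌋₊ (N + 1), (1 : ℝ) / (p : ℝ) ^ 2 :=
        sum_le_sum_of_subset_of_nonneg h1 fun _ _ _ => by positivity
    _ = ∑ p ∈ Ioo ⌊y⌋₊ (N + 1), ((p : ℝ) ^ 2)⁻¹ := by simp only [one_div]
    _ ≤ 2 / ((⌊y⌋₊ : ℝ) + 1) := by exact_mod_cast sum_Ioo_inv_sq_le (α := ℝ) ⌊y⌋₊ (N + 1)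
    _ ≤ 2 / y := by
        apply div_le_div_of_nonneg_left (by norm_num) (by linarith)
        exact (Nat.lt_floor_add_one y).le

theorem count (f : ℤ[X]) (D : ℕ) (h1 : S_LAT) {B1 B2 : ℕ}
    (hB1 : ∀ p : ℕ, p.Prime → B1 < p → ∀ v w : ℤ × ℤ,
      gc v = 1 → gc w = 1 → (p : ℤ) ^ 2 ∣ hom f D v.1 v.2 → (p : ℤ) ^ 2 ∣ hom f D w.1 w.2 →
      (p : ℤ) ∣ det v w → (p : ℤ) ^ 2 ∣ det v w)
    (hB2 : ∀ p : ℕ, p.Prime → B2 < p → ∃ κ : ℤ × ℤ → Fin (f.natDegree + 1), ∀ v w : ℤ × ℤ,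
      gc v = 1 → gc w = 1 → (p : ℤ) ∣ hom f D v.1 v.2 → (p : ℤ) ∣ hom f D w.1 w.2 → κ v = κ w →
      (p : ℤ) ∣ det v w) (p T : ℕ) (hp : p.Prime) (h3 : B1 < p) (h4 : B2 < p) :
    (((bx T).filter (fun v => gc v = 1 ∧ (p : ℤ) ^ 2 ∣ hom f D v.1 v.2)).card : ℝ) ≤
      (f.natDegree + 1) * (20 * (T : ℝ) ^ 2 * (1 / (p : ℝ) ^ 2) + 5) := by
  classical
  obtain ⟨κ, hκ⟩ := hB2 p hp h4
  have hdvd : (p : ℤ) ∣ (p : ℤ) ^ 2 := dvd_pow_self _ (by norm_num)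
  have key : ∀ j : Fin (f.natDegree + 1),
      ((((bx T).filter (fun v => gc v = 1 ∧ (p : ℤ) ^ 2 ∣ hom f D v.1 v.2)).filter
        (fun v => κ v = j)).card : ℝ) ≤ 20 * (T : ℝ) ^ 2 * (1 / (p : ℝ) ^ 2) + 5 := by
    intro j
    have := h1 (p ^ 2) T (((bx T).filter (fun v => gc v = 1 ∧ (p : ℤ) ^ 2 ∣ hom f D v.1 v.2)).filter
        (fun v => κ v = j)) (pow_pos hp.pos 2) (by
          intro v hv
          rw [mem_filter, mem_filter] at hv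
          exact ⟨hv.1.2.1, mem_bx hv.1.1⟩) (by
          intro v hv w hw
          rw [mem_filter, mem_filter] at hv hw
          push_cast
          exact hB1 p hp h3 v w hv.1.2.1 hw.1.2.1 hv.1.2.2 hw.1.2.2
            (hκ v w hv.1.2.1 hw.1.2.1 (hdvd.trans hv.1.2.2) (hdvd.trans hw.1.2.2)
              (hv.2.trans hw.2.symm)))
    push_cast at this
    calc _ ≤ _ := this
      _ = _ := by ring
  have hsum := card_eq_sum_card_fiberwise (f := κ)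
    (s := (bx T).filter (fun v => gc v = 1 ∧ (p : ℤ) ^ 2 ∣ hom f D v.1 v.2)) (t := univ)
    (fun v _ => by simp)
  rw [hsum]
  push_cast
  calc _ ≤ ∑ _j : Fin (f.natDegree + 1), (20 * (T : ℝ) ^ 2 * (1 / (p : ℝ) ^ 2) + 5) :=
        sum_le_sum fun j _ => key j
    _ = _ := by
        rw [sum_const, card_univ, Fintype.card_fin, nsmul_eq_mul]
        push_cast
        ring

end SQx

open Polynomial Finset Filter Topology in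
theorem SQ_main (h1 : S_LAT) (h2 : S_HEN) (h3 : S_CLS) : S_SQ := by
  classical
  intro f D hf hD ε η hε hη
  have hf0 : f ≠ 0 := by
    rintro rfl
    simp at hf
  obtain ⟨B1, hB1⟩ := h2 f D hf hD
  obtain ⟨B2, hB2⟩ := h3 f D hf0 hD
  set n := f.natDegree with hn
  have hn0 : (0 : ℝ) < n + 1 := by positivity
  have l1 : Tendsto (fun T : ℕ => (T : ℝ) ^ ε) atTop atTop :=
    (tendsto_rpow_atTop hε).comp tendsto_natCast_atTop_atTop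
  have l2 : Tendsto (fun T : ℕ => (T : ℝ) ^ (-ε)) atTop (𝓝 0) :=
    (tendsto_rpow_neg_atTop hε).comp tendsto_natCast_atTop_atTop
  have l3 : Tendsto (fun T : ℕ => (T : ℝ) ^ (-(1 / 2 : ℝ))) atTop (𝓝 0) :=
    (tendsto_rpow_neg_atTop (by norm_num)).comp tendsto_natCast_atTop_atTop
  filter_upwards [l1.eventually_gt_atTop (max (max B1 B2 : ℕ) 1 : ℝ), eventually_ge_atTop 1,
    l2.eventually_le_const (show (0 : ℝ) < η / (80 * (n + 1)) by positivity),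
    l3.eventually_le_const (show (0 : ℝ) < η / (20 * (n + 1)) by positivity)] with T e1 e2 e3 e4
  have hT : (1 : ℝ) ≤ T := by exact_mod_cast e2
  have hT0 : (0 : ℝ) < T := by linarith
  have e5 : ((max B1 B2 : ℕ) : ℝ) < (T : ℝ) ^ ε := lt_of_le_of_lt (le_max_left _ _) e1
  have e6 : (1 : ℝ) < (T : ℝ) ^ ε := lt_of_le_of_lt (le_max_right _ _) e1
  set P : Finset ℕ := (range (⌊(T : ℝ) ^ (3 / 2 : ℝ)⌋₊ + 1)).filter
    (fun p => p.Prime ∧ (T : ℝ) ^ ε < p) with hP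
  have hsub : {v : ℤ × ℤ | v ∈ bx T ∧ gc v = 1 ∧ ∃ p : ℕ, p.Prime ∧ (T : ℝ) ^ ε < p ∧
      (p : ℝ) ≤ (T : ℝ) ^ (3 / 2 : ℝ) ∧ (p : ℤ) ^ 2 ∣ hom f D v.1 v.2} ⊆
      ((P.biUnion fun p => (bx T).filter (fun v => gc v = 1 ∧ (p : ℤ) ^ 2 ∣ hom f D v.1 v.2) :
        Finset (ℤ × ℤ)) : Set (ℤ × ℤ)) := by
    rintro v ⟨m1, m2, p, m3, m4, m5, m6⟩
    rw [Finset.mem_coe, mem_biUnion]
    refine ⟨p, ?_, ?_⟩
    · rw [hP, mem_filter, mem_range]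
      exact ⟨Nat.lt_succ_of_le (Nat.le_floor m5), m3, m4⟩
    · rw [mem_filter]
      exact ⟨m1, m2, m6⟩
  have hPm : ∀ p ∈ P, p.Prime ∧ (T : ℝ) ^ ε < p ∧ p ≤ ⌊(T : ℝ) ^ (3 / 2 : ℝ)⌋₊ := by
    intro p hp
    rw [hP, mem_filter, mem_range] at hp
    exact ⟨hp.2.1, hp.2.2, by omega⟩
  have hPc : (P.card : ℝ) ≤ (T : ℝ) ^ (3 / 2 : ℝ) + 1 := by
    have a1 : P.card ≤ ⌊(T : ℝ) ^ (3 / 2 : ℝ)⌋₊ + 1 := by
      calc P.card ≤ (range (⌊(T : ℝ) ^ (3 / 2 : ℝ)⌋₊ + 1)).card := card_filter_le _ _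
        _ = _ := card_range _
    have a2 : ((⌊(T : ℝ) ^ (3 / 2 : ℝ)⌋₊ : ℕ) : ℝ) ≤ (T : ℝ) ^ (3 / 2 : ℝ) :=
      Nat.floor_le (by positivity)
    have a3 : (P.card : ℝ) ≤ (⌊(T : ℝ) ^ (3 / 2 : ℝ)⌋₊ : ℝ) + 1 := by exact_mod_cast a1
    linarith
  have hs := SQx.sum_inv ((T : ℝ) ^ ε) e6.le ⌊(T : ℝ) ^ (3 / 2 : ℝ)⌋₊ P
    fun p hp => ⟨(hPm p hp).2.1, (hPm p hp).2.2⟩
  have hcard : ((Set.ncard {v : ℤ × ℤ | v ∈ bx T ∧ gc v = 1 ∧ ∃ p : ℕ, p.Prime ∧ (T : ℝ) ^ ε < p ∧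
      (p : ℝ) ≤ (T : ℝ) ^ (3 / 2 : ℝ) ∧ (p : ℤ) ^ 2 ∣ hom f D v.1 v.2} : ℕ) : ℝ) ≤
      ∑ p ∈ P, ((n : ℝ) + 1) * (20 * (T : ℝ) ^ 2 * (1 / (p : ℝ) ^ 2) + 5) := by
    calc ((Set.ncard _ : ℕ) : ℝ) ≤ ((P.biUnion fun p => (bx T).filter
          (fun v => gc v = 1 ∧ (p : ℤ) ^ 2 ∣ hom f D v.1 v.2)).card : ℝ) := by
          have := Set.ncard_le_ncard hsub (Finset.finite_toSet _)
          rw [Set.ncard_coe_finset] at this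
          exact_mod_cast this
      _ ≤ ∑ p ∈ P, (((bx T).filter
          (fun v => gc v = 1 ∧ (p : ℤ) ^ 2 ∣ hom f D v.1 v.2)).card : ℝ) := by
          exact_mod_cast card_biUnion_le
      _ ≤ _ := by
          refine sum_le_sum fun p hp => ?_
          obtain ⟨a1, a2, a3⟩ := hPm p hp
          have a4 : (max B1 B2 : ℕ) < p := by exact_mod_cast e5.trans a2
          exact SQx.count f D h1 hB1 hB2 p T a1 (lt_of_le_of_lt (le_max_left _ _) a4)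
            (lt_of_le_of_lt (le_max_right _ _) a4)
  refine hcard.trans ?_
  rw [← mul_sum, sum_add_distrib, ← mul_sum, sum_const, nsmul_eq_mul]
  have b1 : (2 : ℝ) / (T : ℝ) ^ ε = 2 * (T : ℝ) ^ (-ε) := by
    rw [Real.rpow_neg hT0.le]
    ring
  have b2 : (T : ℝ) ^ (3 / 2 : ℝ) = (T : ℝ) ^ 2 * (T : ℝ) ^ (-(1 / 2 : ℝ)) := by
    rw [← Real.rpow_natCast, ← Real.rpow_add hT0]
    norm_num
  have b3 : (1 : ℝ) ≤ (T : ℝ) ^ (3 / 2 : ℝ) := Real.one_le_rpow hT (by norm_num)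
  rw [b1] at hs
  have c1 : ((n : ℝ) + 1) * (20 * (T : ℝ) ^ 2 * ∑ p ∈ P, (1 : ℝ) / (p : ℝ) ^ 2) ≤
      η / 2 * (T : ℝ) ^ 2 := by
    calc ((n : ℝ) + 1) * (20 * (T : ℝ) ^ 2 * ∑ p ∈ P, (1 : ℝ) / (p : ℝ) ^ 2)
        ≤ ((n : ℝ) + 1) * (20 * (T : ℝ) ^ 2 * (2 * (η / (80 * (n + 1))))) := by
          gcongr
          linarith
      _ = η / 2 * (T : ℝ) ^ 2 := by
          field_simp
          ring
  have c2 : ((n : ℝ) + 1) * (P.card * 5) ≤ η / 2 * (T : ℝ) ^ 2 := by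
    calc ((n : ℝ) + 1) * (P.card * 5) ≤ ((n : ℝ) + 1) * ((2 * (T : ℝ) ^ (3 / 2 : ℝ)) * 5) := by
          gcongr
          linarith
      _ = ((n : ℝ) + 1) * 10 * (T : ℝ) ^ 2 * (T : ℝ) ^ (-(1 / 2 : ℝ)) := by
          rw [b2]
          ring
      _ ≤ ((n : ℝ) + 1) * 10 * (T : ℝ) ^ 2 * (η / (20 * (n + 1))) := by
          gcongr
      _ = η / 2 * (T : ℝ) ^ 2 := by
          field_simp
          ring
  rw [mul_add]
  linarith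

end Pool.Agent.H11.TW
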