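import Pool.Agent.H11.TW.Stm

set_option autoImplicit false

/-! # TW-WB (helper29): the product of the primes counted divides the form -/

namespace Pool.Agent.H11.TW

open Polynomial Finset Filter Topology

theorem WB_main : S_WB := by
  intro f D y z v hne
  set H : ℤ := hom f D v.1 v.2 with hH
  have h0 : H.natAbs ≠ 0 := Int.natAbs_ne_zero.2 hne
  have h1 : ∀ p ∈ (pr y z).filter (fun p : ℕ => (p : ℤ) ∣ hom f D v.1 v.2), p.Prime := by
    intro p hp
    have h2 := (Finset.mem_filter.1 hp).1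
    unfold pr at h2
    exact (Finset.mem_filter.1 h2).2.1
  have h2 : (∏ p ∈ (pr y z).filter (fun p : ℕ => (p : ℤ) ∣ hom f D v.1 v.2), p) ∣ H.natAbs := by
    refine Finset.prod_primes_dvd _ (fun p hp => (h1 p hp).prime) (fun p hp => ?_)
    exact Int.natCast_dvd.1 (Finset.mem_filter.1 hp).2
  have h3 := Nat.le_of_dvd (Nat.pos_of_ne_zero h0) h2
  have h4 : ((H.natAbs : ℕ) : ℝ) = |((H : ℤ) : ℝ)| := Nat.cast_natAbs H |>.trans (by push_cast; rfl)
  have h5 : wt f D y z v = Real.log ((∏ p ∈ (pr y z).filter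
      (fun p : ℕ => (p : ℤ) ∣ hom f D v.1 v.2), p : ℕ) : ℝ) := by
    unfold wt
    rw [Nat.cast_prod, Real.log_prod]
    intro p hp
    exact_mod_cast (h1 p hp).ne_zero
  rw [h5, ← h4]
  refine Real.log_le_log ?_ (by exact_mod_cast h3)
  exact_mod_cast Finset.prod_pos fun p hp => (h1 p hp).pos

end Pool.Agent.H11.TW
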