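import Pool.Agent.H11.TW.Stm

/-! # Project TW, stub ZER: zeros of the form -/

set_option autoImplicit false

namespace Pool.Agent.H11.TW

open Polynomial Finset Filter Topology

namespace ZERx

/-- the form for fixed `b` as a polynomial -/
noncomputable def q (f : ℤ[X]) (D : ℕ) (b : ℤ) : ℤ[X] := ∑ i ∈ range (f.natDegree + 1), monomial i (f.coeff i * b ^ (D - i))

theorem q_eval (f : ℤ[X]) (D : ℕ) (a b : ℤ) : (q f D b).eval a = hom f D a b := by
  unfold q hom
  rw [eval_finsetSum]
  refine sum_congr rfl fun i _ => ?_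
  rw [eval_monomial]; ring

theorem q_coeff (f : ℤ[X]) (D : ℕ) (b : ℤ) (i : ℕ) (hi : i ≤ f.natDegree) : (q f D b).coeff i = f.coeff i * b ^ (D - i) := by
  unfold q
  rw [finsetSum_coeff]
  simp only [coeff_monomial]
  rw [sum_ite_eq', if_pos (mem_range.2 (by omega))]

theorem q_deg (f : ℤ[X]) (D : ℕ) (b : ℤ) : (q f D b).natDegree ≤ f.natDegree := by
  unfold q
  refine natDegree_sum_le_of_forall_le _ _ fun i hi => ?_
  exact (natDegree_monomial_le _).trans (by rw [mem_range] at hi; omega)

theorem q_ne (f : ℤ[X]) (hf : f ≠ 0) (D : ℕ) (b : ℤ) (hb : b ≠ 0) : q f D b ≠ 0 := by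
  intro h
  have h1 := q_coeff f D b f.natDegree le_rfl
  rw [h, coeff_zero] at h1
  have h2 : f.leadingCoeff ≠ 0 := leadingCoeff_ne_zero.2 hf
  exact (mul_ne_zero h2 (pow_ne_zero _ hb)) h1.symm

theorem hom_rat (g : ℤ[X]) (a b : ℤ) (hb : b ≠ 0) :
    ((hom g g.natDegree a b : ℤ) : ℚ) = (b : ℚ) ^ g.natDegree * aeval ((a : ℚ) / b) g := by
  have hb' : (b : ℚ) ≠ 0 := by exact_mod_cast hb
  rw [aeval_eq_sum_range, mul_sum]
  unfold hom
  push_cast
  refine sum_congr rfl fun i hi => ?_
  rw [mem_range] at hi
  rw [zsmul_eq_mul, div_pow]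
  have h1 : (b : ℚ) ^ g.natDegree = b ^ (g.natDegree - i) * b ^ i := by
    rw [← pow_add]; congr 1; omega
  rw [h1]
  field_simp

end ZERx

open ZERx in
theorem ZER_main : S_ZER := by
  refine ⟨fun f D T hf _ => ?_, fun g hg hn a b hb h0 => ?_⟩
  · have h1 : ((bx T).filter (fun v => hom f D v.1 v.2 = 0)).card ≤ f.natDegree * (Icc (-(T : ℤ)) T).card := by
      refine card_le_mul_card_image_of_maps_to (f := fun v : ℤ × ℤ => v.2) ?_ f.natDegree ?_
      · intro v hv
        rw [mem_filter, bx, mem_filter, mem_product] at hv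
        exact hv.1.1.2
      · intro b _
        by_cases hb : b = 0
        · have : ((bx T).filter (fun v => hom f D v.1 v.2 = 0)).filter (fun x => x.2 = b) = ∅ := by
            rw [filter_eq_empty_iff]
            intro v hv h2
            rw [mem_filter, bx, mem_filter] at hv
            exact hv.1.2 (by rw [h2, hb])
          rw [this, card_empty]
          exact Nat.zero_le _
        · have h2 : (((bx T).filter (fun v => hom f D v.1 v.2 = 0)).filter (fun x => x.2 = b)).card ≤
              (q f D b).roots.toFinset.card := by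
            refine card_le_card_of_injOn (fun v => v.1) ?_ ?_
            · intro v hv
              rw [mem_coe, mem_filter, mem_filter] at hv
              rw [mem_coe, Multiset.mem_toFinset, mem_roots (q_ne f hf D b hb), IsRoot.def, q_eval, ← hv.2]
              exact hv.1.2
            · intro v hv w hw h
              rw [mem_coe, mem_filter] at hv hw
              exact Prod.ext h (hv.2.trans hw.2.symm)
          exact h2.trans ((Multiset.toFinset_card_le _).trans ((card_roots' _).trans (q_deg f D b)))
    have h2 : (Icc (-(T : ℤ)) T).card = 2 * T + 1 := by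
      rw [Int.card_Icc]; omega
    rw [h2] at h1
    exact_mod_cast h1
  · have h1 := hom_rat g a b hb
    rw [h0, Int.cast_zero] at h1
    have hb' : (b : ℚ) ≠ 0 := by exact_mod_cast hb
    have h2 : aeval ((a : ℚ) / b) g = 0 := by
      rcases mul_eq_zero.1 h1.symm with h | h
      · exact absurd h (pow_ne_zero _ hb')
      · exact h
    have hp : g.IsPrimitive := hg.isPrimitive (by omega)
    have hirr : Irreducible (g.map (Int.castRingHom ℚ)) := (Polynomial.IsPrimitive.Int.irreducible_iff_irreducible_map_cast hp).1 hg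
    have hroot : IsRoot (g.map (Int.castRingHom ℚ)) ((a : ℚ) / b) := by
      rw [IsRoot.def, eval_map]
      exact h2
    have h3 := degree_eq_one_of_irreducible_of_root hirr hroot
    have h4 : (g.map (Int.castRingHom ℚ)).natDegree = 1 := natDegree_eq_of_degree_eq_some h3
    rw [natDegree_map_eq_of_injective (RingHom.injective_int _)] at h4
    omega

end Pool.Agent.H11.TW
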