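import Pool.Agent.H11.TW.Asm
import Pool.Agent.H11.TW.FACT
import Pool.Agent.H11.TW.RHO
import Pool.Agent.H11.TW.RTB
import Pool.Agent.H11.TW.PI
import Pool.Agent.H11.TW.MERT
import Pool.Agent.H11.TW.MERV
import Pool.Agent.H11.TW.LOC
import Pool.Agent.H11.TW.FM
import Pool.Agent.H11.TW.PIG
import Pool.Agent.H11.TW.GCD
import Pool.Agent.H11.TW.WB
import Pool.Agent.H11.TW.HB
import Pool.Agent.H11.TW.ZER
import Pool.Agent.H11.TW.DVD
import Pool.Agent.H11.TW.LG
import Pool.Agent.H11.TW.CNT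
import Pool.Agent.H11.TW.PRI
import Pool.Agent.H11.TW.LAT
import Pool.Agent.H11.TW.HEN
import Pool.Agent.H11.TW.CLS
import Pool.Agent.H11.TW.SQ
import Pool.Agent.H11.TW.MUL
import Pool.Agent.H11.TW.PT
import Pool.Agent.H11.TW.DIS
import Pool.Agent.H11.TW.FIN

set_option autoImplicit false

namespace Pool.Agent.H11.TW

open Polynomial Filter

theorem main_thm (f : ℤ[X]) (hf : Squarefree (f.map (Int.castRingHom ℚ))) (hn : 5 ≤ f.natDegree)
    (hr : Odd f.natDegree ∨ ¬ Irreducible (f.map (Int.castRingHom ℚ))) :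
    ∃ c : ℝ, 0 < c ∧ ∀ᶠ B : ℝ in atTop,
      c * B ^ ((1 : ℝ) / (((f.natDegree - 1) / 2 : ℕ) + 1)) ≤ ((Tw f B).ncard : ℝ) := by
  have rtb : S_RTB := RTB_main
  have mert : S_MERT := MERT_main PI_main
  have merv : S_MERV := MERV_main mert
  have fm : S_FM := FM_main LOC_main merv RHO_main
  have lg : S_LG := LG_main merv PIG_main GCD_main WB_main HB_main ZER_main rtb
  have cnt : S_CNT := CNT_main fm lg GCD_main WB_main HB_main ZER_main DVD_main
  have cls : S_CLS := CLS_main rtb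
  have hen : S_HEN := HEN_main rtb
  have sq : S_SQ := SQ_main LAT_main hen cls
  have mul : S_MUL := MUL_main cls
  have dis : S_DIS := DIS_main sq mul PT_main HB_main
  exact asm FACT_main cnt (PRI_main DVD_main) dis FIN_main f hf hn hr

end Pool.Agent.H11.TW
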