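import Pool.Agent.H11.TW.Stm2

set_option autoImplicit false

namespace Pool.Agent.H11.TW

open Polynomial Finset Filter Topology

namespace Asm2x

lemma log_le {k : ℝ} (hk : 0 < k) : ∀ᶠ B : ℝ in atTop, 0 < Real.log (B / k) ∧
    Real.log (B / k) ≤ 2 * Real.log B := by
  have h1 : ∀ᶠ B : ℝ in atTop, Real.exp 1 * k ≤ B := eventually_ge_atTop _
  have h2 : ∀ᶠ B : ℝ in atTop, 1 / k ≤ B := eventually_ge_atTop _
  have h3 : ∀ᶠ B : ℝ in atTop, (1 : ℝ) ≤ B := eventually_ge_atTop _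
  filter_upwards [h1, h2, h3] with B b1 b2 b3
  have hB : 0 < B := by linarith
  constructor
  · have : Real.exp 1 ≤ B / k := by rw [le_div_iff₀ hk]; exact b1
    have := Real.log_le_log (Real.exp_pos 1) this
    rw [Real.log_exp] at this
    linarith
  · have : B / k ≤ B * B := by
      rw [div_eq_mul_one_div]
      exact mul_le_mul_of_nonneg_left b2 hB.le
    have := Real.log_le_log (by positivity) this
    rw [Real.log_mul hB.ne' hB.ne'] at this
    linarith

end Asm2x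

/-- Assembly of part 2. -/
theorem asm2 (h1 : S_CON) (h2 : S_DIV2) (h3 : S_FINL) (h4 : S_ZER)
    (hm : ∀ f : ℤ[X], Squarefree (f.map (Int.castRingHom ℚ)) → 5 ≤ f.natDegree →
      (Odd f.natDegree ∨ ¬ Irreducible (f.map (Int.castRingHom ℚ))) →
      ∃ c : ℝ, 0 < c ∧ ∀ᶠ B : ℝ in atTop,
        c * B ^ ((1 : ℝ) / (((f.natDegree - 1) / 2 : ℕ) + 1)) ≤ ((Tw f B).ncard : ℝ))
    (f : ℤ[X]) (hf : Squarefree (f.map (Int.castRingHom ℚ))) (hn : 5 ≤ f.natDegree) :
    ∃ c : ℝ, 0 < c ∧ ∀ᶠ B : ℝ in atTop,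
      c * B ^ ((1 : ℝ) / (((f.natDegree - 1) / 2 : ℕ) + 1)) / Real.log B ≤ ((Tw f B).ncard : ℝ) := by
  by_cases hr : Odd f.natDegree ∨ ¬ Irreducible (f.map (Int.castRingHom ℚ))
  · obtain ⟨c, hc, h⟩ := hm f hf hn hr
    refine ⟨c, hc, ?_⟩
    filter_upwards [h, eventually_ge_atTop (Real.exp 1)] with B hB hB1
    have hl : 1 ≤ Real.log B := by
      have := Real.log_le_log (Real.exp_pos 1) hB1
      rwa [Real.log_exp] at this
    have hB0 : 0 < B := (Real.exp_pos 1).trans_le hB1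
    refine le_trans ?_ hB
    exact div_le_self (by positivity) hl
  · push Not at hr
    obtain ⟨hodd, hirr⟩ := hr
    have hev : Even f.natDegree := by simpa using hodd
    obtain ⟨g, k, gi, gq, gd, hk, hg⟩ := h1 f hirr hn
    have gn : 5 ≤ g.natDegree := by rw [gd]; exact hn
    have g0 : ∀ a b : ℤ, b ≠ 0 → hom g g.natDegree a b ≠ 0 := h4.2 g gi (by omega)
    obtain ⟨c, C, hc, hC, hT⟩ := h2 g gi gq.squarefree (by rw [gd]; exact hev) gn g0
    obtain ⟨c1, hc1, hB⟩ := h3 g c C gn hc hC hT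
    rw [gd] at hB
    set e : ℝ := (1 : ℝ) / (((f.natDegree - 1) / 2 : ℕ) + 1) with he
    have htend : Tendsto (fun B : ℝ => B / k) atTop atTop := tendsto_id.atTop_div_const hk
    refine ⟨c1 * (1 / k) ^ e / 2, by positivity, ?_⟩
    filter_upwards [htend.eventually hB, Asm2x.log_le hk, eventually_gt_atTop (0 : ℝ)] with B b1 b2 b3
    have h5 : ((Tw g (B / k)).ncard : ℝ) ≤ ((Tw f B).ncard : ℝ) := by exact_mod_cast hg B b3
    refine le_trans (le_trans ?_ b1) h5
    have hlB : 0 < Real.log B := by linarith [b2.1, b2.2]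
    have e1 : (B / k) ^ e = B ^ e * (1 / k) ^ e := by
      rw [div_eq_mul_one_div, Real.mul_rpow b3.le (by positivity)]
    rw [e1, div_le_div_iff₀ hlB b2.1]
    have hp : 0 ≤ c1 * (B ^ e * (1 / k) ^ e) := by positivity
    nlinarith [mul_le_mul_of_nonneg_left b2.2 hp]

end Pool.Agent.H11.TW
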