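import Pool.Agent.H11.TW.Stm2
import Pool.Agent.H11.TW.GCD
import Pool.Agent.H11.TW.WB

/-! TW2-BAD (helper5): few bad pairs. -/

set_option autoImplicit false

namespace Pool.Agent.H11.TW.BADx

open Polynomial Finset Filter Topology Pool.Agent.H11.TW

lemma mem_pr {y z : ℝ} (hz : 0 ≤ z) {p : ℕ} : p ∈ pr y z ↔ p.Prime ∧ y < p ∧ (p : ℝ) ≤ z := by
  unfold pr
  rw [Finset.mem_filter, Finset.mem_range, Nat.lt_succ_iff, Nat.le_floor_iff hz]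
  tauto

/-- the primes above `T ^ (1/4)` dividing the value -/
noncomputable def Dv (f : ℤ[X]) (T : ℕ) (v : ℤ × ℤ) : Finset ℕ :=
  (pr ((T : ℝ) ^ (1 / 4 : ℝ)) ((T : ℝ) ^ (7 / 4 : ℝ))).filter
    (fun p : ℕ => (p : ℤ) ∣ hom f f.natDegree v.1 v.2)

lemma mem_Dv {f : ℤ[X]} {T : ℕ} {v : ℤ × ℤ} {p : ℕ} : p ∈ Dv f T v ↔
    (p.Prime ∧ (T : ℝ) ^ (1 / 4 : ℝ) < p ∧ (p : ℝ) ≤ (T : ℝ) ^ (7 / 4 : ℝ)) ∧
      (p : ℤ) ∣ hom f f.natDegree v.1 v.2 := by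
  unfold Dv
  rw [Finset.mem_filter, mem_pr (by positivity)]

lemma card_Dv (f : ℤ[X]) (C : ℝ) (T : ℕ) (hT : 2 ≤ T) (hC : 1 ≤ C) (hCT : C < T) (v : ℤ × ℤ)
    (hne : hom f f.natDegree v.1 v.2 ≠ 0)
    (hb : |((hom f f.natDegree v.1 v.2 : ℤ) : ℝ)| ≤ C * (T : ℝ) ^ f.natDegree) :
    (Dv f T v).card ≤ 4 * (f.natDegree + 1) := by
  have hT1 : (1 : ℝ) < T := by exact_mod_cast (by omega : 1 < T)
  have hlogT : 0 < Real.log T := Real.log_pos hT1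
  have h1 := WB_main f f.natDegree ((T : ℝ) ^ (1 / 4 : ℝ)) ((T : ℝ) ^ (7 / 4 : ℝ)) v hne
  have h2 : ((Dv f T v).card : ℝ) * (1 / 4 * Real.log T) ≤
      wt f f.natDegree ((T : ℝ) ^ (1 / 4 : ℝ)) ((T : ℝ) ^ (7 / 4 : ℝ)) v := by
    unfold wt
    rw [← nsmul_eq_mul]
    refine Finset.card_nsmul_le_sum (Dv f T v) (fun p : ℕ => Real.log p) _ fun p hp => ?_
    rw [← Real.log_rpow (by linarith)]
    exact Real.log_le_log (by positivity) (mem_Dv.1 hp).1.2.1.le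
  have h3 : Real.log |((hom f f.natDegree v.1 v.2 : ℤ) : ℝ)| ≤
      Real.log (C * (T : ℝ) ^ f.natDegree) := by
    apply Real.log_le_log _ hb
    rw [abs_pos]
    exact_mod_cast hne
  have h4 : Real.log (C * (T : ℝ) ^ f.natDegree) = Real.log C + f.natDegree * Real.log T := by
    rw [Real.log_mul (by positivity) (by positivity), Real.log_pow]
  have h5 : Real.log C < Real.log T := Real.log_lt_log (by linarith) hCT
  have h6 : ((Dv f T v).card : ℝ) * (1 / 4 * Real.log T) < ((f.natDegree : ℝ) + 1) * Real.log T := by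
    calc _ ≤ Real.log C + f.natDegree * Real.log T := by linarith
      _ < _ := by linarith
  have h7 : ((Dv f T v).card : ℝ) < 4 * ((f.natDegree : ℝ) + 1) := by
    by_contra hcon
    push Not at hcon
    have := mul_le_mul_of_nonneg_right hcon (show 0 ≤ 1 / 4 * Real.log T by positivity)
    nlinarith
  have h8 : (Dv f T v).card < 4 * (f.natDegree + 1) := by exact_mod_cast h7
  exact h8.le

lemma count (f : ℤ[X]) (T M : ℕ) (S : Finset (ℤ × ℤ)) (X : Finset (ℕ × ℕ)) (φ : ℕ × ℕ → ℤ × ℤ)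
    (hX : ∀ u ∈ X, φ u ∈ S ∧ u.1 ∈ Dv f T (φ u) ∧ u.2 ∈ Dv f T (φ u))
    (hS : ∀ w ∈ S, (Dv f T w).card ≤ M) : X.card ≤ M ^ 2 * S.card := by
  classical
  apply Finset.card_le_mul_card_image_of_maps_to (f := φ) (fun u hu => (hX u hu).1)
  intro w hw
  have hsub : X.filter (fun u => φ u = w) ⊆ Dv f T w ×ˢ Dv f T w := by
    intro u hu
    rw [Finset.mem_filter] at hu
    obtain ⟨hu, rfl⟩ := hu
    exact Finset.mem_product.2 (hX u hu).2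
  calc _ ≤ (Dv f T w ×ˢ Dv f T w).card := Finset.card_le_card hsub
    _ = (Dv f T w).card * (Dv f T w).card := Finset.card_product _ _
    _ ≤ M * M := Nat.mul_le_mul (hS w hw) (hS w hw)
    _ = M ^ 2 := (sq M).symm

/-- division by the gcd -/
lemma red (v : ℤ × ℤ) (h2 : v.2 ≠ 0) : 0 < gc v ∧
    v.1 = (gc v : ℤ) * (prim v).1 ∧ v.2 = (gc v : ℤ) * (prim v).2 ∧ gc (prim v) = 1 := by
  have h0 : 0 < gc v := Int.gcd_pos_of_ne_zero_right _ h2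
  refine ⟨h0, (Int.mul_ediv_cancel' (Int.gcd_dvd_left _ _)).symm,
    (Int.mul_ediv_cancel' (Int.gcd_dvd_right _ _)).symm, Int.gcd_div_gcd_div_gcd h0⟩

lemma abs_le_of_mul {k : ℕ} (hk : 0 < k) {a T : ℤ} (h : |(k : ℤ) * a| ≤ T) : |a| ≤ T := by
  rw [abs_mul] at h
  have h1 : (1 : ℤ) ≤ |(k : ℤ)| := by
    rw [Nat.abs_cast]
    exact_mod_cast hk
  have h2 := abs_nonneg a
  nlinarith

lemma mem_bx {T : ℕ} {v : ℤ × ℤ} : v ∈ bx T ↔ (|v.1| ≤ (T : ℤ) ∧ |v.2| ≤ (T : ℤ)) ∧ v.2 ≠ 0 := by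
  unfold bx
  rw [Finset.mem_filter, Finset.mem_product, Finset.mem_Icc, Finset.mem_Icc, abs_le, abs_le]

lemma prim_mem {T : ℕ} {v : ℤ × ℤ} (hv : v ∈ bx T) : prim v ∈ bx T ∧ (gc v : ℤ) ≤ T := by
  obtain ⟨⟨h1, h2⟩, h3⟩ := mem_bx.1 hv
  obtain ⟨hg, e1, e2, -⟩ := red v h3
  refine ⟨mem_bx.2 ⟨⟨?_, ?_⟩, ?_⟩, ?_⟩
  · rw [e1] at h1
    exact abs_le_of_mul hg h1
  · rw [e2] at h2
    exact abs_le_of_mul hg h2
  · intro h0
    exact h3 (by rw [e2, h0, mul_zero])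
  · have h4 : (gc v : ℤ) ∣ v.2 := Int.gcd_dvd_right _ _
    have h5 := Int.le_of_dvd (abs_pos.2 h3) ((dvd_abs _ _).2 h4)
    linarith

lemma dvd_prim (h3 : S_DVD) (f : ℤ[X]) {v : ℤ × ℤ} (hv : v.2 ≠ 0) {p : ℕ} (hp : p.Prime)
    (hd : (p : ℤ) ∣ hom f f.natDegree v.1 v.2) (hg : ¬ p ∣ gc v) :
    (p : ℤ) ∣ hom f f.natDegree (prim v).1 (prim v).2 := by
  obtain ⟨-, e1, e2, -⟩ := red v hv
  rw [e1, e2, h3.2 f f.natDegree _ _ _ le_rfl] at hd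
  have hpi := Nat.prime_iff_prime_int.1 hp
  refine (hpi.dvd_or_dvd hd).resolve_left fun h => hg ?_
  exact Int.natCast_dvd_natCast.1 (hpi.dvd_of_dvd_pow h)

end Pool.Agent.H11.TW.BADx

namespace Pool.Agent.H11.TW

open Polynomial Finset Filter Topology BADx

theorem BAD_main (h1 : S_SQV) (h2 : S_HB) (h3 : S_DVD) : S_BAD := by
  classical
  intro f hsq hne
  obtain ⟨C, hC, hHB⟩ := h2 f f.natDegree le_rfl
  have hSQ := h1 f f.natDegree hsq (Or.inl rfl)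
  obtain ⟨M, hM⟩ : ∃ M : ℕ, M = 4 * (f.natDegree + 1) := ⟨_, rfl⟩
  have hlarge : ∀ᶠ T : ℕ in atTop, (19 * (M : ℝ) ^ 2) ≤ (T : ℝ) ^ (1 / 16 : ℝ) := by
    have h := (tendsto_rpow_atTop (show (0 : ℝ) < 1 / 16 by norm_num)).comp
      (tendsto_natCast_atTop_atTop (R := ℝ))
    exact h.eventually_ge_atTop _
  have hCT : ∀ᶠ T : ℕ in atTop, C < (T : ℝ) :=
    (tendsto_natCast_atTop_atTop (R := ℝ)).eventually_gt_atTop C
  filter_upwards [hSQ, hlarge, hCT, eventually_ge_atTop 2] with T hS hL hC1 hT2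
  intro V hV
  have hT1 : (1 : ℝ) ≤ T := by exact_mod_cast (by omega : 1 ≤ T)
  have hT0 : (0 : ℝ) < T := by linarith
  have hmono : ∀ {a b : ℝ}, a ≤ b → (T : ℝ) ^ a ≤ (T : ℝ) ^ b := fun h =>
    Real.rpow_le_rpow_of_exponent_le hT1 h
  have hD : ∀ v ∈ bx T, (Dv f T v).card ≤ M := by
    intro v hv
    rw [hM]
    obtain ⟨⟨ha, hb⟩, hb0⟩ := mem_bx.1 hv
    exact card_Dv f C T hT2 hC hC1 v (hne _ _ hb0) (hHB T v (by omega) ha hb)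
  have hPP : ∀ u ∈ PP f T, (u.1.Prime ∧ (T : ℝ) ^ (1 / 4 : ℝ) < u.1 ∧
      (u.1 : ℝ) ≤ (T : ℝ) ^ (7 / 4 : ℝ)) ∧ (u.2.Prime ∧ (T : ℝ) ^ (1 / 4 : ℝ) < u.2 ∧
      (u.2 : ℝ) ≤ (T : ℝ) ^ (7 / 4 : ℝ)) ∧ (T : ℝ) < u.2 := by
    intro u hu
    unfold PP at hu
    rw [Finset.mem_filter, Finset.mem_product, mem_pr (by positivity), mem_pr (by positivity)] at hu
    obtain ⟨⟨⟨a1, a2, a3⟩, b1, b2, b3⟩, -⟩ := hu
    refine ⟨⟨a1, a2, a3.trans (hmono (by norm_num))⟩,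
      ⟨b1, lt_of_le_of_lt (hmono (by norm_num)) b2, b3⟩, ?_⟩
    refine lt_of_le_of_lt ?_ b2
    calc (T : ℝ) = (T : ℝ) ^ (1 : ℝ) := (Real.rpow_one _).symm
      _ ≤ _ := hmono (by norm_num)
  set A := (PP f T).filter (fun u => u.1 ∣ gc (V u)) with hA
  set Z := (PP f T).filter (fun u => ¬ u.1 ∣ gc (V u) ∧
    ((u.1 : ℤ) ^ 2 ∣ hom f f.natDegree (prim (V u)).1 (prim (V u)).2 ∨
      (u.2 : ℤ) ^ 2 ∣ hom f f.natDegree (prim (V u)).1 (prim (V u)).2)) with hZ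
  set E : ℕ := ⌊(T : ℝ) ^ (1 / 4 : ℝ)⌋₊ with hE
  have hx1 : (1 : ℝ) ≤ (T : ℝ) ^ (1 / 4 : ℝ) := Real.one_le_rpow hT1 (by norm_num)
  have hE1 : 1 ≤ E := Nat.le_floor (by exact_mod_cast hx1)
  have hEx : (E : ℝ) ≤ (T : ℝ) ^ (1 / 4 : ℝ) := Nat.floor_le (by positivity)
  have hEx2 : (T : ℝ) ^ (1 / 4 : ℝ) < (E : ℝ) + 1 := Nat.lt_floor_add_one _
  set SZ := (bx T).filter (fun v => gc v = 1 ∧ ∃ p : ℕ, p.Prime ∧ (T : ℝ) ^ (1 / 4 : ℝ) < p ∧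
    (p : ℝ) ≤ (T : ℝ) ^ (7 / 4 : ℝ) ∧ (p : ℤ) ^ 2 ∣ hom f f.natDegree v.1 v.2) with hSZ
  have hSZc : (SZ.card : ℝ) ≤ (T : ℝ) ^ (15 / 8 : ℝ) := by
    have e : {v : ℤ × ℤ | v ∈ bx T ∧ gc v = 1 ∧ ∃ p : ℕ, p.Prime ∧ (T : ℝ) ^ (1 / 4 : ℝ) < p ∧
        (p : ℝ) ≤ (T : ℝ) ^ (7 / 4 : ℝ) ∧ (p : ℤ) ^ 2 ∣ hom f f.natDegree v.1 v.2} = ↑SZ := by
      ext v
      rw [hSZ, Finset.coe_filter]
    rw [e, Set.ncard_coe_finset] at hS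
    exact hS
  have hAc : A.card ≤ M ^ 2 * ((bx T).filter (fun v => E < gc v)).card := by
    refine count f T M _ A V (fun u hu => ?_) fun w hw => hD w (Finset.mem_filter.1 hw).1
    rw [hA, Finset.mem_filter] at hu
    obtain ⟨hu, hd⟩ := hu
    obtain ⟨hV1, hV2, hV3⟩ := hV u hu
    obtain ⟨p1, p2, p3⟩ := hPP u hu
    have hg : 0 < gc (V u) := (red _ (mem_bx.1 hV1).2).1
    refine ⟨Finset.mem_filter.2 ⟨hV1, ?_⟩, mem_Dv.2 ⟨p1, hV2⟩, mem_Dv.2 ⟨p2, hV3⟩⟩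
    have h5 : u.1 ≤ gc (V u) := Nat.le_of_dvd hg hd
    have h6 : (E : ℝ) < u.1 := hEx.trans_lt p1.2.1
    have h7 : E < u.1 := by exact_mod_cast h6
    omega
  have hZc : Z.card ≤ M ^ 2 * SZ.card := by
    refine count f T M _ Z (fun u => prim (V u)) (fun u hu => ?_)
      fun w hw => hD w (Finset.mem_filter.1 hw).1
    rw [hZ, Finset.mem_filter] at hu
    obtain ⟨hu, hnd, hsqd⟩ := hu
    obtain ⟨hV1, hV2, hV3⟩ := hV u hu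
    obtain ⟨p1, p2, p3⟩ := hPP u hu
    have hv0 := (mem_bx.1 hV1).2
    obtain ⟨hg, -, -, hg1⟩ := red _ hv0
    obtain ⟨hpm, hgT⟩ := prim_mem hV1
    have hnd2 : ¬ u.2 ∣ gc (V u) := by
      intro hd
      have h5 : u.2 ≤ gc (V u) := Nat.le_of_dvd hg hd
      have h6 : (gc (V u) : ℝ) ≤ T := by exact_mod_cast hgT
      have h7 : (u.2 : ℝ) ≤ gc (V u) := by exact_mod_cast h5
      linarith
    refine ⟨Finset.mem_filter.2 ⟨hpm, hg1, ?_⟩, mem_Dv.2 ⟨p1, dvd_prim h3 f hv0 p1.1 hV2 hnd⟩,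
      mem_Dv.2 ⟨p2, dvd_prim h3 f hv0 p2.1 hV3 hnd2⟩⟩
    rcases hsqd with h | h
    · exact ⟨u.1, p1.1, p1.2.1, p1.2.2, h⟩
    · exact ⟨u.2, p2.1, p2.2.1, p2.2.2, h⟩
  have hset : {u : ℕ × ℕ | u ∈ PP f T ∧ (u.1 ∣ gc (V u) ∨
      (u.1 : ℤ) ^ 2 ∣ hom f f.natDegree (prim (V u)).1 (prim (V u)).2 ∨
      (u.2 : ℤ) ^ 2 ∣ hom f f.natDegree (prim (V u)).1 (prim (V u)).2)} ⊆ ↑(A ∪ Z) := by
    rintro u ⟨hu, h⟩
    rw [Finset.mem_coe, Finset.mem_union]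
    by_cases hd : u.1 ∣ gc (V u)
    · exact Or.inl (Finset.mem_filter.2 ⟨hu, hd⟩)
    · exact Or.inr (Finset.mem_filter.2 ⟨hu, hd, h.resolve_left hd⟩)
  have hcard := (Set.ncard_le_ncard hset (Finset.finite_toSet _))
  rw [Set.ncard_coe_finset] at hcard
  have hGC := GCD_main E T hE1
  have hT2' : (T : ℝ) ^ 2 = (T : ℝ) ^ (7 / 4 : ℝ) * (T : ℝ) ^ (1 / 4 : ℝ) := by
    rw [← Real.rpow_add hT0, ← Real.rpow_natCast]
    norm_num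
  have hE0 : (0 : ℝ) < E := by exact_mod_cast hE1
  have hE1' : (1 : ℝ) ≤ E := by exact_mod_cast hE1
  have hdiv : 9 * (T : ℝ) ^ 2 / E ≤ 18 * (T : ℝ) ^ (7 / 4 : ℝ) := by
    rw [div_le_iff₀ hE0, hT2']
    have h5 : (T : ℝ) ^ (1 / 4 : ℝ) ≤ 2 * E := by linarith
    have h6 : 0 ≤ (T : ℝ) ^ (7 / 4 : ℝ) := by positivity
    nlinarith [mul_le_mul_of_nonneg_left h5 h6]
  have h78 : (T : ℝ) ^ (7 / 4 : ℝ) ≤ (T : ℝ) ^ (15 / 8 : ℝ) := hmono (by norm_num)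
  have hAR : (A.card : ℝ) ≤ (M : ℝ) ^ 2 * (18 * (T : ℝ) ^ (15 / 8 : ℝ)) := by
    have h5 : (A.card : ℝ) ≤ (M : ℝ) ^ 2 * (((bx T).filter (fun v => E < gc v)).card : ℝ) := by
      exact_mod_cast hAc
    refine h5.trans (mul_le_mul_of_nonneg_left ?_ (by positivity))
    linarith
  have hZR : (Z.card : ℝ) ≤ (M : ℝ) ^ 2 * (T : ℝ) ^ (15 / 8 : ℝ) := by
    have h5 : (Z.card : ℝ) ≤ (M : ℝ) ^ 2 * (SZ.card : ℝ) := by exact_mod_cast hZc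
    exact h5.trans (mul_le_mul_of_nonneg_left hSZc (by positivity))
  calc _ ≤ ((A ∪ Z).card : ℝ) := by exact_mod_cast hcard
    _ ≤ (A.card : ℝ) + Z.card := by exact_mod_cast Finset.card_union_le A Z
    _ ≤ 19 * (M : ℝ) ^ 2 * (T : ℝ) ^ (15 / 8 : ℝ) := by linarith
    _ ≤ (T : ℝ) ^ (1 / 16 : ℝ) * (T : ℝ) ^ (15 / 8 : ℝ) :=
        mul_le_mul_of_nonneg_right hL (by positivity)
    _ = (T : ℝ) ^ (31 / 16 : ℝ) := by
        rw [← Real.rpow_add hT0]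
        norm_num

end Pool.Agent.H11.TW
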