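import Pool.Agent.H11.TW.Stm2

/-!
# TW-CON: reduction to primitive irreducible polynomials (helper1)
-/

set_option autoImplicit false

namespace Pool.Agent.H11.TW

open Polynomial Finset Filter Topology

namespace CONx

theorem sqf (m : ℤ) (hm : m ≠ 0) : ∃ d z : ℤ, m = d * z ^ 2 ∧ Squarefree d ∧ z ≠ 0 := by
  obtain ⟨a, b, hab, ha⟩ := Nat.sq_mul_squarefree m.natAbs
  refine ⟨m.sign * a, b, ?_, ?_, ?_⟩
  · have h1 : m = m.sign * (m.natAbs : ℤ) := (Int.sign_mul_natAbs m).symm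
    conv_lhs => rw [h1]
    rw [← hab]
    push_cast
    ring
  · rw [← Int.squarefree_natAbs, Int.natAbs_mul, Int.natAbs_natCast]
    have : m.sign.natAbs = 1 := Int.natAbs_sign_of_ne_zero hm
    rw [this, one_mul]
    exact ha
  · intro hb
    have : b = 0 := by exact_mod_cast hb
    subst this
    have : m.natAbs = 0 := by rw [← hab]; ring
    exact hm (Int.natAbs_eq_zero.1 this)

/-- the squarefree part -/
noncomputable def sp (m : ℤ) : ℤ := if h : m ≠ 0 then (sqf m h).choose else 1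

theorem sp_spec {m : ℤ} (h : m ≠ 0) : ∃ z : ℤ, m = sp m * z ^ 2 ∧ Squarefree (sp m) ∧ z ≠ 0 := by
  unfold sp
  rw [dif_pos h]
  exact (sqf m h).choose_spec

theorem unit_sq {d n₁ n₂ e : ℤ} (hd : Squarefree d) (hc : IsCoprime n₁ n₂) (h : d * n₂ ^ 2 = e * n₁ ^ 2) :
    n₁ ^ 2 = 1 := by
  have h1 : n₁ ^ 2 ∣ d * n₂ ^ 2 := ⟨e, by rw [h]; ring⟩
  have h2 : n₁ ^ 2 ∣ d := (hc.pow : IsCoprime (n₁ ^ 2) (n₂ ^ 2)).dvd_of_dvd_mul_right h1
  have h3 : IsUnit n₁ := hd n₁ (by rw [← pow_two]; exact h2)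
  rcases Int.isUnit_iff.1 h3 with h | h <;> rw [h] <;> norm_num

theorem inj {d₁ d₂ m₁ m₂ : ℤ} (h1 : Squarefree d₁) (h2 : Squarefree d₂) (hm1 : m₁ ≠ 0)
    (h : d₁ * m₂ ^ 2 = d₂ * m₁ ^ 2) : d₁ = d₂ := by
  have hg : 0 < Int.gcd m₁ m₂ := Int.gcd_pos_of_ne_zero_left _ hm1
  obtain ⟨n₁, n₂, hc, e1, e2⟩ := Int.exists_gcd_one hg
  have hc' : IsCoprime n₁ n₂ := Int.isCoprime_iff_gcd_eq_one.2 hc
  have hg' : ((Int.gcd m₁ m₂ : ℕ) : ℤ) ≠ 0 := by exact_mod_cast hg.ne'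
  have h3 : d₁ * n₂ ^ 2 = d₂ * n₁ ^ 2 := by
    have h4 : (d₁ * n₂ ^ 2) * ((Int.gcd m₁ m₂ : ℕ) : ℤ) ^ 2 = (d₂ * n₁ ^ 2) * ((Int.gcd m₁ m₂ : ℕ) : ℤ) ^ 2 := by
      calc (d₁ * n₂ ^ 2) * ((Int.gcd m₁ m₂ : ℕ) : ℤ) ^ 2 = d₁ * (n₂ * ((Int.gcd m₁ m₂ : ℕ) : ℤ)) ^ 2 := by ring
        _ = d₁ * m₂ ^ 2 := by rw [← e2]
        _ = d₂ * m₁ ^ 2 := h
        _ = d₂ * (n₁ * ((Int.gcd m₁ m₂ : ℕ) : ℤ)) ^ 2 := by rw [← e1]
        _ = (d₂ * n₁ ^ 2) * ((Int.gcd m₁ m₂ : ℕ) : ℤ) ^ 2 := by ring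
    exact mul_right_cancel₀ (pow_ne_zero 2 hg') h4
  have h5 : n₁ ^ 2 = 1 := unit_sq h1 hc' h3
  have h6 : n₂ ^ 2 = 1 := unit_sq h2 hc'.symm h3.symm
  rw [h5, h6] at h3
  linarith

theorem tw_fin (f : ℤ[X]) (B : ℝ) : (Tw f B).Finite := by
  refine Set.Finite.subset (Set.finite_Icc (-⌈B⌉) ⌈B⌉) ?_
  rintro d ⟨_, h, _⟩
  rw [abs_lt] at h
  have h1 : B ≤ (⌈B⌉ : ℝ) := Int.le_ceil B
  constructor
  · have : ((-⌈B⌉ : ℤ) : ℝ) ≤ (d : ℝ) := by push_cast; linarith [h.1]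
    exact_mod_cast this
  · have : (d : ℝ) ≤ ((⌈B⌉ : ℤ) : ℝ) := by linarith [h.2]
    exact_mod_cast this

end CONx

open CONx in
theorem CON_main : S_CON := by
  classical
  intro f hf hn
  have hf0 : f ≠ 0 := by
    rintro rfl
    simp at hn
  have hk0 : f.content ≠ 0 := by
    rw [Ne, Polynomial.content_eq_zero_iff]
    exact hf0
  have hfe : f = C f.content * f.primPart := f.eq_C_content_mul_primPart
  have hkq : ((f.content : ℤ) : ℚ) ≠ 0 := by exact_mod_cast hk0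
  have hmap : f.map (Int.castRingHom ℚ) =
      C ((f.content : ℤ) : ℚ) * f.primPart.map (Int.castRingHom ℚ) := by
    conv_lhs => rw [hfe]
    rw [Polynomial.map_mul, Polynomial.map_C]
    simp
  have hu : IsUnit (C ((f.content : ℤ) : ℚ)) := Polynomial.isUnit_C.2 (isUnit_iff_ne_zero.2 hkq)
  have hirr : Irreducible (f.primPart.map (Int.castRingHom ℚ)) := by
    rw [hmap] at hf
    exact (irreducible_isUnit_mul hu).1 hf
  have hirrZ : Irreducible f.primPart :=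
    (Polynomial.IsPrimitive.Int.irreducible_iff_irreducible_map_cast f.isPrimitive_primPart).2 hirr
  have habs : (0 : ℝ) < |((f.content : ℤ) : ℝ)| := abs_pos.2 (by exact_mod_cast hk0)
  refine ⟨f.primPart, |((f.content : ℤ) : ℝ)|, hirrZ, hirr, f.natDegree_primPart, habs, ?_⟩
  intro B hB
  refine Set.ncard_le_ncard_of_injOn (fun d => sp (f.content * d)) ?_ ?_ (tw_fin f B)
  · rintro d ⟨hd1, hd2, x, y, hy, hxy⟩
    have hd0 : d ≠ 0 := hd1.ne_zero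
    have hkd : f.content * d ≠ 0 := mul_ne_zero hk0 hd0
    obtain ⟨z, hz1, hz2, hz3⟩ := sp_spec hkd
    refine ⟨hz2, ?_, x, z * y, mul_ne_zero (by exact_mod_cast hz3) hy, ?_⟩
    · have h1 : |sp (f.content * d)| ≤ |f.content * d| := by
        conv_rhs => rw [hz1]
        rw [abs_mul]
        have : 1 ≤ |z ^ 2| := Int.one_le_abs (pow_ne_zero 2 hz3)
        nlinarith [abs_nonneg (sp (f.content * d))]
      have h2 : |((sp (f.content * d) : ℤ) : ℝ)| ≤ |((f.content * d : ℤ) : ℝ)| := by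
        exact_mod_cast h1
      refine lt_of_le_of_lt h2 ?_
      push_cast
      rw [abs_mul]
      rw [lt_div_iff₀ habs] at hd2
      linarith
    · have h3 : ((sp (f.content * d) : ℤ) : ℚ) * (z : ℚ) ^ 2 = ((f.content : ℤ) : ℚ) * d := by
        have := congrArg (fun t : ℤ => (t : ℚ)) hz1
        push_cast at this
        exact this.symm
      calc ((sp (f.content * d) : ℤ) : ℚ) * ((z : ℚ) * y) ^ 2
          = (((sp (f.content * d) : ℤ) : ℚ) * (z : ℚ) ^ 2) * y ^ 2 := by ring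
        _ = ((f.content : ℤ) : ℚ) * ((d : ℚ) * y ^ 2) := by rw [h3]; ring
        _ = ((f.content : ℤ) : ℚ) * aeval x f.primPart := by rw [hxy]
        _ = aeval x f := by
          conv_rhs => rw [hfe]
          rw [map_mul, aeval_C]
          simp
  · rintro d₁ ⟨hd1, -, -⟩ d₂ ⟨hd2, -, -⟩ he
    simp only at he
    obtain ⟨z₁, hz1, -, hz3⟩ := sp_spec (mul_ne_zero hk0 hd1.ne_zero)
    obtain ⟨z₂, hw1, -, hw3⟩ := sp_spec (mul_ne_zero hk0 hd2.ne_zero)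
    refine inj hd1 hd2 hz3 (m₂ := z₂) ?_
    have h1 : f.content * (d₁ * z₂ ^ 2) = f.content * (d₂ * z₁ ^ 2) := by
      calc f.content * (d₁ * z₂ ^ 2) = (f.content * d₁) * z₂ ^ 2 := by ring
        _ = (sp (f.content * d₁) * z₁ ^ 2) * z₂ ^ 2 := by rw [← hz1]
        _ = (sp (f.content * d₂) * z₂ ^ 2) * z₁ ^ 2 := by rw [he]; ring
        _ = (f.content * d₂) * z₁ ^ 2 := by rw [← hw1]
        _ = f.content * (d₂ * z₁ ^ 2) := by ring
    exact mul_left_cancel₀ hk0 h1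

end Pool.Agent.H11.TW
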