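import Pool.Agent.H11.TW.Stm2
import Pool.Agent.H11.TW.DIS

/-!
# TW2-DIV2: distinct twists from the pairs of primes (helper88)
-/

set_option autoImplicit false

namespace Pool.Agent.H11.TW

open Polynomial Finset Filter Topology

namespace DIV2x

theorem mem_PP {f : ℤ[X]} {T : ℕ} (hT : 2 ≤ T) {u : ℕ × ℕ} (hu : u ∈ PP f T) :
    u.1.Prime ∧ u.2.Prime ∧ (T : ℝ) ^ (1 / 4 : ℝ) < u.1 ∧ (u.1 : ℝ) ≤ (T : ℝ) ^ (1 / 2 : ℝ) ∧
      (T : ℝ) ^ (5 / 4 : ℝ) < u.2 ∧ (u.2 : ℝ) ≤ (T : ℝ) ^ (7 / 4 : ℝ) ∧ T < u.2 ∧ u.1 * u.2 ≤ T ^ 2 ∧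
      1 ≤ rt f u.1 ∧ 1 ≤ rt f u.2 := by
  unfold PP at hu
  rw [Finset.mem_filter, Finset.mem_product, DISx.mem_pr (by positivity),
    DISx.mem_pr (by positivity)] at hu
  obtain ⟨⟨⟨a1, a2, a3⟩, b1, b2, b3⟩, c1, c2, c3, c4⟩ := hu
  have hT1 : (1 : ℝ) ≤ T := by exact_mod_cast (by omega : 1 ≤ T)
  have hu1 : (0 : ℝ) < u.1 := by exact_mod_cast a1.pos
  have hu2 : (0 : ℝ) < u.2 := by exact_mod_cast b1.pos
  refine ⟨a1, b1, a2, a3, b2, b3, ?_, ?_, c3, c4⟩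
  · have : (T : ℝ) < u.2 := by
      refine lt_of_le_of_lt ?_ b2
      calc (T : ℝ) = (T : ℝ) ^ (1 : ℝ) := (Real.rpow_one _).symm
        _ ≤ _ := Real.rpow_le_rpow_of_exponent_le hT1 (by norm_num)
    exact_mod_cast this
  · have : (u.1 : ℝ) * u.2 ≤ (T : ℝ) ^ 2 := by
      rw [le_div_iff₀ (by positivity)] at c2
      nlinarith [mul_pos hu1 hu2]
    exact_mod_cast this

theorem prim_spec {v : ℤ × ℤ} {T : ℕ} (hv : v ∈ bx T) :
    v.1 = gc v * (prim v).1 ∧ v.2 = gc v * (prim v).2 ∧ 0 < gc v ∧ gc v ≤ T ∧ (prim v).2 ≠ 0 ∧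
      |(prim v).1| ≤ T ∧ |(prim v).2| ≤ T := by
  unfold bx at hv
  rw [Finset.mem_filter, Finset.mem_product, Finset.mem_Icc, Finset.mem_Icc] at hv
  obtain ⟨⟨⟨a1, a2⟩, b1, b2⟩, hv2⟩ := hv
  have e1 : v.1 = gc v * (prim v).1 := (Int.mul_ediv_cancel' (Int.gcd_dvd_left ..)).symm
  have e2 : v.2 = gc v * (prim v).2 := (Int.mul_ediv_cancel' (Int.gcd_dvd_right ..)).symm
  have hg : 0 < gc v := Int.gcd_pos_of_ne_zero_right _ hv2
  have hg' : (1 : ℤ) ≤ gc v := by exact_mod_cast hg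
  have hw2 : (prim v).2 ≠ 0 := by
    intro h
    rw [h, mul_zero] at e2
    exact hv2 e2
  have k1 : |v.1| = gc v * |(prim v).1| := by
    conv_lhs => rw [e1]
    rw [abs_mul, Nat.abs_cast]
  have k2 : |v.2| = gc v * |(prim v).2| := by
    conv_lhs => rw [e2]
    rw [abs_mul, Nat.abs_cast]
  have l1 : |v.1| ≤ T := abs_le.2 ⟨a1, a2⟩
  have l2 : |v.2| ≤ T := abs_le.2 ⟨b1, b2⟩
  have m1 : (1 : ℤ) ≤ |(prim v).2| := Int.one_le_abs hw2
  refine ⟨e1, e2, hg, ?_, hw2, ?_, ?_⟩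
  · have : (gc v : ℤ) ≤ T := by nlinarith
    exact_mod_cast this
  · nlinarith [abs_nonneg (prim v).1]
  · nlinarith [abs_nonneg (prim v).2]

end DIV2x

theorem DIV2_main (h1 : S_PPC) (h2 : S_VEC) (h3 : S_BAD) (h4 : S_PT) (h5 : S_HB) (h6 : S_DVD) : S_DIV2 := by
  classical
  intro f hirr hsq hev hn hF0
  have hD : dg f = f.natDegree := by
    unfold dg
    obtain ⟨k, hk⟩ := hev
    omega
  obtain ⟨c, hc, hPP⟩ := h1 f hirr (by omega)
  obtain ⟨C, hC1, hC⟩ := h5 f f.natDegree le_rfl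
  have hBAD := h3 f hsq hF0
  have h4f := h4 f
  have h6f := h6.2 f f.natDegree
  rw [hD] at h4f ⊢
  set n := f.natDegree with hnd
  obtain ⟨K, hK⟩ : ∃ K : ℕ, K = 4 * (n + 1) := ⟨_, rfl⟩
  have hKpos : (0 : ℝ) < ((K * K : ℕ) : ℝ) := by
    have : 0 < K * K := by rw [hK]; positivity
    exact_mod_cast this
  refine ⟨c / 2 / ((K * K : ℕ) : ℝ), 2 * C, by positivity, by positivity, ?_⟩
  have hbig : ∀ᶠ T : ℕ in atTop, Real.log (T : ℝ) ≤ c / 2 * (T : ℝ) ^ (1 / 16 : ℝ) := by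
    have e1 := (isLittleO_log_rpow_atTop (by norm_num : (0 : ℝ) < 1 / 16)).def
      (by positivity : (0 : ℝ) < c / 2)
    have e2 := tendsto_natCast_atTop_atTop (R := ℝ) |>.eventually e1
    filter_upwards [e2] with T e3
    have e4 : (0 : ℝ) ≤ (T : ℝ) ^ (1 / 16 : ℝ) := by positivity
    rw [Real.norm_eq_abs, Real.norm_eq_abs, abs_of_nonneg e4] at e3
    exact (le_abs_self _).trans e3
  filter_upwards [hPP, hBAD, hbig, eventually_ge_atTop 2, eventually_ge_atTop ⌈C⌉₊]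
    with T g1 g2 g3 hT gC
  have hT2 : (2 : ℝ) ≤ T := by exact_mod_cast hT
  have hTC : C ≤ T := (Nat.le_ceil C).trans (by exact_mod_cast gC)
  have hL0 : 0 < Real.log (T : ℝ) := Real.log_pos (by linarith)
  set F : ℤ × ℤ → ℤ := fun v => hom f n v.1 v.2 with hF
  -- the vectors
  have hVex : ∀ u : ℕ × ℕ, ∃ v : ℤ × ℤ, u ∈ PP f T → (v ∈ bx T ∧ (u.1 : ℤ) ∣ hom f f.natDegree v.1 v.2 ∧
      (u.2 : ℤ) ∣ hom f f.natDegree v.1 v.2) := by
    intro u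
    by_cases hu : u ∈ PP f T
    · obtain ⟨p1, p2, p3, p4, p5, p6, p7, p8, p9, p10⟩ := DIV2x.mem_PP hT hu
      obtain ⟨v, v1, v2, v3⟩ := h2 f u.1 u.2 T p1 p2 p7 p8 p9 p10
      exact ⟨v, fun _ => ⟨v1, v2, v3⟩⟩
    · exact ⟨0, fun h => absurd h hu⟩
  choose V hV using hVex
  have g2V := g2 V (fun u hu => hV u hu)
  set Bad : Finset (ℕ × ℕ) := (PP f T).filter (fun u => u.1 ∣ gc (V u) ∨
    (u.1 : ℤ) ^ 2 ∣ hom f f.natDegree (prim (V u)).1 (prim (V u)).2 ∨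
    (u.2 : ℤ) ^ 2 ∣ hom f f.natDegree (prim (V u)).1 (prim (V u)).2) with hBad
  have hBadc : (Bad.card : ℝ) ≤ c / 2 * (T : ℝ) ^ 2 / Real.log T := by
    have e0 : (Bad.card : ℝ) ≤ (T : ℝ) ^ (31 / 16 : ℝ) := by
      rw [← Set.ncard_coe_finset]
      refine le_trans (le_of_eq ?_) g2V
      congr 2
      ext v
      rw [Finset.mem_coe, hBad, Finset.mem_filter]
      rfl
    refine e0.trans ?_
    rw [le_div_iff₀ hL0]
    have e1 : (T : ℝ) ^ 2 = (T : ℝ) ^ (31 / 16 : ℝ) * (T : ℝ) ^ (1 / 16 : ℝ) := by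
      rw [← Real.rpow_add (by linarith), ← Real.rpow_natCast]
      norm_num
    rw [e1]
    have e2 : (0 : ℝ) ≤ (T : ℝ) ^ (31 / 16 : ℝ) := by positivity
    nlinarith [mul_le_mul_of_nonneg_left g3 e2]
  set G : Finset (ℕ × ℕ) := (PP f T) \ Bad with hG
  have hGc : c / 2 * (T : ℝ) ^ 2 / Real.log T ≤ (G.card : ℝ) := by
    have e1 : (PP f T).card ≤ G.card + Bad.card := by
      have := Finset.le_card_sdiff Bad (PP f T)
      rw [← hG] at this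
      omega
    have e2 : ((PP f T).card : ℝ) ≤ G.card + Bad.card := by exact_mod_cast e1
    have e3 : c * (T : ℝ) ^ 2 / Real.log T = c / 2 * (T : ℝ) ^ 2 / Real.log T +
      c / 2 * (T : ℝ) ^ 2 / Real.log T := by ring
    linarith
  -- facts on the elements of `G`
  have hmem : ∀ u ∈ G, u.1.Prime ∧ u.2.Prime ∧ (T : ℝ) ^ (1 / 4 : ℝ) < u.1 ∧
      (T : ℝ) ^ (1 / 4 : ℝ) < u.2 ∧ (u.1 : ℝ) ≤ (T : ℝ) ^ (7 / 4 : ℝ) ∧ (u.2 : ℝ) ≤ (T : ℝ) ^ (7 / 4 : ℝ) ∧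
      (prim (V u)).2 ≠ 0 ∧ F (prim (V u)) ≠ 0 ∧ |((F (prim (V u)) : ℤ) : ℝ)| ≤ C * (T : ℝ) ^ n ∧
      (u.1 : ℤ) ∣ F (prim (V u)) ∧ (u.2 : ℤ) ∣ F (prim (V u)) ∧
      ¬ (u.1 : ℤ) ^ 2 ∣ F (prim (V u)) ∧ ¬ (u.2 : ℤ) ^ 2 ∣ F (prim (V u)) := by
    intro u hu
    rw [hG, Finset.mem_sdiff] at hu
    obtain ⟨hu1, hu2⟩ := hu
    have hnb : ¬ (u.1 ∣ gc (V u) ∨ (u.1 : ℤ) ^ 2 ∣ hom f f.natDegree (prim (V u)).1 (prim (V u)).2 ∨
        (u.2 : ℤ) ^ 2 ∣ hom f f.natDegree (prim (V u)).1 (prim (V u)).2) := fun h =>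
      hu2 (by rw [hBad, Finset.mem_filter]; exact ⟨hu1, h⟩)
    push Not at hnb
    obtain ⟨b1, b2, b3⟩ := hnb
    obtain ⟨p1, p2, p3, p4, p5, p6, p7, p8, p9, p10⟩ := DIV2x.mem_PP hT hu1
    obtain ⟨v1, v2, v3⟩ := hV u hu1
    obtain ⟨w1, w2, w3, w4, w5, w6, w7⟩ := DIV2x.prim_spec v1
    have hhom : hom f n (V u).1 (V u).2 = (gc (V u) : ℤ) ^ n * F (prim (V u)) := by
      rw [w1, w2]
      exact h6f _ _ _ le_rfl
    have hT1 : (1 : ℝ) ≤ T := by linarith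
    have hdv : ∀ p : ℕ, p.Prime → ¬ p ∣ gc (V u) → (p : ℤ) ∣ hom f n (V u).1 (V u).2 →
        (p : ℤ) ∣ F (prim (V u)) := by
      intro p hp hpg hpd
      rw [hhom] at hpd
      have pp : Prime (p : ℤ) := Nat.prime_iff_prime_int.1 hp
      rcases pp.dvd_or_dvd hpd with h | h
      · exact absurd (Int.natCast_dvd_natCast.1 (pp.dvd_of_dvd_pow h)) hpg
      · exact h
    refine ⟨p1, p2, p3, ?_, ?_, p6, w5, hF0 _ _ w5, hC T _ (by omega) w6 w7, hdv _ p1 b1 v2,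
      hdv _ p2 ?_ v3, b2, b3⟩
    · exact lt_of_le_of_lt (Real.rpow_le_rpow_of_exponent_le hT1 (by norm_num)) p5
    · exact p4.trans (Real.rpow_le_rpow_of_exponent_le hT1 (by norm_num))
    · intro h
      have := Nat.le_of_dvd w3 h
      omega
  -- the prime divisors of the squarefree part
  have hsp : ∀ u ∈ G, (u.1 : ℤ) ∣ DISx.sp (F (prim (V u))) ∧ (u.2 : ℤ) ∣ DISx.sp (F (prim (V u))) := by
    intro u hu
    obtain ⟨u1, u2, u3, u4, u5, u6, u7, u8, u9, u10, u11, u12, u13⟩ := hmem u hu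
    obtain ⟨z, z1, z2, z3⟩ := DISx.sp_spec u8
    have key : ∀ p : ℕ, p.Prime → (p : ℤ) ∣ F (prim (V u)) → ¬ (p : ℤ) ^ 2 ∣ F (prim (V u)) →
        (p : ℤ) ∣ DISx.sp (F (prim (V u))) := by
      intro p hp hd hnd2
      have pp : Prime (p : ℤ) := Nat.prime_iff_prime_int.1 hp
      rw [z1] at hd
      rcases pp.dvd_or_dvd hd with h5 | h5
      · exact h5
      · exfalso
        refine hnd2 ?_
        rw [z1]
        exact (pow_dvd_pow_of_dvd (pp.dvd_of_dvd_pow h5) 2).mul_left _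
    exact ⟨key _ u1 u10 u12, key _ u2 u11 u13⟩
  -- the image
  have himg : ((G.image fun u => DISx.sp (F (prim (V u))) : Finset ℤ) : Set ℤ) ⊆
      Tw f (2 * C * (T : ℝ) ^ n) := by
    intro d hd
    rw [Finset.mem_coe, Finset.mem_image] at hd
    obtain ⟨u, hu, rfl⟩ := hd
    obtain ⟨u1, u2, u3, u4, u5, u6, u7, u8, u9, u10, u11, u12, u13⟩ := hmem u hu
    obtain ⟨z, z1, z2, z3⟩ := DISx.sp_spec u8
    refine ⟨z2, ?_, h4f _ _ _ z u7 z3 z1⟩
    have e1 : |((DISx.sp (F (prim (V u))) : ℤ) : ℝ)| ≤ |((F (prim (V u)) : ℤ) : ℝ)| := by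
      have e2 : ((F (prim (V u)) : ℤ) : ℝ) = ((DISx.sp (F (prim (V u))) : ℤ) : ℝ) * ((z : ℤ) : ℝ) ^ 2 := by
        exact_mod_cast z1
      rw [e2, abs_mul]
      refine le_mul_of_one_le_right (abs_nonneg _) ?_
      have e3 : (1 : ℤ) ≤ z ^ 2 := by
        have := sq_pos_of_ne_zero z3
        omega
      have e4 : (1 : ℝ) ≤ ((z : ℤ) : ℝ) ^ 2 := by exact_mod_cast e3
      exact e4.trans (le_abs_self _)
    have e5 : 0 < C * (T : ℝ) ^ n := by positivity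
    have e6 : 2 * C * (T : ℝ) ^ n = 2 * (C * (T : ℝ) ^ n) := by ring
    show |((DISx.sp (F (prim (V u))) : ℤ) : ℝ)| < 2 * C * (T : ℝ) ^ n
    rw [e6]
    linarith
  have hfin : (Tw f (2 * C * (T : ℝ) ^ n)).Finite := by
    refine (Set.finite_Icc (-⌈2 * C * (T : ℝ) ^ n⌉) ⌈2 * C * (T : ℝ) ^ n⌉).subset ?_
    rintro d ⟨-, hd, -⟩
    have e1 := Int.le_ceil (2 * C * (T : ℝ) ^ n)
    obtain ⟨e2, e3⟩ := abs_lt.1 hd
    rw [Set.mem_Icc]
    constructor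
    · have : ((-⌈2 * C * (T : ℝ) ^ n⌉ : ℤ) : ℝ) ≤ d := by
        push_cast
        linarith
      exact_mod_cast this
    · have : (d : ℝ) ≤ (⌈2 * C * (T : ℝ) ^ n⌉ : ℤ) := by linarith
      exact_mod_cast this
  -- the fibres
  have hfib : ∀ d ∈ G.image (fun u => DISx.sp (F (prim (V u)))),
      (G.filter (fun u => DISx.sp (F (prim (V u))) = d)).card ≤ K * K := by
    intro d hd
    set P : Finset ℕ := (pr ((T : ℝ) ^ (1 / 4 : ℝ)) ((T : ℝ) ^ (7 / 4 : ℝ))).filter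
      (fun p : ℕ => (p : ℤ) ∣ d) with hP
    have hPp : ∀ p ∈ P, p.Prime ∧ (T : ℝ) ^ (1 / 4 : ℝ) < p := by
      intro p hp
      rw [hP, Finset.mem_filter, DISx.mem_pr (by positivity)] at hp
      exact ⟨hp.1.1, hp.1.2.1⟩
    obtain ⟨v, hv, hvd⟩ := Finset.mem_image.1 hd
    obtain ⟨u1, u2, u3, u4, u5, u6, u7, u8, u9, u10, u11, u12, u13⟩ := hmem v hv
    have hcard : P.card ≤ K := by
      have hlogP : Real.log ((∏ p ∈ P, p : ℕ) : ℝ) = ∑ p ∈ P, Real.log p := by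
        push_cast
        rw [Real.log_prod]
        intro p hp
        exact_mod_cast (hPp p hp).1.ne_zero
      have hP0 : (0 : ℝ) < ((∏ p ∈ P, p : ℕ) : ℝ) := by
        exact_mod_cast Finset.prod_pos fun p hp => (hPp p hp).1.pos
      have e1 : (P.card : ℝ) * (1 / 4 * Real.log T) ≤ ∑ p ∈ P, Real.log p := by
        rw [← nsmul_eq_mul]
        refine Finset.card_nsmul_le_sum _ _ _ fun p hp => ?_
        rw [← Real.log_rpow (by linarith)]
        exact Real.log_le_log (by positivity) (hPp p hp).2.le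
      have e2 : (∏ p ∈ P, p) ∣ (F (prim (V v))).natAbs := by
        refine Finset.prod_primes_dvd _ (fun p hp => Nat.prime_iff.1 (hPp p hp).1) fun p hp => ?_
        rw [hP, Finset.mem_filter, ← hvd] at hp
        obtain ⟨z, z1, z2, z3⟩ := DISx.sp_spec u8
        refine Int.natCast_dvd.1 ?_
        rw [z1]
        exact hp.2.mul_right _
      have e3 : ((∏ p ∈ P, p : ℕ) : ℝ) ≤ |((F (prim (V v)) : ℤ) : ℝ)| := by
        have e4 : (∏ p ∈ P, p) ≤ (F (prim (V v))).natAbs := Nat.le_of_dvd (Int.natAbs_pos.2 u8) e2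
        have e5 : (((F (prim (V v))).natAbs : ℕ) : ℝ) = |((F (prim (V v)) : ℤ) : ℝ)| := by
          rw [Nat.cast_natAbs, Int.cast_abs]
        rw [← e5]
        exact_mod_cast e4
      have e6 := Real.log_le_log hP0 (e3.trans u9)
      rw [Real.log_mul (by linarith) (by positivity), Real.log_pow, hlogP] at e6
      have e7 : Real.log C ≤ Real.log T := Real.log_le_log (by linarith) hTC
      have e8 : ((P.card : ℝ) * (1 / 4)) * Real.log T ≤ (n + 1) * Real.log T := by linarith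
      have e9 := le_of_mul_le_mul_right e8 hL0
      have e10 : (P.card : ℝ) ≤ ((K : ℕ) : ℝ) := by
        rw [hK]
        push_cast
        linarith
      exact_mod_cast e10
    have hsub : G.filter (fun u => DISx.sp (F (prim (V u))) = d) ⊆ P ×ˢ P := by
      intro u hu
      rw [Finset.mem_filter] at hu
      obtain ⟨hu1, hu2⟩ := hu
      obtain ⟨x1, x2, x3, x4, x5, x6, x7, x8, x9, x10, x11, x12, x13⟩ := hmem u hu1
      have hs := hsp u hu1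
      rw [hu2] at hs
      rw [Finset.mem_product, hP, Finset.mem_filter, Finset.mem_filter,
        DISx.mem_pr (by positivity), DISx.mem_pr (by positivity)]
      exact ⟨⟨⟨x1, x3, x5⟩, hs.1⟩, ⟨x2, x4, x6⟩, hs.2⟩
    calc (G.filter (fun u => DISx.sp (F (prim (V u))) = d)).card ≤ (P ×ˢ P).card :=
          Finset.card_le_card hsub
      _ = P.card * P.card := Finset.card_product _ _
      _ ≤ K * K := Nat.mul_le_mul hcard hcard
  have hle := Finset.card_le_mul_card_image G _ hfib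
  have hle2 : (G.image fun u => DISx.sp (F (prim (V u)))).card ≤ (Tw f (2 * C * (T : ℝ) ^ n)).ncard := by
    rw [← Set.ncard_coe_finset]
    exact Set.ncard_le_ncard himg hfin
  have hle3 : (G.card : ℝ) ≤ ((K * K : ℕ) : ℝ) * ((Tw f (2 * C * (T : ℝ) ^ n)).ncard : ℝ) := by
    exact_mod_cast hle.trans (Nat.mul_le_mul_left _ hle2)
  have e1 : c / 2 / ((K * K : ℕ) : ℝ) * (T : ℝ) ^ 2 / Real.log T =
      (c / 2 * (T : ℝ) ^ 2 / Real.log T) / ((K * K : ℕ) : ℝ) := by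
    field_simp
  rw [e1, div_le_iff₀ hKpos]
  linarith

end Pool.Agent.H11.TW
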