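import Pool.Agent.H11.TW.Stm2
import Pool.Agent.H11.V.R_seed8_Helper923_PNT

set_option autoImplicit false

namespace Pool.Agent.H11.TW.DYx

open Polynomial Finset Filter Topology

/-- the sum over the primes up to `N` -/
noncomputable def S (f : ℤ[X]) (N : ℕ) : ℝ := ∑ p ∈ (range (N + 1)).filter Nat.Prime, (rt f p : ℝ)

theorem split (f : ℤ[X]) (x : ℝ) (hx : 0 ≤ x) :
    ∑ p ∈ pr x (2 * x), (rt f p : ℝ) = S f ⌊2 * x⌋₊ - S f ⌊x⌋₊ := by
  unfold S
  rw [← sum_filter_add_sum_filter_not ((range (⌊2 * x⌋₊ + 1)).filter Nat.Prime)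
    (fun p : ℕ => x < p), filter_filter, filter_filter]
  have h1 : (range (⌊2 * x⌋₊ + 1)).filter (fun p : ℕ => p.Prime ∧ ¬ x < p) =
      (range (⌊x⌋₊ + 1)).filter Nat.Prime := by
    ext p
    simp only [mem_filter, mem_range, not_lt, Nat.lt_succ_iff]
    rw [Nat.le_floor_iff (by linarith), Nat.le_floor_iff hx]
    constructor
    · rintro ⟨-, h2, h3⟩
      exact ⟨h3, h2⟩
    · rintro ⟨h2, h3⟩
      exact ⟨by linarith, h3, h2⟩
  rw [h1]
  unfold pr
  ring

end DYx

open Polynomial Finset Filter Topology in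
theorem DY_main (h : S_PI) : S_DY := by
  intro f hf hd
  have h1 : Tendsto (fun N : ℕ => DYx.S f N / (Nat.primeCounting N : ℝ)) atTop (𝓝 1) := h f hf hd
  have hpi := Pool.Agent.Helper923.PNT.pi_tendsto
  -- `S(x) log x / x → 1`
  have h2 : Tendsto (fun x : ℝ => DYx.S f ⌊x⌋₊ * Real.log x / x) atTop (𝓝 1) := by
    have a1 := (h1.comp tendsto_nat_floor_atTop).mul hpi
    rw [one_mul] at a1
    refine a1.congr' ?_
    filter_upwards [eventually_ge_atTop (2 : ℝ)] with x hx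
    have h3 : 0 < Nat.primeCounting ⌊x⌋₊ := by
      have : 2 ≤ ⌊x⌋₊ := Nat.le_floor (by exact_mod_cast hx)
      calc 0 < Nat.primeCounting 2 := by decide
        _ ≤ _ := Nat.monotone_primeCounting this
    have h4 : (0 : ℝ) < Nat.primeCounting ⌊x⌋₊ := by exact_mod_cast h3
    simp only [Function.comp]
    field_simp
  have l2 : Tendsto (fun x : ℝ => 2 * x) atTop atTop := tendsto_id.const_mul_atTop (by norm_num)
  have h3 := h2.comp l2
  -- `log x / log (2 x) → 1`
  have h4 : Tendsto (fun x : ℝ => Real.log x / Real.log (2 * x)) atTop (𝓝 1) := by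
    have a1 : Tendsto (fun x : ℝ => 1 - Real.log 2 / Real.log (2 * x)) atTop (𝓝 (1 - 0)) :=
      ((Real.tendsto_log_atTop.comp l2).const_div_atTop (Real.log 2)).const_sub 1
    rw [sub_zero] at a1
    refine a1.congr' ?_
    filter_upwards [eventually_ge_atTop (2 : ℝ)] with x hx
    have h5 : 0 < Real.log (2 * x) := Real.log_pos (by linarith)
    rw [eq_div_iff h5.ne', sub_mul, div_mul_cancel₀ _ h5.ne', Real.log_mul (by norm_num) (by linarith)]
    ring
  have h5 : Tendsto (fun x : ℝ => 2 * ((DYx.S f ⌊2 * x⌋₊ * Real.log (2 * x) / (2 * x)) *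
      (Real.log x / Real.log (2 * x))) - DYx.S f ⌊x⌋₊ * Real.log x / x) atTop
      (𝓝 (2 * (1 * 1) - 1)) := ((h3.mul h4).const_mul 2).sub h2
  filter_upwards [h5.eventually_const_lt (show (1 / 2 : ℝ) < 2 * (1 * 1) - 1 by norm_num),
    eventually_ge_atTop (2 : ℝ)] with x e1 e2
  rw [DYx.split f x (by linarith)]
  have hl : 0 < Real.log x := Real.log_pos (by linarith)
  have hl2 : 0 < Real.log (2 * x) := Real.log_pos (by linarith)
  have hx : 0 < x := by linarith
  have e3 : 2 * ((DYx.S f ⌊2 * x⌋₊ * Real.log (2 * x) / (2 * x)) *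
      (Real.log x / Real.log (2 * x))) - DYx.S f ⌊x⌋₊ * Real.log x / x =
      (DYx.S f ⌊2 * x⌋₊ - DYx.S f ⌊x⌋₊) * (Real.log x / x) := by
    field_simp
  rw [e3] at e1
  rw [div_le_iff₀ hl]
  have e4 : (DYx.S f ⌊2 * x⌋₊ - DYx.S f ⌊x⌋₊) * (Real.log x / x) * x =
      (DYx.S f ⌊2 * x⌋₊ - DYx.S f ⌊x⌋₊) * Real.log x := by
    field_simp
  rw [← e4]
  exact (mul_lt_mul_of_pos_right e1 hx).le

end Pool.Agent.H11.TW
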