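import Pool.Agent.H11.TW.Stm2

/-! TW2-PPC (helper61): many pairs of primes. -/

set_option autoImplicit false

namespace Pool.Agent.H11.TW

open Polynomial Finset Filter Topology

namespace PPCx

lemma mem_pr {y z : ℝ} (hz : 0 ≤ z) {p : ℕ} : p ∈ pr y z ↔ p.Prime ∧ y < p ∧ (p : ℝ) ≤ z := by
  unfold pr
  rw [mem_filter, mem_range, Nat.lt_succ_iff, Nat.le_floor_iff hz]
  tauto

lemma card_PP (f : ℤ[X]) (T : ℕ) : (PP f T).card =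
    ∑ p ∈ pr ((T : ℝ) ^ (1 / 4 : ℝ)) ((T : ℝ) ^ (1 / 2 : ℝ)),
      ((pr ((T : ℝ) ^ (5 / 4 : ℝ)) ((T : ℝ) ^ (7 / 4 : ℝ))).filter
        (fun q : ℕ => (T : ℝ) ^ 2 / (8 * p) < q ∧ (q : ℝ) ≤ (T : ℝ) ^ 2 / (4 * p) ∧ 1 ≤ rt f p ∧ 1 ≤ rt f q)).card := by
  unfold PP
  rw [card_filter, sum_product]
  refine sum_congr rfl fun p _ => ?_
  rw [card_filter]

/-- the number of `q` for one `p` -/
lemma key (f : ℤ[X]) (T p n B0 : ℕ) (X0 : ℝ) (hn : 0 < n) (hp : p.Prime)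
    (hRT : ∀ q : ℕ, q.Prime → B0 < q → rt f q ≤ n)
    (hX0 : ∀ x : ℝ, X0 ≤ x → (1 / 2 : ℝ) * x / Real.log x ≤ ∑ q ∈ pr x (2 * x), (rt f q : ℝ))
    (hT : 2 ≤ T) (h8 : 8 ≤ (T : ℝ) ^ (1 / 4 : ℝ)) (hB : (B0 : ℝ) ≤ (T : ℝ) ^ (1 / 4 : ℝ))
    (hX : X0 ≤ (T : ℝ) ^ (3 / 2 : ℝ) / 8)
    (hp1 : (T : ℝ) ^ (1 / 4 : ℝ) < p) (hp2 : (p : ℝ) ≤ (T : ℝ) ^ (1 / 2 : ℝ)) :
    (rt f p : ℝ) / p * ((T : ℝ) ^ 2 / (32 * n ^ 2 * Real.log T)) ≤
      (((pr ((T : ℝ) ^ (5 / 4 : ℝ)) ((T : ℝ) ^ (7 / 4 : ℝ))).filter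
        (fun q : ℕ => (T : ℝ) ^ 2 / (8 * p) < q ∧ (q : ℝ) ≤ (T : ℝ) ^ 2 / (4 * p) ∧ 1 ≤ rt f p ∧
          1 ≤ rt f q)).card : ℝ) := by
  have hT1 : (1 : ℝ) < T := by exact_mod_cast hT
  have hT0 : (0 : ℝ) < T := by linarith
  have hlog : 0 < Real.log T := Real.log_pos hT1
  have hn0 : (0 : ℝ) < n := by exact_mod_cast hn
  have hp0 : (0 : ℝ) < p := by exact_mod_cast hp.pos
  rcases Nat.eq_zero_or_pos (rt f p) with h0 | hr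
  · rw [h0]
    simp
  set x : ℝ := (T : ℝ) ^ 2 / (8 * p) with hx
  have e32 : (T : ℝ) ^ (3 / 2 : ℝ) * (T : ℝ) ^ (1 / 2 : ℝ) = (T : ℝ) ^ 2 := by
    rw [← Real.rpow_add hT0, ← Real.rpow_natCast]
    norm_num
  have e54 : (T : ℝ) ^ (5 / 4 : ℝ) * (T : ℝ) ^ (1 / 4 : ℝ) = (T : ℝ) ^ (3 / 2 : ℝ) := by
    rw [← Real.rpow_add hT0]
    norm_num
  have e74 : (T : ℝ) ^ (7 / 4 : ℝ) * (T : ℝ) ^ (1 / 4 : ℝ) = (T : ℝ) ^ 2 := by
    rw [← Real.rpow_add hT0, ← Real.rpow_natCast]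
    norm_num
  have p32 : 0 < (T : ℝ) ^ (3 / 2 : ℝ) := Real.rpow_pos_of_pos hT0 _
  have p54 : 0 < (T : ℝ) ^ (5 / 4 : ℝ) := Real.rpow_pos_of_pos hT0 _
  have p74 : 0 < (T : ℝ) ^ (7 / 4 : ℝ) := Real.rpow_pos_of_pos hT0 _
  have hx1 : (T : ℝ) ^ (3 / 2 : ℝ) / 8 ≤ x := by
    rw [hx, div_le_div_iff₀ (by norm_num) (by positivity), ← e32]
    nlinarith
  have hx2 : (T : ℝ) ^ (5 / 4 : ℝ) ≤ x := by
    refine le_trans ?_ hx1
    rw [← e54]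
    nlinarith
  have hx3 : 2 * x ≤ (T : ℝ) ^ (7 / 4 : ℝ) := by
    have e : 2 * x = (T : ℝ) ^ 2 / (4 * p) := by
      rw [hx]; field_simp; norm_num
    rw [e, div_le_iff₀ (by positivity), ← e74]
    nlinarith
  have e2x : 2 * x = (T : ℝ) ^ 2 / (4 * p) := by
    rw [hx]; field_simp; norm_num
  have h54 : (1 : ℝ) < (T : ℝ) ^ (5 / 4 : ℝ) := Real.one_lt_rpow hT1 (by norm_num)
  have h5414 : (T : ℝ) ^ (1 / 4 : ℝ) ≤ (T : ℝ) ^ (5 / 4 : ℝ) :=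
    Real.rpow_le_rpow_of_exponent_le hT1.le (by norm_num)
  have hx0 : 1 < x := h54.trans_le hx2
  have hDY := hX0 x (hX.trans hx1)
  have hsub : (pr x (2 * x)).filter (fun q => 1 ≤ rt f q) ⊆
      ((pr ((T : ℝ) ^ (5 / 4 : ℝ)) ((T : ℝ) ^ (7 / 4 : ℝ))).filter
        (fun q : ℕ => (T : ℝ) ^ 2 / (8 * p) < q ∧ (q : ℝ) ≤ (T : ℝ) ^ 2 / (4 * p) ∧ 1 ≤ rt f p ∧
          1 ≤ rt f q)) := by
    intro q hq
    rw [mem_filter, mem_pr (by linarith)] at hq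
    obtain ⟨⟨hq1, hq2, hq3⟩, hq4⟩ := hq
    rw [mem_filter, mem_pr p74.le]
    refine ⟨⟨hq1, hx2.trans_lt hq2, hq3.trans hx3⟩, hq2, ?_, hr, hq4⟩
    rw [← e2x]
    exact hq3
  have hcard := card_le_card hsub
  have hsum : ∑ q ∈ pr x (2 * x), (rt f q : ℝ) ≤ n * (((pr x (2 * x)).filter (fun q => 1 ≤ rt f q)).card : ℝ) := by
    have h1 : ∑ q ∈ pr x (2 * x), (rt f q : ℝ) ≤ ∑ q ∈ pr x (2 * x), if 1 ≤ rt f q then (n : ℝ) else 0 := by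
      refine sum_le_sum fun q hq => ?_
      rw [mem_pr (by linarith)] at hq
      split_ifs with h
      · have hqB : B0 < q := by
          have : (B0 : ℝ) < q := lt_of_le_of_lt (hB.trans (h5414.trans hx2)) hq.2.1
          exact_mod_cast this
        exact_mod_cast hRT q hq.1 hqB
      · have : rt f q = 0 := by omega
        rw [this]
        simp
    rw [← sum_filter, sum_const, nsmul_eq_mul] at h1
    linarith
  have hlogx : Real.log x ≤ 2 * Real.log T := by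
    have h1 : x ≤ (T : ℝ) ^ 2 := by
      rw [hx]
      refine div_le_self (by positivity) ?_
      have : (1 : ℝ) ≤ p := by exact_mod_cast hp.one_le
      linarith
    have h2 := Real.log_le_log (by linarith) h1
    rw [Real.log_pow] at h2
    exact_mod_cast h2
  have hlogx0 : 0 < Real.log x := Real.log_pos hx0
  have h1 : (1 / 2 : ℝ) * x / (2 * Real.log T) ≤ (1 / 2 : ℝ) * x / Real.log x :=
    div_le_div_of_nonneg_left (by positivity) hlogx0 hlogx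
  have h2 : (1 / 2 : ℝ) * x / (2 * Real.log T) = (T : ℝ) ^ 2 / (32 * p * Real.log T) := by
    rw [hx]; field_simp; norm_num
  have hrn : (rt f p : ℝ) ≤ n := by
    have hpB : B0 < p := by
      have : (B0 : ℝ) < p := hB.trans_lt hp1
      exact_mod_cast this
    exact_mod_cast hRT p hp hpB
  have h3 : (T : ℝ) ^ 2 / (32 * p * Real.log T) ≤
      n * (((pr x (2 * x)).filter (fun q => 1 ≤ rt f q)).card : ℝ) := by
    rw [← h2]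
    exact h1.trans (hDY.trans hsum)
  have h4 : (rt f p : ℝ) / p * ((T : ℝ) ^ 2 / (32 * n ^ 2 * Real.log T)) =
      (rt f p : ℝ) / n * ((T : ℝ) ^ 2 / (32 * p * Real.log T) / n) := by
    field_simp
  have h5 : (T : ℝ) ^ 2 / (32 * p * Real.log T) / n ≤
      (((pr x (2 * x)).filter (fun q => 1 ≤ rt f q)).card : ℝ) := by
    rw [div_le_iff₀ hn0]
    linarith
  rw [h4]
  calc (rt f p : ℝ) / n * ((T : ℝ) ^ 2 / (32 * p * Real.log T) / n) ≤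
      1 * ((T : ℝ) ^ 2 / (32 * p * Real.log T) / n) :=
        mul_le_mul_of_nonneg_right ((div_le_one hn0).mpr hrn) (by positivity)
    _ ≤ (((pr x (2 * x)).filter (fun q => 1 ≤ rt f q)).card : ℝ) := by rw [one_mul]; exact h5
    _ ≤ _ := Nat.cast_le.mpr hcard

end PPCx

open PPCx in
theorem PPC_main (h1 : S_DY) (h2 : S_MERV) (h3 : S_RTB) : S_PPC := by
  intro f hf hd
  obtain ⟨B0, hB0⟩ := h3 f hf.ne_zero
  obtain ⟨X0, hX0⟩ := eventually_atTop.1 (h1 f hf hd)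
  have hM := h2 f hf hd (1 / 4) (1 / 2) (1 / 8) (by norm_num) (by norm_num) (by norm_num)
  set n := f.natDegree with hn
  have hn0 : (0 : ℝ) < n := by exact_mod_cast hd
  refine ⟨1 / (128 * n ^ 2), by positivity, ?_⟩
  have t1 : Tendsto (fun T : ℕ => (T : ℝ) ^ (1 / 4 : ℝ)) atTop atTop :=
    (tendsto_rpow_atTop (by norm_num)).comp tendsto_natCast_atTop_atTop
  have t2 : Tendsto (fun T : ℕ => (T : ℝ) ^ (3 / 2 : ℝ)) atTop atTop :=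
    (tendsto_rpow_atTop (by norm_num)).comp tendsto_natCast_atTop_atTop
  filter_upwards [hM, t1.eventually_ge_atTop 8, t1.eventually_ge_atTop (B0 : ℝ),
    t2.eventually_ge_atTop (8 * X0), eventually_ge_atTop 2] with T hMT h8 hB hX hT
  have hT1 : (1 : ℝ) < T := by exact_mod_cast hT
  have hT0 : (0 : ℝ) < T := by linarith
  have hlog : 0 < Real.log T := Real.log_pos hT1
  have hpr : ∀ p ∈ pr ((T : ℝ) ^ (1 / 4 : ℝ)) ((T : ℝ) ^ (1 / 2 : ℝ)),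
      p.Prime ∧ (T : ℝ) ^ (1 / 4 : ℝ) < p ∧ (p : ℝ) ≤ (T : ℝ) ^ (1 / 2 : ℝ) := fun p hp =>
    (mem_pr (Real.rpow_nonneg hT0.le _)).mp hp
  rw [card_PP]
  push_cast
  have hK : ∑ p ∈ pr ((T : ℝ) ^ (1 / 4 : ℝ)) ((T : ℝ) ^ (1 / 2 : ℝ)),
      (rt f p : ℝ) / p * ((T : ℝ) ^ 2 / (32 * n ^ 2 * Real.log T)) ≤
      ∑ p ∈ pr ((T : ℝ) ^ (1 / 4 : ℝ)) ((T : ℝ) ^ (1 / 2 : ℝ)),
      (((pr ((T : ℝ) ^ (5 / 4 : ℝ)) ((T : ℝ) ^ (7 / 4 : ℝ))).filter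
        (fun q : ℕ => (T : ℝ) ^ 2 / (8 * p) < q ∧ (q : ℝ) ≤ (T : ℝ) ^ 2 / (4 * p) ∧ 1 ≤ rt f p ∧
          1 ≤ rt f q)).card : ℝ) := by
    refine sum_le_sum fun p hp => ?_
    obtain ⟨q1, q2, q3⟩ := hpr p hp
    exact key f T p n B0 X0 hd q1 (fun q hq hqB => (hB0 q hq hqB).1) hX0 hT h8 hB (by linarith) q2 q3
  refine le_trans ?_ hK
  rw [← sum_mul]
  have hs : (1 / 4 : ℝ) ≤ ∑ p ∈ pr ((T : ℝ) ^ (1 / 4 : ℝ)) ((T : ℝ) ^ (1 / 2 : ℝ)), (rt f p : ℝ) / p := by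
    have h5 : ∑ p ∈ pr ((T : ℝ) ^ (1 / 4 : ℝ)) ((T : ℝ) ^ (1 / 2 : ℝ)), (rt f p : ℝ) * Real.log p / p ≤
        ∑ p ∈ pr ((T : ℝ) ^ (1 / 4 : ℝ)) ((T : ℝ) ^ (1 / 2 : ℝ)), (rt f p : ℝ) / p * (1 / 2 * Real.log T) := by
      refine sum_le_sum fun p hp => ?_
      obtain ⟨q1, q2, q3⟩ := hpr p hp
      have hp0 : (0 : ℝ) < p := by exact_mod_cast q1.pos
      have h6 := Real.log_le_log hp0 q3
      rw [Real.log_rpow hT0] at h6
      have e : (rt f p : ℝ) * Real.log p / p = (rt f p : ℝ) / p * Real.log p := by ring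
      rw [e]
      exact mul_le_mul_of_nonneg_left h6 (by positivity)
    rw [← sum_mul] at h5
    have h7 := (abs_le.mp hMT).1
    have h8 : Real.log T / 8 ≤ (∑ p ∈ pr ((T : ℝ) ^ (1 / 4 : ℝ)) ((T : ℝ) ^ (1 / 2 : ℝ)), (rt f p : ℝ) / p) *
        (1 / 2 * Real.log T) := by linarith
    by_contra hlt
    push Not at hlt
    nlinarith
  calc 1 / (128 * (n : ℝ) ^ 2) * (T : ℝ) ^ 2 / Real.log T =
      1 / 4 * ((T : ℝ) ^ 2 / (32 * n ^ 2 * Real.log T)) := by field_simp; norm_num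
    _ ≤ _ := mul_le_mul_of_nonneg_right hs (by positivity)

end Pool.Agent.H11.TW
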