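import Pool.Agent.H11.TW.Stm2
import Pool.Agent.H11.TW.SQ

/-! # TW2-SQV (helper25, adapted from SQ of helper79/58) -/

set_option autoImplicit false

namespace Pool.Agent.H11.TW

open Polynomial Finset Filter Topology in
theorem SQV_main (h1 : S_LAT) (h2 : S_HEN) (h3 : S_CLS) : S_SQV := by
  classical
  intro f D hf hD
  have hf0 : f ≠ 0 := by
    rintro rfl
    simp at hf
  obtain ⟨B1, hB1⟩ := h2 f D hf hD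
  obtain ⟨B2, hB2⟩ := h3 f D hf0 hD
  set n := f.natDegree with hn
  have hn0 : (0 : ℝ) < n + 1 := by positivity
  have l1 : Tendsto (fun T : ℕ => (T : ℝ) ^ (1 / 4 : ℝ)) atTop atTop :=
    (tendsto_rpow_atTop (by norm_num)).comp tendsto_natCast_atTop_atTop
  have l2 : Tendsto (fun T : ℕ => (T : ℝ) ^ (1 / 8 : ℝ)) atTop atTop :=
    (tendsto_rpow_atTop (by norm_num)).comp tendsto_natCast_atTop_atTop
  filter_upwards [l1.eventually_gt_atTop (max (max B1 B2 : ℕ) 1 : ℝ), eventually_ge_atTop 1,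
    l2.eventually_ge_atTop (50 * ((n : ℝ) + 1))] with T e1 e2 e3
  have hT : (1 : ℝ) ≤ T := by exact_mod_cast e2
  have hT0 : (0 : ℝ) < T := by linarith
  have e5 : ((max B1 B2 : ℕ) : ℝ) < (T : ℝ) ^ (1 / 4 : ℝ) := lt_of_le_of_lt (le_max_left _ _) e1
  have e6 : (1 : ℝ) < (T : ℝ) ^ (1 / 4 : ℝ) := lt_of_le_of_lt (le_max_right _ _) e1
  set P : Finset ℕ := (range (⌊(T : ℝ) ^ (7 / 4 : ℝ)⌋₊ + 1)).filter
    (fun p => p.Prime ∧ (T : ℝ) ^ (1 / 4 : ℝ) < p) with hP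
  have hsub : {v : ℤ × ℤ | v ∈ bx T ∧ gc v = 1 ∧ ∃ p : ℕ, p.Prime ∧ (T : ℝ) ^ (1 / 4 : ℝ) < p ∧
      (p : ℝ) ≤ (T : ℝ) ^ (7 / 4 : ℝ) ∧ (p : ℤ) ^ 2 ∣ hom f D v.1 v.2} ⊆
      ((P.biUnion fun p => (bx T).filter (fun v => gc v = 1 ∧ (p : ℤ) ^ 2 ∣ hom f D v.1 v.2) :
        Finset (ℤ × ℤ)) : Set (ℤ × ℤ)) := by
    rintro v ⟨m1, m2, p, m3, m4, m5, m6⟩
    rw [Finset.mem_coe, mem_biUnion]
    refine ⟨p, ?_, ?_⟩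
    · rw [hP, mem_filter, mem_range]
      exact ⟨Nat.lt_succ_of_le (Nat.le_floor m5), m3, m4⟩
    · rw [mem_filter]
      exact ⟨m1, m2, m6⟩
  have hPm : ∀ p ∈ P, p.Prime ∧ (T : ℝ) ^ (1 / 4 : ℝ) < p ∧ p ≤ ⌊(T : ℝ) ^ (7 / 4 : ℝ)⌋₊ := by
    intro p hp
    rw [hP, mem_filter, mem_range] at hp
    exact ⟨hp.2.1, hp.2.2, by omega⟩
  have hPc : (P.card : ℝ) ≤ (T : ℝ) ^ (7 / 4 : ℝ) + 1 := by
    have a1 : P.card ≤ ⌊(T : ℝ) ^ (7 / 4 : ℝ)⌋₊ + 1 := by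
      calc P.card ≤ (range (⌊(T : ℝ) ^ (7 / 4 : ℝ)⌋₊ + 1)).card := card_filter_le _ _
        _ = _ := card_range _
    have a2 : ((⌊(T : ℝ) ^ (7 / 4 : ℝ)⌋₊ : ℕ) : ℝ) ≤ (T : ℝ) ^ (7 / 4 : ℝ) :=
      Nat.floor_le (by positivity)
    have a3 : (P.card : ℝ) ≤ (⌊(T : ℝ) ^ (7 / 4 : ℝ)⌋₊ : ℝ) + 1 := by exact_mod_cast a1
    linarith
  have hs := SQx.sum_inv ((T : ℝ) ^ (1 / 4 : ℝ)) e6.le ⌊(T : ℝ) ^ (7 / 4 : ℝ)⌋₊ P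
    fun p hp => ⟨(hPm p hp).2.1, (hPm p hp).2.2⟩
  have hcard : ((Set.ncard {v : ℤ × ℤ | v ∈ bx T ∧ gc v = 1 ∧ ∃ p : ℕ, p.Prime ∧
      (T : ℝ) ^ (1 / 4 : ℝ) < p ∧
      (p : ℝ) ≤ (T : ℝ) ^ (7 / 4 : ℝ) ∧ (p : ℤ) ^ 2 ∣ hom f D v.1 v.2} : ℕ) : ℝ) ≤
      ∑ p ∈ P, ((n : ℝ) + 1) * (20 * (T : ℝ) ^ 2 * (1 / (p : ℝ) ^ 2) + 5) := by
    calc ((Set.ncard _ : ℕ) : ℝ) ≤ ((P.biUnion fun p => (bx T).filter
          (fun v => gc v = 1 ∧ (p : ℤ) ^ 2 ∣ hom f D v.1 v.2)).card : ℝ) := by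
          have := Set.ncard_le_ncard hsub (Finset.finite_toSet _)
          rw [Set.ncard_coe_finset] at this
          exact_mod_cast this
      _ ≤ ∑ p ∈ P, (((bx T).filter
          (fun v => gc v = 1 ∧ (p : ℤ) ^ 2 ∣ hom f D v.1 v.2)).card : ℝ) := by
          exact_mod_cast card_biUnion_le
      _ ≤ _ := by
          refine sum_le_sum fun p hp => ?_
          obtain ⟨a1, a2, a3⟩ := hPm p hp
          have a4 : (max B1 B2 : ℕ) < p := by exact_mod_cast e5.trans a2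
          exact SQx.count f D h1 hB1 hB2 p T a1 (lt_of_le_of_lt (le_max_left _ _) a4)
            (lt_of_le_of_lt (le_max_right _ _) a4)
  refine hcard.trans ?_
  rw [← mul_sum, sum_add_distrib, ← mul_sum, sum_const, nsmul_eq_mul]
  have b1 : (T : ℝ) ^ 2 * (2 / (T : ℝ) ^ (1 / 4 : ℝ)) = 2 * (T : ℝ) ^ (7 / 4 : ℝ) := by
    rw [mul_div_assoc', div_eq_iff (by positivity), mul_assoc, ← Real.rpow_add hT0]
    norm_num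
    ring
  have b3 : (1 : ℝ) ≤ (T : ℝ) ^ (7 / 4 : ℝ) := Real.one_le_rpow hT (by norm_num)
  have c0 : (T : ℝ) ^ 2 * ∑ p ∈ P, (1 : ℝ) / (p : ℝ) ^ 2 ≤ 2 * (T : ℝ) ^ (7 / 4 : ℝ) := by
    rw [← b1]
    exact mul_le_mul_of_nonneg_left hs (by positivity)
  have c1 : 20 * (T : ℝ) ^ 2 * ∑ p ∈ P, (1 : ℝ) / (p : ℝ) ^ 2 + P.card * 5 ≤
      50 * (T : ℝ) ^ (7 / 4 : ℝ) := by
    nlinarith
  calc ((n : ℝ) + 1) * (20 * (T : ℝ) ^ 2 * ∑ p ∈ P, (1 : ℝ) / (p : ℝ) ^ 2 + P.card * 5)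
      ≤ ((n : ℝ) + 1) * (50 * (T : ℝ) ^ (7 / 4 : ℝ)) := mul_le_mul_of_nonneg_left c1 hn0.le
    _ = 50 * ((n : ℝ) + 1) * (T : ℝ) ^ (7 / 4 : ℝ) := by ring
    _ ≤ (T : ℝ) ^ (1 / 8 : ℝ) * (T : ℝ) ^ (7 / 4 : ℝ) :=
        mul_le_mul_of_nonneg_right e3 (by positivity)
    _ = (T : ℝ) ^ (15 / 8 : ℝ) := by
        rw [← Real.rpow_add hT0]
        norm_num

end Pool.Agent.H11.TW
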