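import Pool.Agent.H11.TW.Stm2

/-! # TW2-VEC: the pigeonhole principle (helper68) -/

set_option autoImplicit false

namespace Pool.Agent.H11.TW

open Polynomial Finset

namespace VECx

theorem hom_dvd (f : ℤ[X]) (p : ℕ) (r a b : ℤ) (h : (p : ℤ) ∣ f.eval r)
    (hab : (p : ℤ) ∣ a - r * b) : (p : ℤ) ∣ hom f f.natDegree a b := by
  have e1 : hom f f.natDegree (r * b) b = b ^ f.natDegree * f.eval r := by
    unfold hom
    rw [eval_eq_sum_range, mul_sum]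
    refine sum_congr rfl fun i hi => ?_
    have hi' : i ≤ f.natDegree := Nat.lt_succ_iff.1 (mem_range.1 hi)
    have e : b ^ f.natDegree = b ^ i * b ^ (f.natDegree - i) := by
      rw [← pow_add]
      congr 1
      omega
    rw [e, mul_pow]
    ring
  have e2 : a - r * b ∣ hom f f.natDegree a b - hom f f.natDegree (r * b) b := by
    unfold hom
    rw [← sum_sub_distrib]
    refine dvd_sum fun i _ => ?_
    have e : f.coeff i * a ^ i * b ^ (f.natDegree - i) -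
        f.coeff i * (r * b) ^ i * b ^ (f.natDegree - i) =
        (a ^ i - (r * b) ^ i) * (f.coeff i * b ^ (f.natDegree - i)) := by ring
    rw [e]
    exact Dvd.dvd.mul_right (sub_dvd_pow_sub_pow a (r * b) i) _
  have e3 : hom f f.natDegree a b = (hom f f.natDegree a b - hom f f.natDegree (r * b) b) +
      b ^ f.natDegree * f.eval r := by rw [← e1]; ring
  rw [e3]
  exact dvd_add (hab.trans e2) (Dvd.dvd.mul_left h _)

end VECx

open VECx in
/-- TW2-VEC -/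
theorem VEC_main : S_VEC := by
  intro f p q T hp hq hT hpq h1 h2
  have fp : NeZero p := ⟨hp.ne_zero⟩
  have fq : NeZero q := ⟨hq.ne_zero⟩
  obtain ⟨r, hr⟩ := card_pos.1 h1
  obtain ⟨s, hs⟩ := card_pos.1 h2
  have hr' : (p : ℤ) ∣ f.eval (r : ℤ) := (mem_filter.1 hr).2
  have hs' : (q : ℤ) ∣ f.eval (s : ℤ) := (mem_filter.1 hs).2
  obtain ⟨g, hg⟩ : ∃ g : ℕ × ℕ → ZMod p × ZMod q, g = fun x =>
    ((((x.1 : ℤ) - r * x.2 : ℤ) : ZMod p), (((x.1 : ℤ) - s * x.2 : ℤ) : ZMod q)) := ⟨_, rfl⟩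
  have hcard : (univ : Finset (ZMod p × ZMod q)).card <
      (range (T + 1) ×ˢ range (T + 1)).card := by
    rw [card_univ, Fintype.card_prod, ZMod.card, ZMod.card, card_product, card_range]
    nlinarith
  obtain ⟨x, hx, y, hy, hne, he⟩ := exists_ne_map_eq_of_card_lt_of_maps_to hcard
    (f := g) fun x _ => mem_univ _
  rw [mem_product, mem_range, mem_range] at hx hy
  rw [hg] at he
  have e1 : (((x.1 : ℤ) - r * x.2 : ℤ) : ZMod p) = (((y.1 : ℤ) - r * y.2 : ℤ) : ZMod p) :=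
    congrArg Prod.fst he
  have e2 : (((x.1 : ℤ) - s * x.2 : ℤ) : ZMod q) = (((y.1 : ℤ) - s * y.2 : ℤ) : ZMod q) :=
    congrArg Prod.snd he
  rw [ZMod.intCast_eq_intCast_iff_dvd_sub] at e1 e2
  have e1' : (p : ℤ) ∣ ((y.1 : ℤ) - x.1) - r * ((y.2 : ℤ) - x.2) := by
    have : ((y.1 : ℤ) - x.1) - r * ((y.2 : ℤ) - x.2) =
        ((y.1 : ℤ) - r * y.2) - ((x.1 : ℤ) - r * x.2) := by ring
    rwa [this]
  have e2' : (q : ℤ) ∣ ((y.1 : ℤ) - x.1) - s * ((y.2 : ℤ) - x.2) := by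
    have : ((y.1 : ℤ) - x.1) - s * ((y.2 : ℤ) - x.2) =
        ((y.1 : ℤ) - s * y.2) - ((x.1 : ℤ) - s * x.2) := by ring
    rwa [this]
  refine ⟨((y.1 : ℤ) - x.1, (y.2 : ℤ) - x.2), ?_, hom_dvd f p r _ _ hr' e1',
    hom_dvd f q s _ _ hs' e2'⟩
  unfold bx
  rw [mem_filter, mem_product, mem_Icc, mem_Icc]
  refine ⟨⟨⟨?_, ?_⟩, ⟨?_, ?_⟩⟩, ?_⟩
  · show -(T : ℤ) ≤ (y.1 : ℤ) - x.1
    omega
  · show (y.1 : ℤ) - x.1 ≤ T
    omega
  · show -(T : ℤ) ≤ (y.2 : ℤ) - x.2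
    omega
  · show (y.2 : ℤ) - x.2 ≤ T
    omega
  · intro h0
    have h0' : (y.2 : ℤ) - x.2 = 0 := h0
    rw [h0', mul_zero, sub_zero] at e2'
    have h3 : (y.1 : ℤ) - x.1 = 0 := by
      refine Int.eq_zero_of_abs_lt_dvd e2' ?_
      rw [abs_lt]
      constructor <;> omega
    apply hne
    exact Prod.ext (by omega) (by omega)

end Pool.Agent.H11.TW
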