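import Pool.Agent.H11.TW.All
import Pool.Agent.H11.TW.Asm2
import Pool.Agent.H11.TW.DY
import Pool.Agent.H11.TW.PPC
import Pool.Agent.H11.TW.VEC
import Pool.Agent.H11.TW.SQV
import Pool.Agent.H11.TW.BAD
import Pool.Agent.H11.TW.DIV2
import Pool.Agent.H11.TW.FINL
import Pool.Agent.H11.TW.CONR

set_option autoImplicit false

namespace Pool.Agent.H11.TW

open Polynomial Filter

theorem main_thm2 (f : ℤ[X]) (hf : Squarefree (f.map (Int.castRingHom ℚ))) (hn : 5 ≤ f.natDegree) :
    ∃ c : ℝ, 0 < c ∧ ∀ᶠ B : ℝ in atTop,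
      c * B ^ ((1 : ℝ) / (((f.natDegree - 1) / 2 : ℕ) + 1)) / Real.log B ≤ ((Tw f B).ncard : ℝ) := by
  have rtb : S_RTB := RTB_main
  have merv : S_MERV := MERV_main (MERT_main PI_main)
  have cls : S_CLS := CLS_main rtb
  have hen : S_HEN := HEN_main rtb
  have dy : S_DY := DY_main PI_main
  have ppc : S_PPC := PPC_main dy merv rtb
  have sqv : S_SQV := SQV_main LAT_main hen cls
  have bad : S_BAD := BAD_main sqv HB_main DVD_main
  have div2 : S_DIV2 := DIV2_main ppc VEC_main bad PT_main HB_main DVD_main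
  exact asm2 CON_main div2 FINL_main ZER_main (fun f h1 h2 h3 => main_thm f h1 h2 h3) f hf hn

end Pool.Agent.H11.TW
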