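import Pool.Agent.H11.TW.Stm

set_option autoImplicit false

namespace Pool.Agent.H11.TW

open Polynomial Finset Filter Topology

lemma dg_cases (f : ℤ[X]) : dg f = f.natDegree ∨ dg f = f.natDegree + 1 := by
  unfold dg; omega

/-- Assembly. -/
theorem asm (h1 : S_FACT) (h2 : S_CNT) (h3 : S_PRI) (h4 : S_DIS) (h5 : S_FIN)
    (f : ℤ[X]) (hf : Squarefree (f.map (Int.castRingHom ℚ))) (hn : 5 ≤ f.natDegree)
    (hr : Odd f.natDegree ∨ ¬ Irreducible (f.map (Int.castRingHom ℚ))) :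
    ∃ c : ℝ, 0 < c ∧ ∀ᶠ B : ℝ in atTop,
      c * B ^ ((1 : ℝ) / (((f.natDegree - 1) / 2 : ℕ) + 1)) ≤ ((Tw f B).ncard : ℝ) := by
  have hf0 : f ≠ 0 := by rintro rfl; simp at hn
  obtain ⟨s, hs, hs2, hs3⟩ := h1 f hf hn hr
  obtain ⟨c, E, hc, hE, hcnt⟩ := h2 f s (dg f) hf0 hs (dg_cases f) hs2 hs3
  have hle : f.natDegree ≤ dg f := by rcases dg_cases f with h | h <;> omega
  have hpri := h3 f (dg f) E c hf0 hle hc hE hcnt
  obtain ⟨c', C, hc', hC, hd⟩ := h4 f (c / E) hf hn (by positivity) hpri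
  exact h5 f c' C hn hc' hC hd

end Pool.Agent.H11.TW
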