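import Pool.Agent.H11.TW.Stm

/-!
# TW-CNT: many heavy pairs (helper92)
-/

set_option autoImplicit false

namespace Pool.Agent.H11.TW

open Polynomial Finset Filter Topology

namespace CNTx

theorem wt_nonneg (f : ℤ[X]) (D : ℕ) (y z : ℝ) (v : ℤ × ℤ) : 0 ≤ wt f D y z v := by
  unfold wt
  exact Finset.sum_nonneg fun p _ => Real.log_natCast_nonneg p

theorem wt_triv (f : ℤ[X]) (D : ℕ) (y z : ℝ) (hz : 1 ≤ z) (v : ℤ × ℤ) : wt f D y z v ≤ (z + 1) * Real.log z := by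
  unfold wt
  have h1 : ∀ p ∈ (pr y z).filter (fun p : ℕ => (p : ℤ) ∣ hom f D v.1 v.2), Real.log p ≤ Real.log z := by
    intro p hp
    have h2 := (Finset.mem_filter.1 hp).1
    unfold pr at h2
    rw [Finset.mem_filter, Finset.mem_range] at h2
    have h3 : (p : ℝ) ≤ z := by
      have h4 : p ≤ ⌊z⌋₊ := by omega
      exact (Nat.le_floor_iff (by linarith)).1 h4
    exact Real.log_le_log (by exact_mod_cast h2.2.1.pos) h3
  refine (Finset.sum_le_sum h1).trans ?_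
  rw [Finset.sum_const, nsmul_eq_mul]
  refine mul_le_mul_of_nonneg_right ?_ (Real.log_nonneg hz)
  have h5 : ((pr y z).filter (fun p : ℕ => (p : ℤ) ∣ hom f D v.1 v.2)).card ≤ ⌊z⌋₊ + 1 := by
    refine (Finset.card_le_card (Finset.filter_subset _ _)).trans ?_
    unfold pr
    refine (Finset.card_le_card (Finset.filter_subset _ _)).trans ?_
    rw [Finset.card_range]
  have h6 : (((pr y z).filter (fun p : ℕ => (p : ℤ) ∣ hom f D v.1 v.2)).card : ℝ) ≤ (⌊z⌋₊ : ℝ) + 1 := by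
    exact_mod_cast h5
  have h7 := Nat.floor_le (by linarith : 0 ≤ z)
  linarith

theorem wt_mono {f g : ℤ[X]} {D D' : ℕ} {v : ℤ × ℤ} (h : hom g D' v.1 v.2 ∣ hom f D v.1 v.2) (y z : ℝ) :
    wt g D' y z v ≤ wt f D y z v := by
  unfold wt
  refine Finset.sum_le_sum_of_subset_of_nonneg ?_ fun p _ _ => Real.log_natCast_nonneg p
  exact Finset.monotone_filter_right _ fun p _ hp => dvd_trans hp h

theorem card_bx (T : ℕ) : ((bx T).card : ℝ) ≤ 4 * (T : ℝ) ^ 2 + 2 * T := by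
  have h1 : bx T ⊆ Icc (-(T : ℤ)) T ×ˢ (Icc (-(T : ℤ)) T).erase 0 := by
    intro v hv
    unfold bx at hv
    rw [Finset.mem_filter, Finset.mem_product] at hv
    rw [Finset.mem_product, Finset.mem_erase]
    exact ⟨hv.1.1, hv.2, hv.1.2⟩
  have h2 := Finset.card_le_card h1
  rw [Finset.card_product, Finset.card_erase_of_mem (by rw [Finset.mem_Icc]; omega), Int.card_Icc] at h2
  have h3 : ((T : ℤ) + 1 - -(T : ℤ)).toNat = 2 * T + 1 := by omega
  rw [h3] at h2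
  have h4 : (2 * T + 1) * (2 * T + 1 - 1) = 4 * T ^ 2 + 2 * T := by
    rw [Nat.add_sub_cancel]
    ring
  rw [h4] at h2
  exact_mod_cast h2

/-- the inequality for the sums -/
theorem comb (A : Finset (ℤ × ℤ)) (z0 ge hv : ℤ × ℤ → Prop) [DecidablePred z0] [DecidablePred ge] [DecidablePred hv]
    (ws wl wg : ℤ × ℤ → ℝ) (X Y Z : ℝ) (_hX : 0 ≤ X) (hY : 0 ≤ Y) (hZ : 0 ≤ Z)
    (hs0 : ∀ v, 0 ≤ ws v) (hl0 : ∀ v, 0 ≤ wl v) (hz : ∀ v ∈ A, z0 v → ws v ≤ X ∧ wg v ≤ Y)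
    (hn : ∀ v ∈ A, ¬ z0 v → ws v ≤ Y ∧ wl v ≤ Y ∧ wg v ≤ wl v)
    (hh : ∀ v ∈ A, ¬ z0 v → ¬ hv v → ws v + wl v ≤ Z) (ge0 : ℤ × ℤ → Prop) [DecidablePred ge0]
    (hge : ∀ v, ge0 v → ¬ ge v) :
    ∑ v ∈ A, ws v + ∑ v ∈ A.filter ge0, wg v ≤
      ((A.filter z0).card : ℝ) * (X + Y) + ((A.filter ge).card : ℝ) * Y +
      ((A.filter (fun v => (¬ z0 v ∧ hv v) ∧ ¬ ge v)).card : ℝ) * (2 * Y) + (A.card : ℝ) * Z := by
  have e1 : ((A.filter z0).card : ℝ) * (X + Y) = ∑ v ∈ A, if z0 v then X + Y else 0 := by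
    rw [← Finset.sum_filter, Finset.sum_const, nsmul_eq_mul]
  have e2 : ((A.filter ge).card : ℝ) * Y = ∑ v ∈ A, if ge v then Y else 0 := by
    rw [← Finset.sum_filter, Finset.sum_const, nsmul_eq_mul]
  have e3 : ((A.filter (fun v => (¬ z0 v ∧ hv v) ∧ ¬ ge v)).card : ℝ) * (2 * Y) =
      ∑ v ∈ A, if (¬ z0 v ∧ hv v) ∧ ¬ ge v then 2 * Y else 0 := by
    rw [← Finset.sum_filter, Finset.sum_const, nsmul_eq_mul]
  have e4 : (A.card : ℝ) * Z = ∑ _v ∈ A, Z := by rw [Finset.sum_const, nsmul_eq_mul]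
  rw [e1, e2, e3, e4, Finset.sum_filter, ← Finset.sum_add_distrib, ← Finset.sum_add_distrib,
    ← Finset.sum_add_distrib, ← Finset.sum_add_distrib]
  refine Finset.sum_le_sum fun v hvA => ?_
  have a1 := hs0 v
  have a2 := hl0 v
  by_cases c0 : z0 v
  · obtain ⟨b1, b2⟩ := hz v hvA c0
    rw [if_pos c0]
    have : (if ge0 v then wg v else 0) ≤ Y := by split_ifs <;> linarith
    have : 0 ≤ (if ge v then Y else 0) := by split_ifs <;> linarith
    have : 0 ≤ (if (¬ z0 v ∧ hv v) ∧ ¬ ge v then 2 * Y else 0) := by split_ifs <;> linarith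
    linarith
  · obtain ⟨b1, b2, b3⟩ := hn v hvA c0
    rw [if_neg c0]
    by_cases c1 : ge v
    · have c2 : ¬ ge0 v := fun h => hge v h c1
      rw [if_pos c1, if_neg c2]
      have : 0 ≤ (if (¬ z0 v ∧ hv v) ∧ ¬ ge v then 2 * Y else 0) := by split_ifs <;> linarith
      linarith
    · rw [if_neg c1]
      have c4 : (if ge0 v then wg v else 0) ≤ wl v := by split_ifs <;> linarith
      by_cases c3 : hv v
      · have e5 : (if (¬ z0 v ∧ hv v) ∧ ¬ ge v then 2 * Y else 0) = 2 * Y := if_pos ⟨⟨c0, c3⟩, c1⟩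
        linarith
      · have := hh v hvA c0 c3
        have e5 : (if (¬ z0 v ∧ hv v) ∧ ¬ ge v then 2 * Y else 0) = 0 := if_neg fun h => c3 h.1.2
        linarith

end CNTx

theorem CNT_main (h1 : S_FM) (h2 : S_LG) (h3 : S_GCD) (h4 : S_WB) (h5 : S_HB) (h6 : S_ZER) (h7 : S_DVD) :
    S_CNT := by
  classical
  intro f s D hf hs hD hM2 hM3
  have hDn : f.natDegree ≤ D := by omega
  obtain ⟨C, hC1, hC⟩ := h5 f D hDn
  -- the second weight
  obtain ⟨wg, E0, δ, hE0, hδ, hwg, hev⟩ : ∃ (wg : ℕ → ℤ × ℤ → ℝ) (E0 : ℕ) (δ : ℝ), 0 < E0 ∧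
      812 / 100 ≤ 4 * (((s.card : ℝ) + ((D : ℝ) - f.natDegree)) * (1 - 3 * (1 / 10000))) + δ ∧
      (∀ᶠ T : ℕ in atTop, ∀ v ∈ bx T, (hom f D v.1 v.2 = 0 → wg T v ≤ (D + 1) * Real.log T) ∧
        (hom f D v.1 v.2 ≠ 0 → wg T v ≤ wt f D (T : ℝ) ((T : ℝ) ^ (3 / 2 : ℝ)) v)) ∧
      ∀ᶠ T : ℕ in atTop, δ * (T : ℝ) ^ 2 * Real.log T ≤ ∑ v ∈ (bx T).filter (fun v => gc v ≤ E0), wg T v := by
    have hDr : ((D - f.natDegree : ℕ) : ℝ) = (D : ℝ) - f.natDegree := by rw [Nat.cast_sub hDn]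
    by_cases hM : 3 ≤ s.card + (D - f.natDegree)
    · refine ⟨fun _ _ => 0, 1, 0, one_pos, ?_, ?_, ?_⟩
      · have : (3 : ℝ) ≤ (s.card : ℝ) + ((D : ℝ) - f.natDegree) := by
          rw [← hDr]
          exact_mod_cast hM
        linarith
      · filter_upwards [eventually_ge_atTop 1] with T hT v _
        have hT1 : (1 : ℝ) ≤ T := by exact_mod_cast hT
        exact ⟨fun _ => mul_nonneg (by positivity) (Real.log_nonneg hT1), fun _ => CNTx.wt_nonneg _ _ _ _ _⟩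
      · exact Eventually.of_forall fun T => by simp
    · obtain ⟨g, hg, hg2⟩ : ∃ g ∈ s, 2 ≤ g.natDegree := hM3.resolve_right hM
      obtain ⟨hgi, hgp, hgf⟩ := hs.1 g hg
      obtain ⟨E0, hE0, hL⟩ := h2 g hgi hg2
      obtain ⟨C', hC1', hC'⟩ := h5 g g.natDegree le_rfl
      have hgD : g.natDegree ≤ D := (natDegree_le_of_dvd hgf hf).trans hDn
      refine ⟨fun T v => wt g g.natDegree (T : ℝ) ((T : ℝ) ^ (3 / 2 : ℝ)) v, E0, 1 / 8, hE0, ?_, ?_, hL⟩
      · have : (2 : ℝ) ≤ (s.card : ℝ) + ((D : ℝ) - f.natDegree) := by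
          rw [← hDr]
          exact_mod_cast hM2
        linarith
      · filter_upwards [eventually_ge_atTop 1, eventually_ge_atTop ⌈C'⌉₊] with T hT hTC v hv
        unfold bx at hv
        rw [Finset.mem_filter, Finset.mem_product, Finset.mem_Icc, Finset.mem_Icc] at hv
        have hT1 : (1 : ℝ) ≤ T := by exact_mod_cast hT
        have hTC' : C' ≤ T := (Nat.le_ceil C').trans (by exact_mod_cast hTC)
        refine ⟨fun _ => ?_, fun _ => CNTx.wt_mono (h7.1 f g D v.1 v.2 hgf hf hDn) _ _⟩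
        have h0 := h6.2 g hgi hg2 v.1 v.2 hv.2
        refine (h4 g g.natDegree _ _ v h0).trans ?_
        have hb := hC' T v hT (abs_le.2 hv.1.1) (abs_le.2 hv.1.2)
        have hpos : (0 : ℝ) < |((hom g g.natDegree v.1 v.2 : ℤ) : ℝ)| := by
          rw [abs_pos]
          exact_mod_cast h0
        have hl := Real.log_le_log hpos hb
        rw [Real.log_mul (by linarith) (by positivity), Real.log_pow] at hl
        have hl2 : Real.log C' ≤ Real.log T := Real.log_le_log (by linarith) hTC'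
        have hl0 : 0 ≤ Real.log (T : ℝ) := Real.log_nonneg hT1
        have hl3 : (g.natDegree : ℝ) * Real.log T ≤ D * Real.log T :=
          mul_le_mul_of_nonneg_right (by exact_mod_cast hgD) hl0
        linarith
  -- the constant E
  set E : ℕ := max E0 (900 * (D + 1)) with hE
  have hEp : 0 < E := lt_of_lt_of_le hE0 (le_max_left _ _)
  have hE2 : (9 : ℝ) * (D + 1) / E ≤ 1 / 100 := by
    rw [div_le_iff₀ (by exact_mod_cast hEp)]
    have : ((900 * (D + 1) : ℕ) : ℝ) ≤ E := by exact_mod_cast le_max_right _ _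
    push_cast at this
    linarith
  refine ⟨5 / 100 / (2 * (D + 1)), E, by positivity, hEp, ?_⟩
  have hFM := h1 f s D hf hs hD (1 / 10000) (by norm_num) (by norm_num)
  have hη : (0 : ℝ) < 1 / (100 * (3 * f.natDegree + 1)) := by positivity
  have hsm : ∀ᶠ T : ℕ in atTop, (T : ℝ) ^ (-(1 / 10000 : ℝ)) < 1 / (100 * (3 * f.natDegree + 1)) :=
    ((tendsto_rpow_neg_atTop (by norm_num : (0 : ℝ) < 1 / 10000)).comp
      tendsto_natCast_atTop_atTop).eventually (gt_mem_nhds hη)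
  filter_upwards [hFM, hwg, hev, hsm, eventually_ge_atTop 2, eventually_ge_atTop ⌈C⌉₊,
    eventually_ge_atTop (100 * (3 * f.natDegree * (D + 2) + 5))] with T f1 f2 f3 f4 f5 f6 f7
  have hT2 : (2 : ℝ) ≤ T := by exact_mod_cast f5
  have hTC : C ≤ T := (Nat.le_ceil C).trans (by exact_mod_cast f6)
  set Lg := Real.log (T : ℝ) with hLg
  have hL0 : 0 < Lg := Real.log_pos (by linarith)
  have hD0 : (0 : ℝ) ≤ D := Nat.cast_nonneg D
  have hz1 : (1 : ℝ) ≤ (T : ℝ) ^ (1 - 1 / 10000 : ℝ) := Real.one_le_rpow (by linarith) (by norm_num)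
  set z : ℝ := (T : ℝ) ^ (1 - 1 / 10000 : ℝ) with hz
  have hlz : Real.log z ≤ Lg := by
    rw [hz, Real.log_rpow (by linarith)]
    nlinarith
  have hbig : ∀ (y z : ℝ), ∀ v ∈ bx T, hom f D v.1 v.2 ≠ 0 → wt f D y z v ≤ (D + 1) * Lg := by
    intro y z v hv h0
    unfold bx at hv
    rw [Finset.mem_filter, Finset.mem_product, Finset.mem_Icc, Finset.mem_Icc] at hv
    refine (h4 f D _ _ v h0).trans ?_
    have hb := hC T v (by omega) (abs_le.2 hv.1.1) (abs_le.2 hv.1.2)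
    have hpos : (0 : ℝ) < |((hom f D v.1 v.2 : ℤ) : ℝ)| := by
      rw [abs_pos]
      exact_mod_cast h0
    have hl := Real.log_le_log hpos hb
    rw [Real.log_mul (by linarith) (by positivity), Real.log_pow] at hl
    have hl2 : Real.log C ≤ Real.log T := Real.log_le_log (by linarith) hTC
    linarith
  have hc := CNTx.comb (bx T) (fun v => hom f D v.1 v.2 = 0) (fun v => E < gc v)
    (fun v => (2 + 1 / 200) * Lg ≤ wt f D ((T : ℝ) ^ (1 / 10000 : ℝ)) z v +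
      wt f D (T : ℝ) ((T : ℝ) ^ (3 / 2 : ℝ)) v)
    (fun v => wt f D ((T : ℝ) ^ (1 / 10000 : ℝ)) z v)
    (fun v => wt f D (T : ℝ) ((T : ℝ) ^ (3 / 2 : ℝ)) v) (wg T)
    ((z + 1) * Lg) ((D + 1) * Lg) ((2 + 1 / 200) * Lg) (by positivity) (by positivity) (by positivity)
    (fun v => CNTx.wt_nonneg _ _ _ _ _) (fun v => CNTx.wt_nonneg _ _ _ _ _)
    (fun v hv h0 => ⟨(CNTx.wt_triv f D _ _ hz1 v).trans
      (mul_le_mul_of_nonneg_left hlz (by linarith)), (f2 v hv).1 h0⟩)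
    (fun v hv h0 => ⟨hbig _ _ v hv h0, hbig _ _ v hv h0, (f2 v hv).2 h0⟩)
    (fun v _ _ h => (not_le.1 h).le) (fun v => gc v ≤ E0)
    (fun v h => not_lt.2 (h.trans (le_max_left _ _)))
  have hHv : (bx T).filter (fun v => (¬ hom f D v.1 v.2 = 0 ∧ (2 + 1 / 200) * Lg ≤
      wt f D ((T : ℝ) ^ (1 / 10000 : ℝ)) z v + wt f D (T : ℝ) ((T : ℝ) ^ (3 / 2 : ℝ)) v) ∧ ¬ E < gc v) =
      (Hv f D T).filter (fun v => gc v ≤ E) := by
    unfold Hv
    ext v
    simp only [Finset.mem_filter, not_lt, ne_eq]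
    tauto
  rw [hHv] at hc
  have g1 := h6.1 f D T hf hDn
  have g2 := h3 E T hEp
  have g3 := CNTx.card_bx T
  set cz : ℝ := (((bx T).filter (fun v => hom f D v.1 v.2 = 0)).card : ℝ) with hcz
  set cg : ℝ := (((bx T).filter (fun v => E < gc v)).card : ℝ) with hcg
  set H : ℝ := (((Hv f D T).filter (fun v => gc v ≤ E)).card : ℝ) with hH
  have hn0 : (0 : ℝ) ≤ f.natDegree := Nat.cast_nonneg _
  -- divide by `Lg`
  have k1 : (4 * (T : ℝ) ^ 2 * (((s.card : ℝ) + ((D : ℝ) - f.natDegree)) * (1 - 3 * (1 / 10000))) +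
      δ * (T : ℝ) ^ 2) * Lg ≤
      (cz * (z + 1 + (D + 1)) + cg * (D + 1) + H * (2 * (D + 1)) + ((bx T).card : ℝ) * (2 + 1 / 200)) * Lg := by
    have f1' : 4 * (T : ℝ) ^ 2 * Lg * (((s.card : ℝ) + ((D : ℝ) - f.natDegree)) * (1 - 3 * (1 / 10000))) ≤
        ∑ v ∈ bx T, wt f D ((T : ℝ) ^ (1 / 10000 : ℝ)) z v := f1
    nlinarith [f1', f3, hc]
  have k2 := le_of_mul_le_mul_right k1 hL0
  have k3 : 812 / 100 * (T : ℝ) ^ 2 ≤ 4 * (T : ℝ) ^ 2 *
      (((s.card : ℝ) + ((D : ℝ) - f.natDegree)) * (1 - 3 * (1 / 10000))) + δ * (T : ℝ) ^ 2 := by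
    have := mul_le_mul_of_nonneg_right hδ (sq_nonneg (T : ℝ))
    linarith
  have k4 : cg * (D + 1) ≤ 1 / 100 * (T : ℝ) ^ 2 := by
    have q1 : cg * (D + 1) ≤ 9 * (T : ℝ) ^ 2 / E * (D + 1) := mul_le_mul_of_nonneg_right g2 (by positivity)
    have q2 : 9 * (T : ℝ) ^ 2 / E * (D + 1) = (9 * (D + 1) / E) * (T : ℝ) ^ 2 := by ring
    have q3 := mul_le_mul_of_nonneg_right hE2 (sq_nonneg (T : ℝ))
    linarith
  have k5 : z = (T : ℝ) * (T : ℝ) ^ (-(1 / 10000 : ℝ)) := by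
    rw [hz, sub_eq_add_neg, Real.rpow_add (by linarith), Real.rpow_one]
  have k6 : (3 * f.natDegree) * z ≤ 1 / 100 * T := by
    have q1 : (3 * (f.natDegree : ℝ) + 1) * (T : ℝ) ^ (-(1 / 10000 : ℝ)) ≤ 1 / 100 := by
      have := mul_le_mul_of_nonneg_left f4.le (by positivity : (0 : ℝ) ≤ 3 * (f.natDegree : ℝ) + 1)
      refine this.trans (le_of_eq ?_)
      field_simp
    have q2 : (0 : ℝ) ≤ (T : ℝ) ^ (-(1 / 10000 : ℝ)) := by positivity
    rw [k5]
    nlinarith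
  have k7 : cz * (z + 1 + (D + 1)) ≤ 1 / 100 * (T : ℝ) ^ 2 + 3 * f.natDegree * (D + 2) * T := by
    have q1 : cz ≤ 3 * f.natDegree * T := by nlinarith
    have q2 : cz * (z + 1 + (D + 1)) ≤ 3 * f.natDegree * T * (z + 1 + (D + 1)) :=
      mul_le_mul_of_nonneg_right q1 (by linarith)
    have q3 : 3 * f.natDegree * T * (z + 1 + (D + 1)) =
        (3 * f.natDegree * z) * T + 3 * f.natDegree * (D + 2) * T := by ring
    have q4 := mul_le_mul_of_nonneg_right k6 (by linarith : (0 : ℝ) ≤ T)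
    have q5 : 1 / 100 * (T : ℝ) * T = 1 / 100 * (T : ℝ) ^ 2 := by ring
    linarith
  have k8 : (3 * f.natDegree * (D + 2) + 5) * (T : ℝ) ≤ 1 / 100 * (T : ℝ) ^ 2 := by
    have q1 : (((100 * (3 * f.natDegree * (D + 2) + 5) : ℕ)) : ℝ) ≤ T := by exact_mod_cast f7
    push_cast at q1
    nlinarith
  have k9 : 5 / 100 * (T : ℝ) ^ 2 ≤ H * (2 * (D + 1)) := by
    nlinarith
  rw [div_mul_eq_mul_div, div_le_iff₀ (by positivity)]
  exact k9

end Pool.Agent.H11.TW
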