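import Mathlib

/-!
# Project TW (MP_f4d5ac_nt, Granville): squarefree twists with a rational point

THEOREM. Let `f ∈ ℤ[x]` be separable of degree `≥ 5`, of odd degree or reducible over `ℚ`. Then the number of
squarefree `d`, `|d| < B`, such that `d y² = f(x)` has a rational point with `y ≠ 0` is `≥ c B^(1/(g+1))`.

Proof. `F = hom f D`, `D = 2g+2`. For a positive proportion of the pairs `v` in the box `[-T,T]²` the product of the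
primes `p ∈ (T^ε, T^(1-ε)] ∪ (T, T^(3/2)]` dividing `F(v)` is `> 2T²`; it is determined by the squarefree part
`d` of `F(v)`, and determines `v` up to finitely many choices.

Every stub: file `Pool/Agent/H11/TW/NAME.lean`, `import Pool.Agent.H11.TW.Stm`, namespace `Pool.Agent.H11.TW.NAMEx`
for the auxiliary lemmas, `theorem Pool.Agent.H11.TW.NAME_main : S_NAME` (used stubs as hypotheses).
-/

set_option autoImplicit false

namespace Pool.Agent.H11.TW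

open Polynomial Finset Filter Topology

/-- number of roots of `f` modulo `p` -/
noncomputable def rt (f : ℤ[X]) (p : ℕ) : ℕ :=
  ((Finset.range p).filter (fun a : ℕ => (p : ℤ) ∣ f.eval (a : ℤ))).card

/-- the form `∑ c_i a^i b^(D-i)` of degree `D ≥ deg f` -/
noncomputable def hom (f : ℤ[X]) (D : ℕ) (a b : ℤ) : ℤ :=
  ∑ i ∈ range (f.natDegree + 1), f.coeff i * a ^ i * b ^ (D - i)

/-- the box: `|a|, |b| ≤ T`, `b ≠ 0` -/
noncomputable def bx (T : ℕ) : Finset (ℤ × ℤ) :=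
  (Icc (-(T : ℤ)) T ×ˢ Icc (-(T : ℤ)) T).filter (fun v => v.2 ≠ 0)

/-- the greatest common divisor of the coordinates -/
def gc (v : ℤ × ℤ) : ℕ := Int.gcd v.1 v.2

/-- the determinant -/
def det (v w : ℤ × ℤ) : ℤ := v.1 * w.2 - v.2 * w.1

/-- `s` is a set of irreducible factors of `f`, pairwise coprime over `ℚ` -/
def Fac (f : ℤ[X]) (s : Finset ℤ[X]) : Prop :=
  (∀ g ∈ s, Irreducible g ∧ 0 < g.natDegree ∧ g ∣ f) ∧
  ∀ g ∈ s, ∀ h ∈ s, g ≠ h →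
    IsCoprime (g.map (Int.castRingHom ℚ)) (h.map (Int.castRingHom ℚ))

/-- the primes `p` with `y < p ≤ z` -/
noncomputable def pr (y z : ℝ) : Finset ℕ :=
  (range (⌊z⌋₊ + 1)).filter (fun p => p.Prime ∧ y < p)

/-- the weight: sum of `log p` over the primes `y < p ≤ z` dividing the form at `v` -/
noncomputable def wt (f : ℤ[X]) (D : ℕ) (y z : ℝ) (v : ℤ × ℤ) : ℝ :=
  ∑ p ∈ (pr y z).filter (fun p : ℕ => (p : ℤ) ∣ hom f D v.1 v.2), Real.log p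

/-- the even number `2 g + 2` -/
def dg (f : ℤ[X]) : ℕ := 2 * ((f.natDegree + 1) / 2)

/-- **FACT** (80 lines). Irreducible factors. `s` = the primitive irreducible factors of positive degree (one for each
factor over `ℚ`, Gauss). If there is only one, `f` is irreducible over `ℚ` (squarefree), so the degree is odd and `≥ 5`; if all
have degree 1, there are `≥ 5`. -/
def S_FACT : Prop := ∀ f : ℤ[X], Squarefree (f.map (Int.castRingHom ℚ)) → 5 ≤ f.natDegree →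
  (Odd f.natDegree ∨ ¬ Irreducible (f.map (Int.castRingHom ℚ))) →
  ∃ s : Finset ℤ[X], Fac f s ∧ 2 ≤ s.card + (dg f - f.natDegree) ∧
    ((∃ g ∈ s, 2 ≤ g.natDegree) ∨ 3 ≤ s.card + (dg f - f.natDegree))

/-- **RHO** (50 lines). Two coprime factors have no common root modulo `p` for large `p` (Bezout over `ℚ`, clear
denominators: `u g + w h = N ≠ 0` in `ℤ[X]`), and a root of `g` is a root of `f`. -/
def S_RHO : Prop := ∀ (f : ℤ[X]) (s : Finset ℤ[X]), Fac f s →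
  ∃ B : ℕ, ∀ p : ℕ, p.Prime → B < p → ∑ g ∈ s, rt g p ≤ rt f p

/-- **RTB** (20 lines). Also `f.leadingCoeff` is not divisible by `p`. -/
def S_RTB : Prop := ∀ f : ℤ[X], f ≠ 0 → ∃ B : ℕ, ∀ p : ℕ, p.Prime → B < p →
  rt f p ≤ f.natDegree ∧ ¬ (p : ℤ) ∣ f.leadingCoeff

/-- **PI** (60 lines). Prime ideal theorem for the roots of an irreducible polynomial. Uses
`Pool.Agent.H484R2.pit : PIT` (`Pool.Agent.H11.V.R_seed8_H484R2_Pit`), `Pool.Agent.H474R2.PG.homs_le_rho` and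
`rho_le_homs` (`Pool.Agent.H11.V.R_seed8_H474R2_GE_RhoHoms`, `..._PG_HomsRho`; their `rho` is `rt` definitionally), with
two fields `K` (both bounds, finitely many exceptional `p`, `rt f p ≤ p`). -/
def S_PI : Prop := ∀ f : ℤ[X], Irreducible f → 0 < f.natDegree →
  Tendsto (fun N : ℕ => (∑ p ∈ (range (N + 1)).filter Nat.Prime, (rt f p : ℝ)) /
    (Nat.primeCounting N : ℝ)) atTop (𝓝 1)

/-- **MERT** (100 lines). `theorem MERT_main (h : S_PI) : S_MERT`.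
PROOF. `A(N) = ∑_{p≤N} (rt f p - 1)`, `|A(N)| ≤ ε π(N) + C`. Abel summation with the weights `log n / n`
(decreasing for `n ≥ 3`) and `π(n) ≤ c n / log n` (Chebyshev, e.g. from `Pool.Agent.Helper923.PNT.pi_tendsto`):
`|∑ (rt f p - 1) log p / p| ≤ ε c' (1 + ∑_{n≤N} 1/n) + C'`. And `∑_{p≤N} log p / p = log N + O(1)`
(`Pool.Agent.Erdos456.Mert.mertens_log` in `Pool.Agent.H11.V.R_seed8_Erdos456_Mertens`). -/
def S_MERT : Prop := ∀ f : ℤ[X], Irreducible f → 0 < f.natDegree →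
  Tendsto (fun N : ℕ => (∑ p ∈ (range (N + 1)).filter Nat.Prime, (rt f p : ℝ) * Real.log p / p) /
    Real.log N) atTop (𝓝 1)

/-- **MERV** (60 lines). `theorem MERV_main (h : S_MERT) : S_MERV`. The same for `y < p ≤ z`, `y = T^α`, `z = T^β`. -/
def S_MERV : Prop := ∀ f : ℤ[X], Irreducible f → 0 < f.natDegree → ∀ α β η : ℝ, 0 < α → α < β → 0 < η →
  ∀ᶠ T : ℕ in atTop, |∑ p ∈ pr ((T : ℝ) ^ α) ((T : ℝ) ^ β), (rt f p : ℝ) * Real.log p / p -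
    (β - α) * Real.log T| ≤ η * Real.log T

/-- **LOC** (80 lines). Pairs with `p ∤ b`: `2 (T - ⌊T/p⌋) ≥ 2T (1 - 1/p)` values of `b`, for each root `r` at least
`2T/p - 1` values `a ≡ r b`, and `p ∣ hom` (`b^(D-n) b^n f(a/b)`), different `r` give different `a`. If `D = n + 1` also the pairs
with `p ∣ b`, `b ≠ 0` : `2 ⌊T/p⌋ (2T+1) ≥ (4T²/p) (1 - p/T)` pairs (then `b ∣ hom`). -/
def S_LOC : Prop := ∀ (f : ℤ[X]) (D p T : ℕ), p.Prime → p ≤ T →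
  (D = f.natDegree ∨ D = f.natDegree + 1) →
  ((rt f p : ℝ) + ((D : ℝ) - f.natDegree)) * (4 * (T : ℝ) ^ 2 / p) * (1 - 1 / p - p / T) ≤
    (((bx T).filter (fun v => (p : ℤ) ∣ hom f D v.1 v.2)).card : ℝ)

/-- **FM** (100 lines). First moment. `theorem FM_main (h1 : S_LOC) (h2 : S_MERV) (h3 : S_RHO) : S_FM`.
PROOF. Exchange the sums; LOC; for `T^ε < p ≤ T^(1-ε)`: `1 - 1/p - p/T ≥ 1 - 2 T^(-ε)`; RHO (`p > T^ε > B`); MERV for
`g ∈ s` and for `X` (`rt X p = 1`) with `β - α = 1 - 2ε`. -/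
def S_FM : Prop := ∀ (f : ℤ[X]) (s : Finset ℤ[X]) (D : ℕ), f ≠ 0 → Fac f s →
  (D = f.natDegree ∨ D = f.natDegree + 1) → ∀ ε : ℝ, 0 < ε → ε ≤ 1 / 10 →
  ∀ᶠ T : ℕ in atTop, 4 * (T : ℝ) ^ 2 * Real.log T *
    (((s.card : ℝ) + ((D : ℝ) - f.natDegree)) * (1 - 3 * ε)) ≤
    ∑ v ∈ bx T, wt f D ((T : ℝ) ^ ε) ((T : ℝ) ^ (1 - ε)) v

/-- **PIG** (80 lines). For each root `r` of `g` modulo `p`: the `(T+1)²` points of `[0,T]²` fall into `p` classes by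
`a - r b mod p`; one class has `≥ (T+1)²/p` points; subtract one of them from the others: `≥ T²/p - 1` nonzero
`v ∈ [-T,T]²` with `a ≡ r b`; `b ≠ 0` because `b = 0` gives `p ∣ a`, `|a| ≤ T < p`. Different `r` give different `v` as `p ∤ b`. -/
def S_PIG : Prop := ∀ (g : ℤ[X]) (p T : ℕ), p.Prime → 0 < T → T < p →
  (rt g p : ℝ) * ((T : ℝ) ^ 2 / p - 1) ≤
    (((bx T).filter (fun v => (p : ℤ) ∣ hom g g.natDegree v.1 v.2)).card : ℝ)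

/-- **GCD** (40 lines). `v` with `k ∣ v.1, v.2`, `E < k ≤ T`: at most `(2T/k+1)² ≤ 9T²/k²`; `∑_{k>E} 1/k² ≤ 1/E`. -/
def S_GCD : Prop := ∀ E T : ℕ, 0 < E →
  (((bx T).filter (fun v => E < gc v)).card : ℝ) ≤ 9 * (T : ℝ) ^ 2 / E

/-- **WB** (30 lines). The product of the primes counted divides `hom` (`Finset.prod_primes_dvd`). -/
def S_WB : Prop := ∀ (f : ℤ[X]) (D : ℕ) (y z : ℝ) (v : ℤ × ℤ), hom f D v.1 v.2 ≠ 0 →
  wt f D y z v ≤ Real.log |((hom f D v.1 v.2 : ℤ) : ℝ)|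

/-- **HB** (30 lines). Size of the form. -/
def S_HB : Prop := ∀ (f : ℤ[X]) (D : ℕ), f.natDegree ≤ D → ∃ C : ℝ, 1 ≤ C ∧
  ∀ (T : ℕ) (v : ℤ × ℤ), 1 ≤ T → |v.1| ≤ T → |v.2| ≤ T → |((hom f D v.1 v.2 : ℤ) : ℝ)| ≤ C * (T : ℝ) ^ D

/-- **ZER** (40 lines). For fixed `b ≠ 0` at most `n` values of `a` (`a/b` is a root of `f` in `ℚ`); for an irreducible `g` of
degree `≥ 2` none. -/
def S_ZER : Prop := (∀ (f : ℤ[X]) (D T : ℕ), f ≠ 0 → f.natDegree ≤ D →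
    (((bx T).filter (fun v => hom f D v.1 v.2 = 0)).card : ℝ) ≤ f.natDegree * (2 * T + 1)) ∧
  ∀ g : ℤ[X], Irreducible g → 2 ≤ g.natDegree → ∀ a b : ℤ, b ≠ 0 → hom g g.natDegree a b ≠ 0

/-- **DVD** (30 lines). `hom f D = hom g (deg g) * hom (f/g) (D - deg g)`; and homogeneity. -/
def S_DVD : Prop := (∀ (f g : ℤ[X]) (D : ℕ) (a b : ℤ), g ∣ f → f ≠ 0 → f.natDegree ≤ D →
    hom g g.natDegree a b ∣ hom f D a b) ∧
  ∀ (f : ℤ[X]) (D : ℕ) (k a b : ℤ), f.natDegree ≤ D → hom f D (k * a) (k * b) = k ^ D * hom f D a b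

/-- **LG** (100 lines). Large primes.
`theorem LG_main (h1 : S_MERV) (h2 : S_PIG) (h3 : S_GCD) (h4 : S_WB) (h5 : S_HB) (h6 : S_ZER) (h7 : S_RTB) : S_LG`.
PROOF. The sum over all `v` is `≥ ∑_{T<p≤T^(3/2)} log p rt g p (T²/p - 1) ≥ T² (1/2 - o(1)) log T - n T^(3/2) (3/2) log T`.
The `v` with `gc v > E` contribute at most `(9T²/E) log (C T^n)` by GCD, WB, HB, ZER. Take `E` large. -/
def S_LG : Prop := ∀ g : ℤ[X], Irreducible g → 2 ≤ g.natDegree → ∃ E : ℕ, 0 < E ∧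
  ∀ᶠ T : ℕ in atTop, (1 / 8 : ℝ) * (T : ℝ) ^ 2 * Real.log T ≤
    ∑ v ∈ (bx T).filter (fun v => gc v ≤ E), wt g g.natDegree (T : ℝ) ((T : ℝ) ^ (3 / 2 : ℝ)) v

/-- the pairs of the box with `F(v) ≠ 0` and weight `≥ (2 + 1/200) log T` -/
noncomputable def Hv (f : ℤ[X]) (D T : ℕ) : Finset (ℤ × ℤ) :=
  (bx T).filter (fun v => hom f D v.1 v.2 ≠ 0 ∧ (2 + 1 / 200) * Real.log T ≤
    wt f D ((T : ℝ) ^ (1 / 10000 : ℝ)) ((T : ℝ) ^ (1 - 1 / 10000 : ℝ)) v +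
    wt f D (T : ℝ) ((T : ℝ) ^ (3 / 2 : ℝ)) v)

/-- **CNT** (120 lines). Many heavy pairs.
`theorem CNT_main (h1 : S_FM) (h2 : S_LG) (h3 : S_GCD) (h4 : S_WB) (h5 : S_HB) (h6 : S_ZER) (h7 : S_DVD) : S_CNT`.
PROOF. `ε = 1/10000`, `M = s.card + (D - n) ≥ 2`. For `v` with `F(v) ≠ 0` both weights together are
`≤ log |F(v)| ≤ (D+1) log T` (WB for the union of the two disjoint ranges, or twice WB: `≤ 2 (D+1) log T`, which is
enough). The `v` with `F(v) = 0` contribute `≤ n (2T+1) T^(1-ε) log T` to FM, and to LG (weights of `g`) `≤ n (2T+1) (D+1) log T`.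
So `∑_{F(v) ≠ 0, gc v ≤ E} (ws + wl) ≥ 4T² log T (M (1 - 3ε) + [LG] 1/32 - 9·2(D+1)/(4E) - o(1)) ≥ 4 T² log T (2 + 1/100)`
for `E` large (LG is monotone in `E`): if `M ≥ 3` LG is not needed. At most `|bx T| (2+1/200) log T ≤ (4T²+2T) (2+1/200) log T`
comes from the light `v`, so the number of heavy `v` is `≥ c T²`. -/
def S_CNT : Prop := ∀ (f : ℤ[X]) (s : Finset ℤ[X]) (D : ℕ), f ≠ 0 → Fac f s →
  (D = f.natDegree ∨ D = f.natDegree + 1) → 2 ≤ s.card + (D - f.natDegree) →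
  ((∃ g ∈ s, 2 ≤ g.natDegree) ∨ 3 ≤ s.card + (D - f.natDegree)) →
  ∃ (c : ℝ) (E : ℕ), 0 < c ∧ 0 < E ∧ ∀ᶠ T : ℕ in atTop,
    c * (T : ℝ) ^ 2 ≤ (((Hv f D T).filter (fun v => gc v ≤ E)).card : ℝ)

/-- **PRI** (80 lines). Primitive heavy pairs. `theorem PRI_main (h : S_DVD) : S_PRI`.
PROOF. `v ↦ v / gc v` has fibres of size `≤ E` (`v = k w`, `1 ≤ k ≤ E`); for `T^(1/10000) > E` a prime in the ranges divides
`hom v = k^D hom w` iff it divides `hom w`. -/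
def S_PRI : Prop := ∀ (f : ℤ[X]) (D E : ℕ) (c : ℝ), f ≠ 0 → f.natDegree ≤ D → 0 < c → 0 < E →
  (∀ᶠ T : ℕ in atTop, c * (T : ℝ) ^ 2 ≤ (((Hv f D T).filter (fun v => gc v ≤ E)).card : ℝ)) →
  ∀ᶠ T : ℕ in atTop, c / E * (T : ℝ) ^ 2 ≤ (((Hv f D T).filter (fun v => gc v = 1)).card : ℝ)

/-- **LAT** (80 lines). Primitive points of a lattice in a box.
PROOF. `v₁ ∈ R` with the largest `M = max(|v.1|,|v.2|)`. `det v₁ v = q t`, `|det| ≤ 2M²`: at most `4M²/q + 1` values of `t`. If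
`t(v) = t(v')`, `det v₁ (v - v') = 0`, so `v - v' = s v₁` (`v₁` primitive), `|s| ≤ 2`: at most 5 points for each `t`. -/
def S_LAT : Prop := ∀ (q T : ℕ) (R : Finset (ℤ × ℤ)), 0 < q →
  (∀ v ∈ R, gc v = 1 ∧ |v.1| ≤ T ∧ |v.2| ≤ T) → (∀ v ∈ R, ∀ w ∈ R, (q : ℤ) ∣ det v w) →
  (R.card : ℝ) ≤ 20 * (T : ℝ) ^ 2 / q + 5

/-- **HEN** (80 lines). `theorem HEN_main (h : S_RTB) : S_HEN`.
PROOF. `u f + w f' = N ≠ 0` (`f` separable), `p ∤ N lc(f)`. If `p ∤ b` then `p ∤ b'` (otherwise `p ∣ det` gives `p ∣ a'`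
or ...), `x = a/b`, `x' = a'/b'` modulo `p²` are roots of `f` mod `p²`, congruent mod `p`, `f'(x)` is a unit:
`f(x) - f(x') = (x - x')(f'(x) + (x-x') ...)`, so `x ≡ x'` mod `p²`. If `p ∣ b`, `p ∣ b'`: `p ∤ a`; `D = n` impossible
(`hom ≡ lc a^n`); `D = n+1`: `hom = b (lc a^n + b ...)`, so `p² ∣ b`, `p² ∣ b'`. -/
def S_HEN : Prop := ∀ (f : ℤ[X]) (D : ℕ), Squarefree (f.map (Int.castRingHom ℚ)) →
  (D = f.natDegree ∨ D = f.natDegree + 1) → ∃ B : ℕ, ∀ p : ℕ, p.Prime → B < p → ∀ v w : ℤ × ℤ,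
  gc v = 1 → gc w = 1 → (p : ℤ) ^ 2 ∣ hom f D v.1 v.2 → (p : ℤ) ^ 2 ∣ hom f D w.1 w.2 →
  (p : ℤ) ∣ det v w → (p : ℤ) ^ 2 ∣ det v w

/-- **CLS** (60 lines). Root classes. `theorem CLS_main (h : S_RTB) : S_CLS`.
PROOF. `κ v` = the number of the root `a/b` mod `p` among the (at most `n`) roots of `f` in `ZMod p` if `p ∤ b`, the last
element if `p ∣ b`. -/
def S_CLS : Prop := ∀ (f : ℤ[X]) (D : ℕ), f ≠ 0 → (D = f.natDegree ∨ D = f.natDegree + 1) →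
  ∃ B : ℕ, ∀ p : ℕ, p.Prime → B < p → ∃ κ : ℤ × ℤ → Fin (f.natDegree + 1), ∀ v w : ℤ × ℤ,
  gc v = 1 → gc w = 1 → (p : ℤ) ∣ hom f D v.1 v.2 → (p : ℤ) ∣ hom f D w.1 w.2 → κ v = κ w →
  (p : ℤ) ∣ det v w

/-- **SQ** (80 lines). Square divisors. `theorem SQ_main (h1 : S_LAT) (h2 : S_HEN) (h3 : S_CLS) : S_SQ`.
PROOF. For each `p` the set is the union of `n+1` classes (CLS), in each `p² ∣ det` (HEN), so LAT with `q = p²`:
`≤ (n+1)(20T²/p² + 5)`. Sum over `T^ε < p ≤ T^(3/2)`: `≤ (n+1)(20 T² · 2 T^(-ε) + 5 (T^(3/2)+1))`. -/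
def S_SQ : Prop := ∀ (f : ℤ[X]) (D : ℕ), Squarefree (f.map (Int.castRingHom ℚ)) →
  (D = f.natDegree ∨ D = f.natDegree + 1) → ∀ ε η : ℝ, 0 < ε → 0 < η → ∀ᶠ T : ℕ in atTop,
  (({v : ℤ × ℤ | v ∈ bx T ∧ gc v = 1 ∧ ∃ p : ℕ, p.Prime ∧ (T : ℝ) ^ ε < p ∧
    (p : ℝ) ≤ (T : ℝ) ^ (3 / 2 : ℝ) ∧ (p : ℤ) ^ 2 ∣ hom f D v.1 v.2}.ncard : ℕ) : ℝ) ≤ η * (T : ℝ) ^ 2

/-- **MUL** (60 lines). Multiplicity. `theorem MUL_main (h : S_CLS) : S_MUL`.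
PROOF. `v ↦ (κ_p v)_{p ∈ P}` takes `≤ (n+1)^K` values; if `v, w` have the same value, all `p ∣ det v w`, so `∏ p ∣ det`,
`|det| ≤ 2T²`, so `det = 0` and `w = ± v` (both primitive). -/
def S_MUL : Prop := ∀ (f : ℤ[X]) (D : ℕ), f ≠ 0 → (D = f.natDegree ∨ D = f.natDegree + 1) →
  ∃ B : ℕ, ∀ (T K : ℕ) (P : Finset ℕ), (∀ p ∈ P, p.Prime ∧ B < p) → P.card ≤ K → 2 * T ^ 2 < ∏ p ∈ P, p →
  ((bx T).filter (fun v => gc v = 1 ∧ ∀ p ∈ P, (p : ℤ) ∣ hom f D v.1 v.2)).card ≤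
    2 * (f.natDegree + 1) ^ K

/-- the twists with a nontrivial rational point -/
def Tw (f : ℤ[X]) (B : ℝ) : Set ℤ :=
  {d : ℤ | Squarefree d ∧ |(d : ℝ)| < B ∧ ∃ x y : ℚ, y ≠ 0 ∧ (d : ℚ) * y ^ 2 = aeval x f}

/-- **PT** (40 lines). `F(a,b) = d z²`, `x = a/b`, `y = z/b^(D/2)`, `D` even. -/
def S_PT : Prop := ∀ (f : ℤ[X]) (a b d z : ℤ), b ≠ 0 → z ≠ 0 → hom f (dg f) a b = d * z ^ 2 →
  ∃ x y : ℚ, y ≠ 0 ∧ (d : ℚ) * y ^ 2 = aeval x f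

/-- **DIS** (120 lines). Distinct `d`. `theorem DIS_main (h1 : S_SQ) (h2 : S_MUL) (h3 : S_PT) (h4 : S_HB) : S_DIS`.
PROOF. `G` = the heavy primitive `v` without a square divisor `p²`, `p ∈ (T^ε, T^(3/2)]` (`ε = 1/10000`); `|G| ≥ (c/2) T²`
by SQ. For `v ∈ G` let `F(v) = d z²`, `d` squarefree (`Nat.sq_mul_squarefree` for `|F(v)|`, with the sign). The
primes `p` of the two ranges dividing `F(v)` are those dividing `d` (`p ∣ z` would give `p² ∣ F(v)`); `P(d)` = this set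
depends only on `d` and `T`; `∏ P ≥ T^(2+1/200) > 2T²`; `T^(ε |P|) ≤ |F(v)| ≤ C T^D`, so `|P| ≤ K = ⌈(D+1)/ε⌉`. MUL: every `d` comes from at
most `2 (n+1)^K` of the `v ∈ G`. `|d| ≤ |F(v)| ≤ C T^D < 2 C T^D`. -/
def S_DIS : Prop := ∀ (f : ℤ[X]) (c : ℝ), Squarefree (f.map (Int.castRingHom ℚ)) → 5 ≤ f.natDegree → 0 < c →
  (∀ᶠ T : ℕ in atTop, c * (T : ℝ) ^ 2 ≤ (((Hv f (dg f) T).filter (fun v => gc v = 1)).card : ℝ)) →
  ∃ c' C : ℝ, 0 < c' ∧ 0 < C ∧ ∀ᶠ T : ℕ in atTop,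
    c' * (T : ℝ) ^ 2 ≤ ((Tw f (C * (T : ℝ) ^ (dg f))).ncard : ℝ)

/-- **FIN** (60 lines). From `T` to `B`: `T = ⌊(B/C)^(1/(2g+2))⌋`. -/
def S_FIN : Prop := ∀ (f : ℤ[X]) (c' C : ℝ), 5 ≤ f.natDegree → 0 < c' → 0 < C →
  (∀ᶠ T : ℕ in atTop, c' * (T : ℝ) ^ 2 ≤ ((Tw f (C * (T : ℝ) ^ (dg f))).ncard : ℝ)) →
  ∃ c : ℝ, 0 < c ∧ ∀ᶠ B : ℝ in atTop,
    c * B ^ ((1 : ℝ) / (((f.natDegree - 1) / 2 : ℕ) + 1)) ≤ ((Tw f B).ncard : ℝ)

end Pool.Agent.H11.TW
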