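import Mathlib
import Pool.Agent.H11.TW.Stm

/-!
# Project TW, part 2 (MP_f4d5ac_nt): all curves, one logarithm

THEOREM. For every separable `f ∈ ℤ[x]` of degree `≥ 5`: `N_f(B) ≥ c B^(1/(g+1)) / log B` (Stewart-Top: `log²`).
Only `f` irreducible of even degree remains. For primes `T^(1/4) < p ≤ T^(1/2)`, `T²/(8p) < q ≤ T²/(4p)` with roots of `f`
mod `p`, mod `q` (there are `≥ c T²/log T` pairs) there is `v ∈ [-T,T]²`, `v ≠ 0`, with `pq ∣ F(v)`.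

Files `Pool/Agent/H11/TW/NAME.lean`, `theorem Pool.Agent.H11.TW.NAME_main`.
-/

set_option autoImplicit false

namespace Pool.Agent.H11.TW

open Polynomial Finset Filter Topology

/-- the pairs of primes -/
noncomputable def PP (f : ℤ[X]) (T : ℕ) : Finset (ℕ × ℕ) :=
  (pr ((T : ℝ) ^ (1 / 4 : ℝ)) ((T : ℝ) ^ (1 / 2 : ℝ)) ×ˢ pr ((T : ℝ) ^ (5 / 4 : ℝ)) ((T : ℝ) ^ (7 / 4 : ℝ))).filter
    (fun u => (T : ℝ) ^ 2 / (8 * u.1) < u.2 ∧ (u.2 : ℝ) ≤ (T : ℝ) ^ 2 / (4 * u.1) ∧ 1 ≤ rt f u.1 ∧ 1 ≤ rt f u.2)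

/-- the primitive vector -/
def prim (v : ℤ × ℤ) : ℤ × ℤ := (v.1 / gc v, v.2 / gc v)

/-- **DY** (60 lines). `theorem DY_main (h : S_PI) : S_DY`. Dyadic intervals: `∑_{p≤N} rt = (1+o(1)) π(N)`, and
`π(2x) - π(x) ~ x / log x` (prime number theorem `Pool.Agent.Helper923.PNT.pi_tendsto` in
`Pool.Agent.H11.V.R_seed8_Helper923_PNT`); apply at `N = ⌊x⌋, ⌊2x⌋`. -/
def S_DY : Prop := ∀ f : ℤ[X], Irreducible f → 0 < f.natDegree → ∀ᶠ x : ℝ in atTop,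
  (1 / 2 : ℝ) * x / Real.log x ≤ ∑ p ∈ pr x (2 * x), (rt f p : ℝ)

/-- **PPC** (90 lines). `theorem PPC_main (h1 : S_DY) (h2 : S_MERV) (h3 : S_RTB) : S_PPC`.
PROOF. For each `p ∈ (T^(1/4), T^(1/2)]` with a root: `x = T²/(8p) ≥ T^(3/2)/8` is large, `T^(5/4) < x`, `2x ≤ T^(7/4)`; DY and
`rt ≤ n` (RTB): at least `x/(2 n log x) ≥ x/(4 n log T)` primes `q ∈ (x, 2x]` with a root. Sum over `p`:
`≥ T²/(32 n log T) ∑_{p, rt ≥ 1} 1/p ≥ T²/(32 n² log T) ∑ rt p / p`, and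
`∑ rt p/p ≥ (1/log T^(1/2)) ∑ rt p log p/p ≥ (2/log T) (1/4 - 1/8) log T = 1/4` (MERV). -/
def S_PPC : Prop := ∀ f : ℤ[X], Irreducible f → 0 < f.natDegree → ∃ c : ℝ, 0 < c ∧ ∀ᶠ T : ℕ in atTop,
  c * (T : ℝ) ^ 2 / Real.log T ≤ ((PP f T).card : ℝ)

/-- **VEC** (70 lines). Pigeonhole: roots `r` mod `p`, `s` mod `q`. The `(T+1)² > pq` points of `[0,T]²` have two different ones
with the same `(a - r b mod p, a - s b mod q)`; `v` = difference. `b ≠ 0`: otherwise `q ∣ a`, `|a| ≤ T < q`, `v = 0`. And `p ∣ hom`: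
`hom f n a b ≡ hom f n (r b) b = b^n f(r)`. -/
def S_VEC : Prop := ∀ (f : ℤ[X]) (p q T : ℕ), p.Prime → q.Prime → T < q → p * q ≤ T ^ 2 →
  1 ≤ rt f p → 1 ≤ rt f q → ∃ v ∈ bx T, (p : ℤ) ∣ hom f f.natDegree v.1 v.2 ∧ (q : ℤ) ∣ hom f f.natDegree v.1 v.2

/-- **SQV** (60 lines). As SQ (file `SQ.lean`), with a power saving.
`theorem SQV_main (h1 : S_LAT) (h2 : S_HEN) (h3 : S_CLS) : S_SQV`.
The bound is `(n+1) (20 T² · 2 T^(-1/4) + 5 (T^(7/4) + 1))`. -/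
def S_SQV : Prop := ∀ (f : ℤ[X]) (D : ℕ), Squarefree (f.map (Int.castRingHom ℚ)) →
  (D = f.natDegree ∨ D = f.natDegree + 1) → ∀ᶠ T : ℕ in atTop,
  (({v : ℤ × ℤ | v ∈ bx T ∧ gc v = 1 ∧ ∃ p : ℕ, p.Prime ∧ (T : ℝ) ^ (1 / 4 : ℝ) < p ∧
    (p : ℝ) ≤ (T : ℝ) ^ (7 / 4 : ℝ) ∧ (p : ℤ) ^ 2 ∣ hom f D v.1 v.2}.ncard : ℕ) : ℝ) ≤ (T : ℝ) ^ (15 / 8 : ℝ)

/-- **BAD** (120 lines). Few bad pairs. `theorem BAD_main (h1 : S_SQV) (h2 : S_HB) (h3 : S_DVD) : S_BAD`.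
PROOF. For large `T` a nonzero value `|F(w)| ≤ C T^n`, `w` in the box, has at most `4 (n+1)` prime divisors `> T^(1/4)`.
(a) `p ∣ gc v`: `v = p w`, `w ∈ bx (T/p)`, `q ∣ F(w) ≠ 0` (`F(v) = p^n F(w)`, `q > p`); for each `p` at most `(3T/p)²` vectors `w`, so
at most `4(n+1) 9T²/p²` primes `q`; sum over `p > T^(1/4)`: `≤ 72 (n+1) T^(7/4)`.
(b) `p ∤ gc v`: `p, q ∣ F(prim v)` (`F(v) = gc^n F(prim v)`, `q > T ≥ gc v`), and `prim v` is in the set of SQV; each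
`w` of this set comes from at most `(4(n+1))²` pairs `(p,q)`: `≤ 16 (n+1)² T^(15/8)`. -/
def S_BAD : Prop := ∀ f : ℤ[X], Squarefree (f.map (Int.castRingHom ℚ)) →
  (∀ a b : ℤ, b ≠ 0 → hom f f.natDegree a b ≠ 0) → ∀ᶠ T : ℕ in atTop, ∀ V : ℕ × ℕ → ℤ × ℤ,
  (∀ u ∈ PP f T, V u ∈ bx T ∧ (u.1 : ℤ) ∣ hom f f.natDegree (V u).1 (V u).2 ∧
    (u.2 : ℤ) ∣ hom f f.natDegree (V u).1 (V u).2) →
  (({u : ℕ × ℕ | u ∈ PP f T ∧ (u.1 ∣ gc (V u) ∨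
    (u.1 : ℤ) ^ 2 ∣ hom f f.natDegree (prim (V u)).1 (prim (V u)).2 ∨
    (u.2 : ℤ) ^ 2 ∣ hom f f.natDegree (prim (V u)).1 (prim (V u)).2)}.ncard : ℕ) : ℝ) ≤ (T : ℝ) ^ (31 / 16 : ℝ)

/-- **DIV2** (120 lines). Distinct `d`.
`theorem DIV2_main (h1 : S_PPC) (h2 : S_VEC) (h3 : S_BAD) (h4 : S_PT) (h5 : S_HB) (h6 : S_DVD) : S_DIV2`.
PROOF. For `(p,q) ∈ PP` let `v = V(p,q)` be as in VEC (`pq ≤ T²/4`, `q > T^(5/4) > T`). By BAD at least `(c/2) T²/log T` pairs are good: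
`p ∤ gc v` (and `q ∤ gc v` as `q > T`), `w = prim v`, `F(v) = gc^n F(w)`, so `p, q ∣ F(w)`, and `p², q² ∤ F(w)`. `F(w) = d z²`, `d`
squarefree (`Nat.sq_mul_squarefree`, sign): `p, q ∣ d`. `|d| ≤ C T^n < 2 C T^n`, PT (`dg f = n`, `n` even): `d ∈ Tw`. Every `d` comes
from at most `(4(n+1))²` pairs `(p,q)` (`d` has at most `4(n+1)` prime divisors `> T^(1/4)`). -/
def S_DIV2 : Prop := ∀ f : ℤ[X], Irreducible f → Squarefree (f.map (Int.castRingHom ℚ)) → Even f.natDegree →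
  5 ≤ f.natDegree → (∀ a b : ℤ, b ≠ 0 → hom f f.natDegree a b ≠ 0) →
  ∃ c C : ℝ, 0 < c ∧ 0 < C ∧ ∀ᶠ T : ℕ in atTop,
    c * (T : ℝ) ^ 2 / Real.log T ≤ ((Tw f (C * (T : ℝ) ^ (dg f))).ncard : ℝ)

/-- **FINL** (60 lines). From `T` to `B` as FIN (file `FIN.lean`): `T = ⌊(B/C)^(1/(2g+2))⌋`, `log T ≤ log B`. -/
def S_FINL : Prop := ∀ (f : ℤ[X]) (c' C : ℝ), 5 ≤ f.natDegree → 0 < c' → 0 < C →
  (∀ᶠ T : ℕ in atTop, c' * (T : ℝ) ^ 2 / Real.log T ≤ ((Tw f (C * (T : ℝ) ^ (dg f))).ncard : ℝ)) →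
  ∃ c : ℝ, 0 < c ∧ ∀ᶠ B : ℝ in atTop,
    c * B ^ ((1 : ℝ) / (((f.natDegree - 1) / 2 : ℕ) + 1)) / Real.log B ≤ ((Tw f B).ncard : ℝ)

/-- **CON** (60 lines). Reduction to primitive irreducible `f`: if `f` is irreducible over `ℚ`, then `f = k g`, `g` primitive,
irreducible in `ℤ[x]`, of the same degree, and the squarefree parts for `f` are those of `k d`: `d ∈ Tw g B` gives
`d' ∈ Tw f (|k| B)`, `k d = d' m²`, `d'` squarefree; the map `d ↦ d'` is injective (`d = ` squarefree part of `k d'`). So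
`(Tw g (B/|k|)).ncard ≤ (Tw f B).ncard`. -/
def S_CON : Prop := ∀ f : ℤ[X], Irreducible (f.map (Int.castRingHom ℚ)) → 5 ≤ f.natDegree →
  ∃ (g : ℤ[X]) (k : ℝ), Irreducible g ∧ Irreducible (g.map (Int.castRingHom ℚ)) ∧ g.natDegree = f.natDegree ∧
    0 < k ∧ ∀ B : ℝ, 0 < B → (Tw g (B / k)).ncard ≤ (Tw f B).ncard

end Pool.Agent.H11.TW
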